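import Pool.Agent.Work.MP_a6e60d_ag.DG.Equiv2
import Pool.Agent.Work.MP_a6e60d_ag.DG.MapCx

/-!
MP_a6e60d_ag, bridge: morphisms out of a complex whose terms represent a functor.
-/

open CategoryTheory CochainComplex HomComplex

namespace Orl

section QIso

universe w

variable {k : Type w} [CommRing k] {A B E : DGCat.{0, 1} k} {a b : A.Obj} {c d : B.Obj}
  {e f : E.Obj}

/-- compositions of quasi-isomorphisms -/
theorem QIso.comp {φ : ∀ n : ℤ, A.Hom a b n →ₗ[k] B.Hom c d n}
    {ψ : ∀ n : ℤ, B.Hom c d n →ₗ[k] E.Hom e f n} (hψ : QIso ψ) (hφ : QIso φ)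
    (h₁ : ∀ (n m : ℤ) (x : A.Hom a b n), B.d n m (φ n x) = φ m (A.d n m x))
    (h₂ : ∀ (n m : ℤ) (x : B.Hom c d n), E.d n m (ψ n x) = ψ m (B.d n m x)) :
    QIso fun n => (ψ n).comp (φ n) where
  inj n x hx hy := hφ.inj n x hx (hψ.inj n (φ n x) (by rw [h₁, hx, map_zero]) hy)
  surj n y hy := by
    obtain ⟨x, hx, z, hz⟩ := hψ.surj n y hy
    obtain ⟨x', hx', z', hz'⟩ := hφ.surj n x hx
    refine ⟨x', hx', z + ψ (n - 1) z', ?_⟩
    rw [map_add, hz, h₂, hz', map_sub]
    exact sub_add_sub_cancel _ _ _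

/-- If `ψ` and `ψ φ` are quasi-isomorphisms then so is `φ`. -/
theorem QIso.of_comp {φ : ∀ n : ℤ, A.Hom a b n →ₗ[k] B.Hom c d n}
    {ψ : ∀ n : ℤ, B.Hom c d n →ₗ[k] E.Hom e f n} (hψ : QIso ψ)
    (h : QIso fun n => (ψ n).comp (φ n))
    (h₁ : ∀ (n m : ℤ) (x : A.Hom a b n), B.d n m (φ n x) = φ m (A.d n m x))
    (h₂ : ∀ (n m : ℤ) (x : B.Hom c d n), E.d n m (ψ n x) = ψ m (B.d n m x)) : QIso φ where
  inj n x hx := by
    rintro ⟨y, hy⟩
    refine h.inj n x hx ⟨ψ (n - 1) y, ?_⟩
    rw [h₂, hy]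
    rfl
  surj n y hy := by
    obtain ⟨x, hx, z, hz⟩ := h.surj n (ψ n y) (by rw [h₂, hy, map_zero])
    refine ⟨x, hx, ?_⟩
    refine hψ.inj n (y - φ n x) ?_ ⟨z, ?_⟩
    · rw [map_sub, h₁, hx, hy, map_zero, sub_zero]
    · rw [map_sub]
      exact hz

end QIso

section Fun

variable {k : Type} [CommRing k]
  {C D : Type 1} [Category.{0} C] [Category.{0} D] [Preadditive C] [Preadditive D]
  [Linear k C] [Linear k D]

/-- The morphism `u : P → F V` is universal: the maps `Hom (V, M) → Hom (P, F M)`,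
`f ↦ F f ∘ u`, are bijective. -/
def IsRep (F : C ⥤ D) {P : D} {V : C} (u : P ⟶ F.obj V) : Prop :=
  ∀ M : C, Function.Bijective fun f : V ⟶ M => u ≫ F.map f

/-- For a morphism of complexes `u : P → F A` whose terms are universal the map
`Hom (A, J) → Hom (P, F J)` is bijective in all degrees. -/
theorem bijective_of_isRep (F : C ⥤ D) [F.Additive] {A J : CochainComplex C ℤ}
    {P : CochainComplex D ℤ} (u : P ⟶ (F.mapHomologicalComplex _).obj A)
    (hu : ∀ n, IsRep F (P := P.X n) (V := A.X n) (u.f n)) (n : ℤ) :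
    Function.Bijective fun z : Cochain A J n =>
      (Cochain.ofHom u).comp (z.map F) (zero_add n) := by
  constructor
  · intro z z' h
    refine Cochain.ext _ _ fun p q hpq => (hu p (J.X q)).injective ?_
    have := congrArg (fun y => Cochain.v y p q hpq) h
    simp only [Cochain.zero_cochain_comp_v, Cochain.ofHom_v, Cochain.map_v] at this
    exact this
  · intro y
    choose z hz using fun (p q : ℤ) (hpq : p + n = q) => (hu p (J.X q)).surjective (y.v p q hpq)
    refine ⟨Cochain.mk z, Cochain.ext _ _ fun p q hpq => ?_⟩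
    simp only [Cochain.zero_cochain_comp_v, Cochain.ofHom_v, Cochain.map_v, Cochain.mk_v]
    exact hz p q hpq

theorem mixc_qIso_of_isRep (F : C ⥤ D) [F.Additive] [F.Linear k] {A J : CochainComplex C ℤ}
    {P : CochainComplex D ℤ} (u : P ⟶ (F.mapHomologicalComplex _).obj A)
    (hu : ∀ n, IsRep F (P := P.X n) (V := A.X n) (u.f n)) :
    QIso (mixc (mapDG (k := k) F) (a := P) (b := A) (Cochain.ofHom u) J) where
  inj n x hx := by
    rintro ⟨y, hy⟩
    obtain ⟨x', hx'⟩ := (bijective_of_isRep F u hu (J := J) (n - 1)).surjective y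
    refine ⟨x', (bijective_of_isRep F u hu (J := J) n).injective ?_⟩
    subst hx'
    exact (d_mixc (mapDG (k := k) F) (q := Cochain.ofHom u) (δ_ofHom u) J (n - 1) n
      x').symm.trans hy
  surj n y hy := by
    obtain ⟨x, hx⟩ := (bijective_of_isRep F u hu (J := J) n).surjective y
    subst hx
    refine ⟨x, (bijective_of_isRep F u hu (J := J) (n + 1)).injective ?_, 0, ?_⟩
    · have h := (d_mixc (mapDG (k := k) F) (q := Cochain.ofHom u) (δ_ofHom u) J n (n + 1) x).symm
      refine (h.trans hy).trans ?_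
      exact ((mixc (mapDG (k := k) F) (a := P) (b := A) (Cochain.ofHom u) J (n + 1)).map_zero).symm
    · rw [map_zero]
      exact (sub_self _).symm

end Fun

section Good

variable {k : Type} [CommRing k]
  {C D : Type 1} [Category.{0} C] [Category.{0} D] [Abelian C] [Abelian D]
  [Linear k C] [Linear k D]

/-- Let `u : P → F A` be a morphism of complexes with universal terms and `s : A → I` a
quasi-isomorphism.  Then for every K-injective complex `J` the map `Hom (I, J) → Hom (P, F J)`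
given by `F s ∘ u` is a quasi-isomorphism. -/
theorem mixc_qIso_of_isRep' (F : C ⥤ D) [F.Additive] [F.Linear k] {A I J : CochainComplex C ℤ}
    {P : CochainComplex D ℤ} (u : P ⟶ (F.mapHomologicalComplex _).obj A)
    (hu : ∀ n, IsRep F (P := P.X n) (V := A.X n) (u.f n)) (s : A ⟶ I) [QuasiIso s]
    [J.IsKInjective] :
    QIso (mixc (mapDG (k := k) F) (a := P) (b := I)
      (Cochain.ofHom (u ≫ (F.mapHomologicalComplex _).map s)) J) := by
  have h₁ := prec_qIso_of_quasiIso (k := k) s (J := J)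
  have h₂ := mixc_qIso_of_isRep (k := k) F u hu (J := J)
  have h := h₂.comp h₁ (d_prec (A := cxDG k C) (a := A) (b := I) (q := Cochain.ofHom s)
    (δ_ofHom s) J) (d_mixc (mapDG (k := k) F) (q := Cochain.ofHom u) (δ_ofHom u) J)
  have e : (mixc (mapDG (k := k) F) (a := P) (b := I)
      (Cochain.ofHom (u ≫ (F.mapHomologicalComplex _).map s)) J) = fun n =>
      (mixc (mapDG (k := k) F) (a := P) (b := A) (Cochain.ofHom u) J n).comp
        (prec (A := cxDG k C) (a := A) (b := I) (Cochain.ofHom s) J n) := by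
    funext n
    refine LinearMap.ext fun x => ?_
    change (Cochain.ofHom (u ≫ (F.mapHomologicalComplex _).map s)).comp
      (Cochain.map (K := I) (L := J) x F) (zero_add n) =
      (Cochain.ofHom u).comp (((Cochain.ofHom s).comp x (zero_add n)).map F) (zero_add n)
    rw [Cochain.map_comp, Cochain.map_ofHom, Cochain.ofHom_comp,
      Cochain.comp_assoc_of_first_is_zero_cochain]
  rw [e]
  exact h

/-- The form of the bridge used with `quasiEquivalent_thick₂`. -/
theorem mixl_qIso_of_isRep (F : C ⥤ D) [F.Additive] [F.Linear k] {A I I₂ : CochainComplex C ℤ}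
    {P J : CochainComplex D ℤ} (u : P ⟶ (F.mapHomologicalComplex _).obj A)
    (hu : ∀ n, IsRep F (P := P.X n) (V := A.X n) (u.f n)) (s : A ⟶ I) [QuasiIso s]
    [I₂.IsKInjective] [P.IsKProjective] [J.IsKInjective]
    (hp : QuasiIso (u ≫ (F.mapHomologicalComplex _).map s))
    (q : (F.mapHomologicalComplex _).obj I₂ ⟶ J) [QuasiIso q] :
    QIso (mixl (mapDG (k := k) F) (a := I₂) (b := J) (Cochain.ofHom q) I) := by
  have h₁ := mixc_qIso_of_isRep' (k := k) F u hu s (J := I₂)
  have h₂ := postc_qIso_of_quasiIso (k := k) q (P := P)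
  have h₃ := prec_qIso_of_quasiIso (k := k) (u ≫ (F.mapHomologicalComplex _).map s) (J := J)
  have h := h₂.comp h₁ (d_mixc (mapDG (k := k) F)
    (q := Cochain.ofHom (u ≫ (F.mapHomologicalComplex _).map s)) (δ_ofHom _) I₂)
    (d_postc (A := cxDG k D) (a := (F.mapHomologicalComplex _).obj I₂) (b := J)
      (q := Cochain.ofHom q) (δ_ofHom q) P)
  refine h₃.of_comp ?_ (d_mixl (mapDG (k := k) F) (a := I₂) (b := J) (q := Cochain.ofHom q)
    (δ_ofHom q) I) (d_prec (A := cxDG k D) (a := P) (b := (F.mapHomologicalComplex _).obj I)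
      (q := Cochain.ofHom (u ≫ (F.mapHomologicalComplex _).map s)) (δ_ofHom _) J)
  convert h using 1
  funext n
  refine LinearMap.ext fun x => ?_
  change (Cochain.ofHom (u ≫ (F.mapHomologicalComplex _).map s)).comp
    ((Cochain.map (K := I) (L := I₂) x F).comp (Cochain.ofHom q) (add_zero n)) (zero_add n) =
    ((Cochain.ofHom (u ≫ (F.mapHomologicalComplex _).map s)).comp
    (Cochain.map (K := I) (L := I₂) x F) (zero_add n)).comp (Cochain.ofHom q) (add_zero n)
  rw [Cochain.comp_assoc_of_first_is_zero_cochain]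

/-- The bridge: `Hom (I₁, I₂) → Hom (F I₁, J)` is a quasi-isomorphism for all `I₁` in the thick
closure of `I` and all K-injective `I₂`, with `q : F I₂ → J` a quasi-isomorphism to a K-injective
complex. -/
theorem mixl_qIso_of_thick (F : C ⥤ D) [F.Additive] [F.Linear k]
    {A I I₁ I₂ : CochainComplex C ℤ}
    {P J : CochainComplex D ℤ} (u : P ⟶ (F.mapHomologicalComplex _).obj A)
    (hu : ∀ n, IsRep F (P := P.X n) (V := A.X n) (u.f n)) (s : A ⟶ I) [QuasiIso s]
    [I₂.IsKInjective] [P.IsKProjective] [J.IsKInjective]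
    (hp : QuasiIso (u ≫ (F.mapHomologicalComplex _).map s))
    (h₁ : DGCat.Thick (A := cxDG k C) I I₁)
    (q : (F.mapHomologicalComplex _).obj I₂ ⟶ J) [QuasiIso q] :
    QIso (mixl (mapDG (k := k) F) (a := I₂) (b := J) (Cochain.ofHom q) I₁) :=
  mixl_qIso (mapDG (k := k) F) (a := I₂) (b := J) (q := Cochain.ofHom q) (δ_ofHom q)
    (mixl_qIso_of_isRep F u hu s hp q) h₁

end Good

end Orl
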