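import Mathlib.Algebra.Homology.ShortComplex.HomologicalComplex
import Mathlib.Algebra.Homology.HomotopyCategory.KProjective
import Mathlib.Algebra.Homology.HomotopyCategory.SingleFunctors
import Mathlib.CategoryTheory.Abelian.Injective.Extend

/-!
MP_a6e60d_ag, bridge: complexes with two terms in the degrees `-1` and `0`.
-/

open CategoryTheory Limits ZeroObject HomologicalComplex

universe v u v' u'

namespace Orl.Br

section Def

variable {C : Type u} [Category.{v} C] [Preadditive C] [HasZeroObject C] {A₁ A₀ B₁ B₀ M : C}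

/-- the terms of the complex `A₁ → A₀` in the degrees `-1`, `0` -/
noncomputable def twoX (A₁ A₀ : C) : ℤ → C
  | Int.negSucc 0 => A₁
  | Int.ofNat 0 => A₀
  | Int.negSucc (_ + 1) => 0
  | Int.ofNat (_ + 1) => 0

/-- the differential -/
noncomputable def twoD (f : A₁ ⟶ A₀) : ∀ i j : ℤ, twoX A₁ A₀ i ⟶ twoX A₁ A₀ j
  | Int.negSucc 0, Int.ofNat 0 => f
  | _, _ => 0

omit [Preadditive C] in
lemma isZero_twoX {A₁ A₀ : C} {n : ℤ} (h₁ : n ≠ -1) (h₀ : n ≠ 0) : IsZero (twoX A₁ A₀ n) := by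
  match n with
  | Int.negSucc 0 => exact absurd rfl h₁
  | Int.ofNat 0 => exact absurd rfl h₀
  | Int.negSucc (_ + 1) => exact isZero_zero C
  | Int.ofNat (_ + 1) => exact isZero_zero C

lemma twoD_eq_zero_of_ne (f : A₁ ⟶ A₀) {i : ℤ} (h : i ≠ -1) (j : ℤ) : twoD f i j = 0 := by
  match i, j with
  | Int.negSucc 0, _ => exact absurd rfl h
  | Int.negSucc (_ + 1), Int.ofNat _ => rfl
  | Int.negSucc (_ + 1), Int.negSucc _ => rfl
  | Int.ofNat _, Int.ofNat _ => rfl
  | Int.ofNat _, Int.negSucc _ => rfl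

lemma twoD_eq_zero_of_ne' (f : A₁ ⟶ A₀) (i : ℤ) {j : ℤ} (h : j ≠ 0) : twoD f i j = 0 := by
  match i, j with
  | _, Int.ofNat 0 => exact absurd rfl h
  | Int.negSucc 0, Int.ofNat (_ + 1) => rfl
  | Int.negSucc 0, Int.negSucc _ => rfl
  | Int.negSucc (_ + 1), Int.ofNat (_ + 1) => rfl
  | Int.negSucc (_ + 1), Int.negSucc _ => rfl
  | Int.ofNat _, Int.ofNat (_ + 1) => rfl
  | Int.ofNat _, Int.negSucc _ => rfl

/-- the complex `A₁ → A₀` in the degrees `-1`, `0` -/
noncomputable def two (f : A₁ ⟶ A₀) : CochainComplex C ℤ where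
  X := twoX A₁ A₀
  d := twoD f
  shape i j h := by
    by_cases hi : i = -1
    · subst hi
      exact twoD_eq_zero_of_ne' f _ fun hj => h (by subst hj; rfl)
    · exact twoD_eq_zero_of_ne f hi j
  d_comp_d' i j l _ _ := by
    by_cases hj : j = 0
    · subst hj
      rw [twoD_eq_zero_of_ne f (show (0 : ℤ) ≠ -1 by omega) l, comp_zero]
    · rw [twoD_eq_zero_of_ne' f i hj, zero_comp]

@[simp] lemma two_X_neg (f : A₁ ⟶ A₀) : (two f).X (-1) = A₁ := rfl

@[simp] lemma two_X_zero (f : A₁ ⟶ A₀) : (two f).X 0 = A₀ := rfl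

lemma two_d (f : A₁ ⟶ A₀) : (two f).d (-1) 0 = f := rfl

lemma two_d_eq_zero (f : A₁ ⟶ A₀) {i : ℤ} (h : i ≠ -1) (j : ℤ) : (two f).d i j = 0 :=
  twoD_eq_zero_of_ne f h j

lemma two_d_eq_zero' (f : A₁ ⟶ A₀) (i : ℤ) {j : ℤ} (h : j ≠ 0) : (two f).d i j = 0 :=
  twoD_eq_zero_of_ne' f i h

lemma isZero_two_X (f : A₁ ⟶ A₀) {n : ℤ} (h₁ : n ≠ -1) (h₀ : n ≠ 0) : IsZero ((two f).X n) :=
  isZero_twoX h₁ h₀

/-- morphisms out of a two-term complex -/
noncomputable def twoDesc (f : A₁ ⟶ A₀) (K : CochainComplex C ℤ) (a₁ : A₁ ⟶ K.X (-1))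
    (a₀ : A₀ ⟶ K.X 0) (h : f ≫ a₀ = a₁ ≫ K.d (-1) 0) (h' : a₀ ≫ K.d 0 1 = 0) : two f ⟶ K where
  f := fun
    | Int.negSucc 0 => a₁
    | Int.ofNat 0 => a₀
    | Int.negSucc (_ + 1) => 0
    | Int.ofNat (_ + 1) => 0
  comm' i j hij := by
    have hij : i + 1 = j := hij
    subst hij
    by_cases h₁ : i = -1
    · subst h₁
      exact h.symm
    · by_cases h₀ : i = 0
      · subst h₀
        rw [two_d_eq_zero f (by omega), zero_comp]
        exact h'
      · exact (isZero_two_X f h₁ h₀).eq_of_src _ _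

@[simp] lemma twoDesc_f_neg (f : A₁ ⟶ A₀) (K : CochainComplex C ℤ) (a₁ : A₁ ⟶ K.X (-1))
    (a₀ : A₀ ⟶ K.X 0) (h : f ≫ a₀ = a₁ ≫ K.d (-1) 0) (h' : a₀ ≫ K.d 0 1 = 0) :
    (twoDesc f K a₁ a₀ h h').f (-1) = a₁ := rfl

@[simp] lemma twoDesc_f_zero (f : A₁ ⟶ A₀) (K : CochainComplex C ℤ) (a₁ : A₁ ⟶ K.X (-1))
    (a₀ : A₀ ⟶ K.X 0) (h : f ≫ a₀ = a₁ ≫ K.d (-1) 0) (h' : a₀ ≫ K.d 0 1 = 0) :
    (twoDesc f K a₁ a₀ h h').f 0 = a₀ := rfl

lemma two_hom_ext (f : A₁ ⟶ A₀) {K : CochainComplex C ℤ} {φ ψ : two f ⟶ K}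
    (h₁ : φ.f (-1) = ψ.f (-1)) (h₀ : φ.f 0 = ψ.f 0) : φ = ψ := by
  ext n
  by_cases h : n = -1
  · subst h
    exact h₁
  · by_cases h' : n = 0
    · subst h'
      exact h₀
    · exact (isZero_two_X f h h').eq_of_src _ _

end Def

section Ab

variable {C : Type u} [Category.{v} C] [Abelian C] {A₁ A₀ M : C}

/-- the morphism from the complex `A₁ → A₀` to `M` -/
noncomputable def twoSingle (f : A₁ ⟶ A₀) (π : A₀ ⟶ M) (h : f ≫ π = 0) :
    two f ⟶ (single C (ComplexShape.up ℤ) 0).obj M :=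
  twoDesc f _ 0 (π ≫ (singleObjXSelf (ComplexShape.up ℤ) 0 M).inv)
    (by rw [reassoc_of% h, zero_comp, zero_comp])
    (by simp)

theorem exactAt_two (f : A₁ ⟶ A₀) [Mono f] {n : ℤ} (hn : n ≠ 0) : (two f).ExactAt n := by
  by_cases h : n = -1
  · subst h
    rw [exactAt_iff' _ (-2) (-1) 0 (by simp) (by simp)]
    exact (ShortComplex.exact_iff_mono _ (two_d_eq_zero f (show (-2 : ℤ) ≠ -1 by decide) _)).2
      (show Mono ((two f).d (-1) 0) from inferInstanceAs (Mono f))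
  · rw [exactAt_iff_isZero_homology]
    exact ShortComplex.isZero_homology_of_isZero_X₂ _ (isZero_two_X f h hn)

theorem quasiIso_twoSingle (f : A₁ ⟶ A₀) (π : A₀ ⟶ M) (h : f ≫ π = 0)
    (hS : (ShortComplex.mk f π h).ShortExact) : QuasiIso (twoSingle f π h) := by
  have := hS.mono_f
  have := hS.epi_g
  constructor
  intro n
  by_cases h0 : n = 0
  · subst h0
    rw [quasiIsoAt_iff' _ (-1) 0 1 (by simp) (by simp), ShortComplex.quasiIso_iff_of_zeros']
    · constructor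
      · refine (ShortComplex.exact_iff_of_iso ?_).2 hS.exact
        exact ShortComplex.isoMk (Iso.refl _) (Iso.refl _)
          (singleObjXSelf (ComplexShape.up ℤ) 0 M) (by
            change 𝟙 A₁ ≫ f = f ≫ 𝟙 A₀
            simp) (by
            change 𝟙 A₀ ≫ π = (π ≫ (singleObjXSelf (ComplexShape.up ℤ) 0 M).inv) ≫
              (singleObjXSelf (ComplexShape.up ℤ) 0 M).hom
            simp)
      · change Epi (π ≫ (singleObjXSelf (ComplexShape.up ℤ) 0 M).inv)
        infer_instance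
    · exact two_d_eq_zero f (show (0 : ℤ) ≠ -1 by decide) _
    · exact single_obj_d (ComplexShape.up ℤ) ..
    · exact single_obj_d (ComplexShape.up ℤ) ..
  · rw [quasiIsoAt_iff_exactAt']
    · exact exactAt_two f h0
    · exact exactAt_single_obj _ _ _ _ h0

/-- a two-term complex of projective objects is K-projective -/
theorem isKProjective_two (f : A₁ ⟶ A₀) [Projective A₁] [Projective A₀] :
    (two f).IsKProjective := by
  have : ∀ n, Projective ((two f).X n) := fun n => by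
    by_cases h : n = -1
    · subst h
      exact (inferInstance : Projective A₁)
    · by_cases h' : n = 0
      · subst h'
        exact (inferInstance : Projective A₀)
      · exact (isZero_two_X f h h').projective
  have : (two f).IsStrictlyLE 0 := by
    rw [CochainComplex.isStrictlyLE_iff]
    intro n hn
    exact isZero_two_X f (by omega) (by omega)
  exact CochainComplex.isKProjective_of_projective _ 0

end Ab

end Orl.Br
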