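import Pool.Agent.Work.MP_a6e60d_ag.Br.PhiU
import Pool.Agent.Work.MP_a6e60d_ag.Br.Two
import Pool.Agent.Work.MP_a6e60d_ag.Br.Rep

/-!
MP_a6e60d_ag, bridge: the two-term resolutions of an object `c` and of `Φ c`, and the comparison
of the morphisms of complexes.
-/

open CategoryTheory Limits HomologicalComplex CochainComplex HomComplex

attribute [-instance] CategoryTheory.catToReflQuiver

set_option linter.unusedSectionVars false

namespace Orl.Br

open Orl.Q

section

variable {k : Type} [Field k] {δ : Dat k}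
variable {A : Type 1} [Category.{0} A] [Abelian A] [Linear k A]
variable (F : TRep δ.tiling A)

theorem up_mid_le (v : Ch) (s : Vx) (hs : (upCh δ .mid).mem s) : (upCh δ v).mem s :=
  Ch.le_trans (Ch.le_mid v) hs

/-- the part over `mid` as a part of the part over `v` -/
noncomputable def TRep.rU (v : Ch) : F.phiU (upCh δ .mid) ⟶ F.phiU (upCh δ v) := F.inclUU (up_mid_le v)

/-- the differential of the resolution of `Φ c` -/
noncomputable def TRep.dU (c : A) : (F.phiU (upCh δ .mid)).obj c ⟶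
    (F.phiU (upCh δ .zero)).obj c ⊞ (F.phiU (upCh δ .inf)).obj c :=
  biprod.lift ((F.rU .zero).app c) (-(F.rU .inf).app c)

/-- the augmentation of the resolution of `Φ c` -/
noncomputable def TRep.πU (c : A) : (F.phiU (upCh δ .zero)).obj c ⊞
    (F.phiU (upCh δ .inf)).obj c ⟶ F.functor.obj c :=
  biprod.desc ((F.inclU (upCh δ .zero)).app c) ((F.inclU (upCh δ .inf)).app c)

theorem TRep.rU_inclU (v : Ch) (c : A) :
    (F.rU v).app c ≫ (F.inclU (upCh δ v)).app c = (F.inclU (upCh δ .mid)).app c := rfl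

theorem TRep.dU_πU (c : A) : F.dU c ≫ F.πU c = 0 := by
  rw [TRep.dU, TRep.πU, biprod.lift_desc, Preadditive.neg_comp, F.rU_inclU, F.rU_inclU,
    add_neg_cancel]

theorem biprod_ext_elem {R : Type} [Ring R] {M N : ModuleCat.{0} R} (x : (M ⊞ N : ModuleCat R)) :
    x = (biprod.inl : M ⟶ M ⊞ N) ((biprod.fst : M ⊞ N ⟶ M) x) +
      (biprod.inr : N ⟶ M ⊞ N) ((biprod.snd : M ⊞ N ⟶ N) x) :=
  (congrArg (fun f => f.hom x) (biprod.total (X := M) (Y := N))).symm

theorem biprod_ext {R : Type} [Ring R] {M N : ModuleCat.{0} R} {x y : (M ⊞ N : ModuleCat R)}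
    (h₁ : (biprod.fst : M ⊞ N ⟶ M) x = (biprod.fst : M ⊞ N ⟶ M) y)
    (h₂ : (biprod.snd : M ⊞ N ⟶ N) x = (biprod.snd : M ⊞ N ⟶ N) y) : x = y := by
  rw [biprod_ext_elem x, biprod_ext_elem y, h₁, h₂]

theorem TRep.πU_inl (c : A) (x : (F.phiU (upCh δ .zero)).obj c) :
    F.πU c ((biprod.inl : _ ⟶ (F.phiU (upCh δ .zero)).obj c ⊞
        (F.phiU (upCh δ .inf)).obj c) x) = (F.toSub x).1 :=
  congrArg (fun f => f.hom x) (biprod.inl_desc ((F.inclU (upCh δ .zero)).app c)
    ((F.inclU (upCh δ .inf)).app c))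

theorem TRep.πU_inr (c : A) (x : (F.phiU (upCh δ .inf)).obj c) :
    F.πU c ((biprod.inr : _ ⟶ (F.phiU (upCh δ .zero)).obj c ⊞
        (F.phiU (upCh δ .inf)).obj c) x) = (F.toSub x).1 :=
  congrArg (fun f => f.hom x) (biprod.inr_desc ((F.inclU (upCh δ .zero)).app c)
    ((F.inclU (upCh δ .inf)).app c))

theorem TRep.πU_apply (c : A) (x : ((F.phiU (upCh δ .zero)).obj c ⊞
    (F.phiU (upCh δ .inf)).obj c : ModuleCat δ.Alg)) : F.toEl (F.πU c x) =
      (F.toSub ((biprod.fst : (F.phiU (upCh δ .zero)).obj c ⊞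
        (F.phiU (upCh δ .inf)).obj c ⟶ _) x)).1 + (F.toSub ((biprod.snd :
        (F.phiU (upCh δ .zero)).obj c ⊞ (F.phiU (upCh δ .inf)).obj c ⟶ _) x)).1 := by
  conv_lhs => rw [biprod_ext_elem x]
  change (F.πU c).hom _ = _
  rw [map_add]
  exact congrArg₂ (· + ·) (F.πU_inl c _) (F.πU_inr c _)

theorem TRep.shortExactU (c : A) :
    (ShortComplex.mk (F.dU c) (F.πU c) (F.dU_πU c)).ShortExact := by
  classical
  have hm : Mono (F.dU c) := by
    have h : F.dU c ≫ biprod.fst = (F.rU .zero).app c := biprod.lift_fst _ _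
    have h2 : Mono ((F.rU .zero).app c) := by
      rw [ModuleCat.mono_iff_injective]
      intro x y hxy
      apply Subtype.ext
      have := congrArg (fun z => (F.toSub z).1) hxy
      exact this
    rw [← h] at h2
    exact mono_of_mono _ biprod.fst
  have he : Epi (F.πU c) := by
    rw [ModuleCat.epi_iff_surjective]
    intro y
    let x0 : (F.phiU (upCh δ .zero)).obj c :=
      (⟨fun s => if Ch.zero ≤ s.1 then F.toEl y s else 0, fun s hs => if_neg hs⟩ :
        F.subU (upCh δ .zero) c)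
    let x1 : (F.phiU (upCh δ .inf)).obj c :=
      (⟨fun s => if s.1 = Ch.inf then F.toEl y s else 0, fun s hs => if_neg fun h : s.1 = Ch.inf =>
        hs (show Ch.inf ≤ s.1 from h ▸ Ch.le_refl _)⟩ : F.subU (upCh δ .inf) c)
    refine ⟨(biprod.inl : _ ⟶ (F.phiU (upCh δ .zero)).obj c ⊞ (F.phiU (upCh δ .inf)).obj c) x0 +
      (biprod.inr : _ ⟶ (F.phiU (upCh δ .zero)).obj c ⊞ (F.phiU (upCh δ .inf)).obj c) x1, ?_⟩
    change (F.πU c).hom _ = y
    rw [map_add]
    refine (congrArg₂ (· + ·) (F.πU_inl c x0) (F.πU_inr c x1)).trans ?_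
    change (fun s => (if Ch.zero ≤ s.1 then F.toEl y s else 0) +
      (if s.1 = Ch.inf then F.toEl y s else 0)) = F.toEl y
    funext s
    obtain ⟨v, b⟩ := s
    cases v
    · simp [Ch.le_refl]
    · have : ¬ (Ch.zero ≤ Ch.inf) := by decide
      simp [this]
    · simp [Ch.le_mid]
  refine ⟨?_⟩
  rw [ShortComplex.moduleCat_exact_iff]
  intro x hx
  have hx : F.toEl (F.πU c x) = 0 := hx
  rw [F.πU_apply] at hx
  set x0 := (biprod.fst : (F.phiU (upCh δ .zero)).obj c ⊞ (F.phiU (upCh δ .inf)).obj c ⟶ _) x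
    with hx0
  set x1 := (biprod.snd : (F.phiU (upCh δ .zero)).obj c ⊞ (F.phiU (upCh δ .inf)).obj c ⟶ _) x
    with hx1
  have hs : ∀ s, (F.toSub x0).1 s + (F.toSub x1).1 s = 0 := fun s => congrFun hx s
  have hz : ∀ s, ¬ (upCh δ .mid).mem s → (F.toSub x0).1 s = 0 := by
    rintro ⟨v, b⟩ h
    cases v
    · have h1 := (F.toSub x1).2 (Ch.zero, b) (show ¬ (Ch.inf ≤ Ch.zero) by decide)
      have h2 := hs (Ch.zero, b)
      rwa [h1, add_zero] at h2
    · exact (F.toSub x0).2 (Ch.inf, b) (show ¬ (Ch.zero ≤ Ch.inf) by decide)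
    · exact absurd (Ch.le_refl _) h
  refine ⟨(⟨(F.toSub x0).1, hz⟩ : F.subU (upCh δ .mid) c), ?_⟩
  refine biprod_ext ?_ ?_
  · rw [← hx0]
    have h : F.dU c ≫ biprod.fst = (F.rU .zero).app c := biprod.lift_fst _ _
    exact congrArg (fun f => f.hom (⟨(F.toSub x0).1, hz⟩ : F.subU (upCh δ .mid) c)) h
  · rw [← hx1]
    have h : F.dU c ≫ biprod.snd = -(F.rU .inf).app c := biprod.lift_snd _ _
    refine (congrArg (fun f => f.hom (⟨(F.toSub x0).1, hz⟩ : F.subU (upCh δ .mid) c)) h).trans ?_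
    apply Subtype.ext
    funext s
    change -(F.toSub x0).1 s = (F.toSub x1).1 s
    rw [neg_eq_iff_add_eq_zero]
    exact hs s

variable {F} (M : MVData F)

/-- the map `Φ_v c ⟶ Φ (J v c)` -/
noncomputable def MVData.u (v : Ch) (c : A) :
    (F.phiU (upCh δ v)).obj c ⟶ F.functor.obj ((M.J v).obj c) := (M.fac v c).hom

theorem MVData.u_ι (v : Ch) (c : A) :
    M.u v c ≫ F.functor.map ((M.ι v).app c) = (F.inclU (upCh δ v)).app c := (M.fac v c).hom_ι

theorem MVData.u_apply_ι (v : Ch) (c : A) (x : (F.phiU (upCh δ v)).obj c) (s : Vx) :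
    F.toEl (M.u v c x) s ≫ (M.ι v).app c = (F.toSub x).1 s := (M.fac v c).lift_ι (F.toSub x) s

theorem MVData.u_eq_zero (v : Ch) (c : A) (x : (F.phiU (upCh δ v)).obj c) {s : Vx}
    (hs : ¬ (upCh δ v).mem s) : F.toEl (M.u v c x) s = 0 := (M.fac v c).lift_eq_zero _ hs

theorem MVData.rU_u (v : Ch) (c : A) :
    (F.rU v).app c ≫ M.u v c = M.u .mid c ≫ F.functor.map ((M.r v).app c) := by
  refine ModuleCat.hom_ext (LinearMap.ext fun x => (M.fac v c).ext (fun s hs => ?_) fun s => ?_)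
  · change F.toEl (M.u v c ((F.rU v).app c x)) s = F.toEl (M.u .mid c x) s ≫ (M.r v).app c
    rw [M.u_eq_zero _ _ _ hs, M.u_eq_zero _ _ _ fun h => hs (up_mid_le v s h), zero_comp]
  · change F.toEl (M.u v c ((F.rU v).app c x)) s ≫ (M.ι v).app c =
      (F.toEl (M.u .mid c x) s ≫ (M.r v).app c) ≫ (M.ι v).app c
    rw [Category.assoc, M.r_ι, M.u_apply_ι, M.u_apply_ι]
    rfl

/-- the differential of the resolution of `c` -/
noncomputable def MVData.d (c : A) : (M.J .mid).obj c ⟶ (M.J .zero).obj c ⊞ (M.J .inf).obj c :=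
  biprod.lift ((M.r .zero).app c) (-(M.r .inf).app c)

/-- the augmentation of the resolution of `c` -/
noncomputable def MVData.π (c : A) : (M.J .zero).obj c ⊞ (M.J .inf).obj c ⟶ c :=
  biprod.desc ((M.ι .zero).app c) ((M.ι .inf).app c)

theorem MVData.d_π (c : A) : M.d c ≫ M.π c = 0 := by
  rw [MVData.d, MVData.π, biprod.lift_desc, Preadditive.neg_comp, M.r_ι, M.r_ι, add_neg_cancel]

theorem MVData.shortExact (c : A) : (ShortComplex.mk (M.d c) (M.π c) (M.d_π c)).ShortExact :=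
  M.mv c

/-- the map in degree `0` -/
noncomputable def MVData.u₀ (c : A) : (F.phiU (upCh δ .zero)).obj c ⊞
    (F.phiU (upCh δ .inf)).obj c ⟶ F.functor.obj ((M.J .zero).obj c ⊞ (M.J .inf).obj c) :=
  biprod.desc (M.u .zero c ≫ F.functor.map biprod.inl) (M.u .inf c ≫ F.functor.map biprod.inr)

theorem MVData.d_u₀ (c : A) : F.dU c ≫ M.u₀ c = M.u .mid c ≫ F.functor.map (M.d c) := by
  rw [TRep.dU, MVData.u₀, biprod.lift_desc, MVData.d, biprod.lift_eq, F.functor.map_add,
    Preadditive.comp_add, F.functor.map_comp, F.functor.map_comp, F.functor.map_neg,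
    Preadditive.neg_comp, Preadditive.neg_comp, Preadditive.comp_neg, ← Category.assoc,
    ← Category.assoc, M.rU_u, M.rU_u, Category.assoc, Category.assoc]

theorem MVData.u₀_π (c : A) : M.u₀ c ≫ F.functor.map (M.π c) = F.πU c := by
  apply biprod.hom_ext'
  · rw [MVData.u₀, TRep.πU, biprod.inl_desc_assoc, biprod.inl_desc, Category.assoc,
      ← F.functor.map_comp, MVData.π, biprod.inl_desc, M.u_ι]
  · rw [MVData.u₀, TRep.πU, biprod.inr_desc_assoc, biprod.inr_desc, Category.assoc,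
      ← F.functor.map_comp, MVData.π, biprod.inr_desc, M.u_ι]

/-- the resolution of `Φ c` maps to `Φ` of the resolution of `c` -/
noncomputable def MVData.uCx (c : A) :
    two (F.dU c) ⟶ (F.functor.mapHomologicalComplex (ComplexShape.up ℤ)).obj (two (M.d c)) :=
  twoDesc (F.dU c) _ (M.u .mid c) (M.u₀ c) (M.d_u₀ c) (by
    have h : ((F.functor.mapHomologicalComplex (ComplexShape.up ℤ)).obj (two (M.d c))).d 0 1 =
        0 := by
      rw [Functor.mapHomologicalComplex_obj_d, two_d_eq_zero _ (show (0 : ℤ) ≠ -1 by decide)]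
      exact F.functor.map_zero _ _
    exact (congrArg _ h).trans comp_zero)

theorem MVData.uCx_single (c : A) : M.uCx c ≫ (F.functor.mapHomologicalComplex
    (ComplexShape.up ℤ)).map (twoSingle (M.d c) (M.π c) (M.d_π c)) =
    twoSingle (F.dU c) (F.πU c) (F.dU_πU c) ≫
      (singleMapHomologicalComplex F.functor (ComplexShape.up ℤ) 0).inv.app c := by
  apply two_hom_ext
  · refine IsZero.eq_of_tgt ?_ _ _
    exact F.functor.map_isZero (isZero_single_obj_X _ _ _ _ (by decide))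
  · have e1 : M.u₀ c ≫ F.functor.map (M.π c ≫ (singleObjXSelf (ComplexShape.up ℤ) 0 c).inv) =
        F.πU c ≫ F.functor.map (singleObjXSelf (ComplexShape.up ℤ) 0 c).inv := by
      rw [F.functor.map_comp, ← Category.assoc, M.u₀_π]
    have e2 : (F.πU c ≫ (singleObjXSelf (ComplexShape.up ℤ) 0 (F.functor.obj c)).inv) ≫
        ((singleObjXSelf (ComplexShape.up ℤ) 0 (F.functor.obj c)).hom ≫
          F.functor.map (singleObjXSelf (ComplexShape.up ℤ) 0 c).inv) =
        F.πU c ≫ F.functor.map (singleObjXSelf (ComplexShape.up ℤ) 0 c).inv := by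
      rw [Category.assoc, Iso.inv_hom_id_assoc]
    have e3 : ((singleMapHomologicalComplex F.functor (ComplexShape.up ℤ) 0).inv.app c).f 0 =
        (singleObjXSelf (ComplexShape.up ℤ) 0 (F.functor.obj c)).hom ≫
          F.functor.map (singleObjXSelf (ComplexShape.up ℤ) 0 c).inv :=
      singleMapHomologicalComplex_inv_app_self F.functor (ComplexShape.up ℤ) 0 c
    refine e1.trans (e2.symm.trans ?_)
    rw [← e3]
    rfl

theorem isRep_zero {C D : Type 1} [Category.{0} C] [Category.{0} D] [Preadditive C]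
    [Preadditive D] (G : C ⥤ D) {P : D} {V : C} (hP : IsZero P) (hV : IsZero V)
    (u : P ⟶ G.obj V) : IsRep G u := fun _ =>
  ⟨fun _ _ _ => hV.eq_of_src _ _, fun _ => ⟨0, hP.eq_of_src _ _⟩⟩

theorem isRep_biprod {C D : Type 1} [Category.{0} C] [Category.{0} D] [Abelian C]
    [Abelian D] (G : C ⥤ D) [G.Additive] {P₀ P₁ : D} {V₀ V₁ : C} {u₀ : P₀ ⟶ G.obj V₀}
    {u₁ : P₁ ⟶ G.obj V₁} (h₀ : IsRep G u₀) (h₁ : IsRep G u₁) :
    IsRep G (biprod.desc (u₀ ≫ G.map biprod.inl) (u₁ ≫ G.map biprod.inr) :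
      P₀ ⊞ P₁ ⟶ G.obj (V₀ ⊞ V₁)) := by
  intro M
  constructor
  · intro f g h
    have h : biprod.desc (u₀ ≫ G.map biprod.inl) (u₁ ≫ G.map biprod.inr) ≫ G.map f =
      biprod.desc (u₀ ≫ G.map biprod.inl) (u₁ ≫ G.map biprod.inr) ≫ G.map g := h
    apply biprod.hom_ext'
    · apply (h₀ M).injective
      have h' := congrArg (fun z => biprod.inl ≫ z) h
      simpa only [biprod.inl_desc_assoc, Category.assoc, ← G.map_comp] using h'
    · apply (h₁ M).injective
      have h' := congrArg (fun z => biprod.inr ≫ z) h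
      simpa only [biprod.inr_desc_assoc, Category.assoc, ← G.map_comp] using h'
  · intro y
    obtain ⟨f₀, hf₀⟩ := (h₀ M).surjective (biprod.inl ≫ y)
    obtain ⟨f₁, hf₁⟩ := (h₁ M).surjective (biprod.inr ≫ y)
    refine ⟨biprod.desc f₀ f₁, ?_⟩
    apply biprod.hom_ext'
    · simp only [biprod.inl_desc_assoc, Category.assoc, ← G.map_comp, biprod.inl_desc]
      exact hf₀
    · simp only [biprod.inr_desc_assoc, Category.assoc, ← G.map_comp, biprod.inr_desc]
      exact hf₁

theorem MVData.isRep_uCx (c : A) (hr : ∀ v, IsRep F.functor (M.u v c)) (n : ℤ) :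
    IsRep F.functor (P := (two (F.dU c)).X n) (V := (two (M.d c)).X n) ((M.uCx c).f n) := by
  by_cases h : n = -1
  · subst h
    exact hr .mid
  · by_cases h' : n = 0
    · subst h'
      exact isRep_biprod F.functor (hr .zero) (hr .inf)
    · exact isRep_zero _ (isZero_two_X _ h h') (isZero_two_X _ h h') _

/-- **The bridge**, abstract form. -/
theorem MVData.bridge (G : A) (hr : ∀ v, IsRep F.functor (M.u v G))
    (hp : ∀ v, Projective ((F.phiU (upCh δ v)).obj G)) {I I₁ I₂ : CochainComplex A ℤ}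
    (ε : (single A (ComplexShape.up ℤ) 0).obj G ⟶ I) [QuasiIso ε]
    (hac : QuasiIso ((F.functor.mapHomologicalComplex (ComplexShape.up ℤ)).map ε))
    (h₁ : DGCat.Thick (A := cxDG k A) I I₁) [I₂.IsKInjective]
    {J : CochainComplex (ModuleCat.{0} δ.Alg) ℤ} [J.IsKInjective]
    (q : (F.functor.mapHomologicalComplex _).obj I₂ ⟶ J) [QuasiIso q] :
    QIso (mixl (mapDG (k := k) F.functor) (a := I₂) (b := J) (Cochain.ofHom q) I₁) := by
  have := hp .mid
  have := hp .zero
  have := hp .inf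
  have : Projective ((F.phiU (upCh δ .zero)).obj G ⊞ (F.phiU (upCh δ .inf)).obj G) :=
    inferInstance
  have := isKProjective_two (F.dU G)
  have hs : QuasiIso (twoSingle (M.d G) (M.π G) (M.d_π G)) :=
    quasiIso_twoSingle _ _ _ (M.shortExact G)
  have hs' : QuasiIso (twoSingle (F.dU G) (F.πU G) (F.dU_πU G)) :=
    quasiIso_twoSingle _ _ _ (F.shortExactU G)
  refine mixl_qIso_of_thick (k := k) F.functor (M.uCx G) (M.isRep_uCx G hr)
    (twoSingle (M.d G) (M.π G) (M.d_π G) ≫ ε) ?_ h₁ q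
  rw [Functor.map_comp, ← Category.assoc, M.uCx_single]
  infer_instance

end

end Orl.Br
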