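import Pool.Agent.Work.MP_a6e60d_ag.Br.TRep
import Pool.Agent.Work.MP_a6e60d_ag.DG.EndMorita

/-!
# Functors applied to injective resolutions

If the additive functor `Φ` is exact on the augmented injective resolution `R` of `G` then
`Φ G → Φ R` is a quasi-isomorphism.
-/

open CategoryTheory Limits Abelian

attribute [-instance] CategoryTheory.catToReflQuiver

namespace Orl.Br

universe u v

section

variable {A : Type u} [Category.{0} A] [Abelian A] {B : Type v} [Category.{0} B] [Abelian B]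
  (Φ : A ⥤ B) [Φ.Additive] {G : A} (R : InjectiveResolution G)

lemma isZero_cochain {i : ℤ} (h : i < 0) : IsZero (R.cochainComplex.X i) :=
  CochainComplex.isZero_of_isStrictlyGE _ 0 _ (by omega)

/-- exactness of `Φ R` in positive degrees -/
lemma exactAt_of_exact (h : ∀ n : ℕ, (ShortComplex.mk (Φ.map (R.cocomplex.d n (n + 1)))
      (Φ.map (R.cocomplex.d (n + 1) (n + 2))) (by
        rw [← Φ.map_comp, HomologicalComplex.d_comp_d, Φ.map_zero])).Exact) {i : ℤ} (hi : i ≠ 0) :
    ((Φ.mapHomologicalComplex (ComplexShape.up ℤ)).obj R.cochainComplex).ExactAt i := by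
  by_cases h0 : i < 0
  · refine ShortComplex.exact_of_isZero_X₂ _ ?_
    exact Φ.map_isZero (isZero_cochain R h0)
  · obtain ⟨n, rfl⟩ : ∃ n : ℕ, i = n + 1 := ⟨(i - 1).toNat, by omega⟩
    rw [HomologicalComplex.exactAt_iff' _ (n : ℤ) (n + 1) (n + 2) (by simp) (by simp; omega)]
    refine (ShortComplex.exact_iff_of_iso ?_).1 (h n)
    refine ShortComplex.isoMk (Φ.mapIso (R.cochainComplexXIso n n rfl).symm)
      (Φ.mapIso (R.cochainComplexXIso (n + 1) (n + 1) rfl).symm)
      (Φ.mapIso (R.cochainComplexXIso (n + 2) (n + 2) rfl).symm) ?_ ?_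
    · change Φ.map _ ≫ Φ.map _ = Φ.map _ ≫ Φ.map _
      rw [← Φ.map_comp, ← Φ.map_comp, R.cochainComplex_d n (n + 1) n (n + 1) rfl rfl]
      simp
    · change Φ.map _ ≫ Φ.map _ = Φ.map _ ≫ Φ.map _
      rw [← Φ.map_comp, ← Φ.map_comp, R.cochainComplex_d (n + 1) (n + 2) (n + 1) (n + 2) rfl rfl]
      simp

/-- If `Φ` is exact on the augmented resolution then `Φ G → Φ R` is a quasi-isomorphism. -/
theorem quasiIso_map_ι' (h₀ : (ShortComplex.mk (Φ.map (R.ι.f 0)) (Φ.map (R.cocomplex.d 0 1)) (by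
      rw [← Φ.map_comp, R.ι_f_zero_comp_complex_d, Φ.map_zero])).Exact)
    [Mono (Φ.map (R.ι.f 0))]
    (h : ∀ n : ℕ, (ShortComplex.mk (Φ.map (R.cocomplex.d n (n + 1)))
      (Φ.map (R.cocomplex.d (n + 1) (n + 2))) (by
        rw [← Φ.map_comp, HomologicalComplex.d_comp_d, Φ.map_zero])).Exact) :
    QuasiIso ((Φ.mapHomologicalComplex (ComplexShape.up ℤ)).map R.ι') where
  quasiIsoAt i := by
    have hz : ∀ j : ℤ, j ≠ 0 → IsZero (((Φ.mapHomologicalComplex (ComplexShape.up ℤ)).obj
        ((CochainComplex.singleFunctor A 0).obj G)).X j) := fun j hj =>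
      Φ.map_isZero (HomologicalComplex.isZero_single_obj_X (ComplexShape.up ℤ) 0 G j hj)
    obtain ⟨j, hj⟩ : ∃ j : G ⟶ R.cocomplex.X 0, j = R.ι.f 0 := ⟨_, rfl⟩
    have e₁ : R.ι'.f 0 = (HomologicalComplex.singleObjXSelf (.up ℤ) 0 G).hom ≫ j ≫
        (R.cochainComplexXIso 0 0 rfl).inv := by
      rw [hj]
      exact R.ι'_f_zero
    have e₂ : Φ.map (HomologicalComplex.singleObjXSelf (.up ℤ) 0 G).inv ≫ Φ.map (R.ι'.f 0) =
        Φ.map j ≫ Φ.map (R.cochainComplexXIso 0 0 rfl).inv := by
      refine (congrArg (fun z => Φ.map (HomologicalComplex.singleObjXSelf (.up ℤ) 0 G).inv ≫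
        Φ.map z) e₁).trans ?_
      rw [← Φ.map_comp, ← Φ.map_comp, Iso.inv_hom_id_assoc]
    by_cases hi : i = 0
    · subst hi
      rw [quasiIsoAt_iff' _ (-1) 0 1 (by simp) (by simp)]
      refine (ShortComplex.quasiIso_iff_of_zeros _ ?_ ?_ ?_).2 ⟨?_, ?_⟩
      · exact (hz (-1) (by decide)).eq_of_src _ _
      · exact (hz 1 (by decide)).eq_of_tgt _ _
      · exact (Φ.map_isZero (isZero_cochain R (by decide : (-1 : ℤ) < 0))).eq_of_src _ _
      · refine (ShortComplex.exact_iff_of_iso ?_).1 h₀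
        refine ShortComplex.isoMk (Φ.mapIso (HomologicalComplex.singleObjXSelf _ 0 G).symm)
          (Φ.mapIso (R.cochainComplexXIso 0 0 rfl).symm)
          (Φ.mapIso (R.cochainComplexXIso 1 1 rfl).symm) ?_ ?_
        · refine e₂.trans ?_
          rw [hj]
          rfl
        · change Φ.map _ ≫ Φ.map _ = Φ.map _ ≫ Φ.map _
          rw [← Φ.map_comp, ← Φ.map_comp, R.cochainComplex_d 0 1 0 1 rfl rfl]
          simp
      · change Mono (Φ.map (R.ι'.f 0))
        have h₁ : Mono (Φ.map j) := by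
          rw [hj]
          exact ‹Mono (Φ.map (R.ι.f 0))›
        have h₂ : Mono (Φ.map (HomologicalComplex.singleObjXSelf (.up ℤ) 0 G).hom ≫ Φ.map j ≫
          Φ.map (R.cochainComplexXIso 0 0 rfl).inv) := inferInstance
        rw [← Φ.map_comp, ← Φ.map_comp] at h₂
        have h₃ : Mono (Φ.map ((HomologicalComplex.singleObjXSelf (.up ℤ) 0 G).hom ≫ j ≫
          (R.cochainComplexXIso 0 0 rfl).inv)) := h₂
        exact (congrArg (fun z => Mono (Φ.map z)) e₁).mpr h₃
    · rw [quasiIsoAt_iff_exactAt' _ _ (exactAt_of_exact Φ R h hi)]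
      exact ShortComplex.exact_of_isZero_X₂ _ (hz i hi)

end

/-! ### The functor of a representation of a tiled algebra -/

section

open Orl.Q

universe w

variable {k D V : Type} [Field k] [Ring D] [Algebra k D] [Fintype V] [DecidableEq V]
  {T : Tiling k D V} {A : Type u} [Category.{0} A] [Abelian A] [Linear k A] [HasExt.{w} A]
  (F : TRep T A) {G : A} (R : InjectiveResolution G)

variable (h : ∀ (s : V) (n : ℕ) (x : Ext (F.obj s) G (n + 1)), x = 0)

include h in
theorem TRep.exact_succ (n : ℕ) : (ShortComplex.mk (F.functor.map (R.cocomplex.d n (n + 1)))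
    (F.functor.map (R.cocomplex.d (n + 1) (n + 2))) (by
      rw [← F.functor.map_comp, HomologicalComplex.d_comp_d, F.functor.map_zero])).Exact := by
  rw [ShortComplex.moduleCat_exact_iff]
  intro x hx
  change F.El _ at x
  have hx' : ∀ s, x s ≫ R.cocomplex.d (n + 1) (n + 2) = 0 := fun s =>
    congrArg (fun z => F.toEl z s) hx
  choose y hy using fun s => (R.extMk_eq_zero_iff (x s) (n + 2) rfl (hx' s) n rfl).1
    (h s n _)
  exact ⟨(y : F.El _), funext hy⟩

include h in
/-- `Φ R` is exact in the degrees `≠ 0`. -/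
theorem TRep.exactAt {i : ℤ} (hi : i ≠ 0) :
    ((F.functor.mapHomologicalComplex (ComplexShape.up ℤ)).obj R.cochainComplex).ExactAt i :=
  exactAt_of_exact F.functor R (F.exact_succ R h) hi

include h in
/-- Exactness of `Φ R` in the degree `i`, in terms of elements. -/
theorem TRep.exists_of_closed {i j l : ℤ} (hij : i + 1 = j) (hjl : j + 1 = l) (hj : j ≠ 0)
    (y : F.El (R.cochainComplex.X j)) (hy : ∀ s, y s ≫ R.cochainComplex.d j l = 0) :
    ∃ z : F.El (R.cochainComplex.X i), ∀ s, z s ≫ R.cochainComplex.d i j = y s := by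
  have h1 := F.exactAt R h hj
  rw [HomologicalComplex.exactAt_iff' _ i j l (by simp; omega) (by simp; omega),
    ShortComplex.moduleCat_exact_iff] at h1
  obtain ⟨z, hz⟩ := h1 y (funext hy)
  exact ⟨z, fun s => congrArg (fun z => F.toEl z s) hz⟩

omit [HasExt.{w} A] in
/-- Exactness of `Φ R` in the degree `0`, in terms of elements. -/
theorem TRep.existsUnique_of_closed (y : F.El (R.cocomplex.X 0))
    (hy : ∀ s, y s ≫ R.cocomplex.d 0 1 = 0) :
    ∃! x : F.El G, ∀ s, x s ≫ R.ι.f 0 = y s := by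
  have hk : ∀ s, ∃ x : F.obj s ⟶ G, x ≫ R.ι.f 0 = y s := fun s =>
    ⟨_, (KernelFork.IsLimit.lift' R.isLimitKernelFork (y s) (hy s)).2⟩
  choose x hx using hk
  refine ⟨(x : F.El G), hx, fun x' hx' => ?_⟩
  refine TRep.El.ext' F fun s => ?_
  have h1 : x' s ≫ R.ι.f 0 = x s ≫ R.ι.f 0 := (hx' s).trans (hx s).symm
  exact (cancel_mono (R.ι.f 0)).1 h1

include h in
/-- `Φ G → Φ R` is a quasi-isomorphism if the positive `Ext` groups vanish. -/
theorem TRep.quasiIso_ι' :
    QuasiIso ((F.functor.mapHomologicalComplex (ComplexShape.up ℤ)).map R.ι') := by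
  have hm : Mono (F.functor.map (R.ι.f 0)) := by
    rw [ModuleCat.mono_iff_injective]
    intro x y hxy
    refine TRep.El.ext' F fun s => ?_
    have h1 : F.toEl x s ≫ R.ι.f 0 = F.toEl y s ≫ R.ι.f 0 := congrArg (fun z => F.toEl z s) hxy
    exact (cancel_mono (R.ι.f 0)).1 h1
  refine quasiIso_map_ι' F.functor R ?_ (F.exact_succ R h)
  rw [ShortComplex.moduleCat_exact_iff]
  intro x hx
  obtain ⟨y, hy, -⟩ := F.existsUnique_of_closed R x fun s => congrArg (fun z => F.toEl z s) hx
  exact ⟨y, funext hy⟩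

end

/-! ### K-injective complexes instead of injective resolutions -/

section

open CochainComplex DerivedCategory

variable {A : Type u} [Category.{0} A] [Abelian A] {B : Type v} [Category.{0} B] [Abelian B]
  (Φ : A ⥤ B) [Φ.Additive] {G : A}

/-- `Φ (s)` is a quasi-isomorphism for `s : K → I`, `I` K-injective, if it is one for one
`s : K → I`. -/
theorem quasiIso_map_of_kinj {K I I' : CochainComplex A ℤ} [I.IsKInjective] [I'.IsKInjective]
    (s : K ⟶ I) [QuasiIso s] (s' : K ⟶ I') [QuasiIso s']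
    (h : QuasiIso ((Φ.mapHomologicalComplex (ComplexShape.up ℤ)).map s)) :
    QuasiIso ((Φ.mapHomologicalComplex (ComplexShape.up ℤ)).map s') := by
  let _ := HasDerivedCategory.standard A
  obtain ⟨f, hf⟩ := exists_hom_of_kinj (K := I) (L := I') (inv (Q.map s) ≫ Q.map s')
  have hq : QuasiIso f := by
    rw [← isIso_Q_map_iff_quasiIso, hf]
    infer_instance
  have he := (IsKInjective.quasiIso_iff f).1 hq
  have hfΦ : QuasiIso ((Φ.mapHomologicalComplex (ComplexShape.up ℤ)).map f) := by
    obtain ⟨e, he'⟩ := he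
    rw [← he']
    exact (inferInstance : QuasiIso (Φ.mapHomotopyEquiv e).hom)
  have hh : (HomotopyCategory.quotient A (ComplexShape.up ℤ)).map (s ≫ f) =
      (HomotopyCategory.quotient A (ComplexShape.up ℤ)).map s' := by
    refine (IsKInjective.Qh_map_bijective _ I').injective ?_
    have h1 : Q.map (s ≫ f) = Q.map s' := by
      rw [Functor.map_comp, hf, IsIso.hom_inv_id_assoc]
    have h2 := (quotientCompQhIso A).hom.naturality (s ≫ f)
    have h3 := (quotientCompQhIso A).hom.naturality s'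
    rw [h1, ← h3] at h2
    exact (cancel_mono _).1 h2
  obtain ⟨H⟩ : Nonempty (Homotopy (s ≫ f) s') := ⟨HomotopyCategory.homotopyOfEq _ _ hh⟩
  have hc : QuasiIso ((Φ.mapHomologicalComplex (ComplexShape.up ℤ)).map (s ≫ f)) := by
    rw [Functor.map_comp]
    infer_instance
  refine ⟨fun i => ?_⟩
  rw [quasiIsoAt_iff_isIso_homologyMap, ← (Φ.mapHomotopy H).homologyMap_eq i,
    ← quasiIsoAt_iff_isIso_homologyMap]
  infer_instance

end

section

open Orl.Q

universe w

variable {k D V : Type} [Field k] [Ring D] [Algebra k D] [Fintype V] [DecidableEq V]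
  {T : Tiling k D V} {A : Type u} [Category.{0} A] [Abelian A] [Linear k A] [HasExt.{w} A]
  (F : TRep T A) {G : A}

/-- `Φ G → Φ I` is a quasi-isomorphism for every K-injective resolution `G → I` if the positive
`Ext` groups vanish. -/
theorem TRep.quasiIso_of_kinj [EnoughInjectives A]
    (h : ∀ (s : V) (n : ℕ) (x : Ext (F.obj s) G (n + 1)), x = 0) {I : CochainComplex A ℤ}
    [I.IsKInjective] (s : (CochainComplex.singleFunctor A 0).obj G ⟶ I) [QuasiIso s] :
    QuasiIso ((F.functor.mapHomologicalComplex (ComplexShape.up ℤ)).map s) :=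
  quasiIso_map_of_kinj F.functor (InjectiveResolution.of G).ι' s
    (F.quasiIso_ι' (InjectiveResolution.of G) h)

end

end Orl.Br
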