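import Pool.Agent.Work.MP_a6e60d_ag.Br.PhiU
import Pool.Agent.Work.MP_a6e60d_ag.Q.OApi
import Pool.Agent.Work.MP_a6e60d_ag.Q.Pair

/-!
MP_a6e60d_ag, bridge: objects which are trivial on the two charts of the projective line, relative
to a representation of the tiled algebra.
-/

open CategoryTheory Limits LaurentPolynomial

attribute [-instance] CategoryTheory.catToReflQuiver

set_option linter.unusedSectionVars false

namespace Orl.Br

open Orl.Q

universe u

variable {k : Type} [Field k] {δ : Dat k}

/-- the functions on the overlap are in the tiles -/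
theorem sc_mem_tile_mid (f : k[T;T⁻¹]) (v : Ch) (b : Bool) :
    (Fac.sc f : δ.D) ∈ δ.tiling.L (.mid, b) (v, b) := by
  have h : (Fac.sc f : δ.D) ∈ δ.slat .mid 0 := ⟨mem_lat_mid _, rfl, rfl, rfl⟩
  rw [Dat.tiling_L]
  cases b
  · rw [Dat.tile_ff (Ch.le_mid v)]
    exact h
  · rw [Dat.tile_tt (Ch.le_mid v)]
    exact Dat.slat_le h

theorem one_mem_tile_mid (v : Ch) (b : Bool) : (1 : δ.D) ∈ δ.tiling.L (.mid, b) (v, b) :=
  Dat.one_mem_tile (Ch.le_mid v) id

variable {A : Type u} [Category.{0} A] [Preadditive A] [Linear k A]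

/-- Trivialisations of the object `c` over the two charts: over the chart `zero` all maps from the
objects of the representation factor uniquely through `g0`, over the chart `inf` through `g1`;
over the overlap `g1` is `T ^ j` times `g0`. -/
structure CTriv (F : TRep δ.tiling A) (b : Bool) (j : ℤ) (c : A) where
  /-- the trivialisation over the chart `zero` -/
  g0 : F.obj (.zero, b) ⟶ c
  /-- the trivialisation over the chart `inf` -/
  g1 : F.obj (.inf, b) ⟶ c
  bij0 : ∀ s : Vx, Ch.zero ≤ s.1 → Function.Bijective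
    fun x : δ.tiling.L s (.zero, b) => F.map s (.zero, b) x ≫ g0
  bij1 : ∀ s : Vx, Ch.inf ≤ s.1 → Function.Bijective
    fun x : δ.tiling.L s (.inf, b) => F.map s (.inf, b) x ≫ g1
  glue : F.map (.mid, b) (.inf, b) ⟨1, one_mem_tile_mid .inf b⟩ ≫ g1 =
    F.map (.mid, b) (.zero, b) ⟨Fac.sc (T j), sc_mem_tile_mid (T j) .zero b⟩ ≫ g0

end Orl.Br
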