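import Pool.Agent.Work.MP_a6e60d_ag.Br.Fin
import Pool.Agent.Work.MP_a6e60d_ag.Br.Col
import Pool.Agent.Work.MP_a6e60d_ag.Q.TiledApi

/-!
MP_a6e60d_ag, bridge: trivialisations over the charts give projective resolutions.
-/

open CategoryTheory Limits

attribute [-instance] CategoryTheory.catToReflQuiver

set_option linter.unusedSectionVars false

namespace Orl.Br

open Orl.Q

universe w

section IsRep

variable {C D : Type 1} [Category.{0} C] [Category.{0} D] (G : C ⥤ D)

theorem _root_.Orl.IsRep.comp_iso {P : D} {V W : C} {u : P ⟶ G.obj V} (h : IsRep G u) (e : V ⟶ W) [IsIso e] :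
    IsRep G (u ≫ G.map e) := by
  intro M
  have h1 : Function.Bijective fun f : W ⟶ M => e ≫ f :=
    ⟨fun f g hfg => (cancel_epi e).1 hfg, fun y => ⟨inv e ≫ y, by simp⟩⟩
  have h2 := (h M).comp h1
  convert h2 using 1
  funext f
  simp

theorem _root_.Orl.IsRep.iso_comp {P P' : D} {V : C} {u : P ⟶ G.obj V} (h : IsRep G u) (e : P' ⟶ P)
    [IsIso e] : IsRep G (e ≫ u) := by
  intro M
  have h1 : Function.Bijective fun f : P ⟶ G.obj M => e ≫ f :=
    ⟨fun f g hfg => (cancel_epi e).1 hfg, fun y => ⟨inv e ≫ y, by simp⟩⟩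
  have h2 := h1.comp (h M)
  convert h2 using 1
  funext f
  simp

end IsRep

section Gen

variable {k D V : Type} [Field k] [Ring D] [Algebra k D] [Fintype V] [DecidableEq V]
variable {T : Tiling k D V} {A : Type 1} [Category.{0} A] [Preadditive A] [Linear k A]
  (F : TRep T A)

/-- a morphism from the object of a vertex gives a map from the projective module of the vertex to
the part of `Φ c` over an upper set which contains all arrows to the vertex -/
def TRep.ofHomU (U : UpSet T) {t : V} {c : A} (g : F.obj t ⟶ c)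
    (h0 : ∀ s, ¬ U.mem s → ∀ x ∈ T.L s t, x = 0) :
    (proj T t).mod ⟶ (F.phiU U).obj c :=
  ModuleCat.ofHom ((F.ofHom t g).codRestrict (F.subU U c) fun x s hs => by
    have h : (x s : T.L s t) = (0 : T.L s t) := Subtype.ext (h0 s hs _ (x s).2)
    refine (congrArg (fun y : T.L s t => F.map s t y ≫ g) h).trans ?_
    rw [map_zero, zero_comp])

theorem TRep.ofHomU_apply (U : UpSet T) {t : V} {c : A} (g : F.obj t ⟶ c)
    (h0 : ∀ s, ¬ U.mem s → ∀ x ∈ T.L s t, x = 0) (x : (proj T t).mod) (s : V) :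
    (F.toSub (F.ofHomU U g h0 x)).1 s = F.map s t ((x : (proj T t).El) s) ≫ g := rfl

theorem TRep.isIso_ofHomU (U : UpSet T) {t : V} {c : A} (g : F.obj t ⟶ c)
    (h0 : ∀ s, ¬ U.mem s → ∀ x ∈ T.L s t, x = 0)
    (h1 : ∀ s, U.mem s → Function.Bijective fun x : T.L s t => F.map s t x ≫ g) :
    IsIso (F.ofHomU U g h0) := by
  classical
  rw [ConcreteCategory.isIso_iff_bijective]
  constructor
  · intro x y hxy
    apply Lattice.El.ext'
    intro s
    by_cases hs : U.mem s
    · have h : (F.toSub (F.ofHomU U g h0 x)).1 s = (F.toSub (F.ofHomU U g h0 y)).1 s :=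
        congrArg (fun z => (F.toSub z).1 s) hxy
      rw [F.ofHomU_apply, F.ofHomU_apply] at h
      exact congrArg Subtype.val ((h1 s hs).injective h)
    · rw [h0 s hs _ ((x : (proj T t).El) s).2, h0 s hs _ ((y : (proj T t).El) s).2]
  · intro y
    let x : (proj T t).El := fun s =>
      if hs : U.mem s then ((h1 s hs).surjective ((F.toSub y).1 s)).choose else 0
    refine ⟨x, F.sub_ext fun s hs => ?_⟩
    change F.map s t (x s) ≫ g = _
    have hx : x s = ((h1 s hs).surjective ((F.toSub y).1 s)).choose := dif_pos hs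
    rw [hx]
    exact ((h1 s hs).surjective ((F.toSub y).1 s)).choose_spec

variable {F}

theorem TRep.Fac.isRep {U : UpSet T} {t : V} {W c : A} {ι : W ⟶ c}
    (h : F.Fac U ι) (g : F.obj t ⟶ c) (h0 : ∀ s, ¬ U.mem s → ∀ x ∈ T.L s t, x = 0)
    (h1 : ∀ s, U.mem s → Function.Bijective fun x : T.L s t => F.map s t x ≫ g)
    (e : F.obj t ⟶ W) [IsIso e] (he : e ≫ ι = g) : IsRep F.functor h.hom := by
  have := F.isIso_ofHomU U g h0 h1
  have h2 : IsRep F.functor (F.univ t) := fun M => F.univ_bijective t M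
  have h3 := (h2.comp_iso F.functor e).iso_comp F.functor (inv (F.ofHomU U g h0))
  have h4 : inv (F.ofHomU U g h0) ≫ F.univ t ≫ F.functor.map e = h.hom := by
    rw [IsIso.inv_comp_eq]
    refine ModuleCat.hom_ext (LinearMap.ext fun x => h.ext (fun s hs => ?_) fun s => ?_)
    · change (F.map s t ((x : (proj T t).El) s) ≫ 𝟙 _) ≫ e = h.lift _ s
      rw [h.lift_eq_zero _ hs]
      have h5 : ((x : (proj T t).El) s : T.L s t) = (0 : T.L s t) :=
        Subtype.ext (h0 s hs _ ((x : (proj T t).El) s).2)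
      refine (congrArg (fun y : T.L s t => (F.map s t y ≫ 𝟙 _) ≫ e) h5).trans ?_
      rw [map_zero, zero_comp, zero_comp]
    · change ((F.map s t ((x : (proj T t).El) s) ≫ 𝟙 _) ≫ e) ≫ ι = h.lift _ s ≫ ι
      rw [h.lift_ι, Category.comp_id, Category.assoc, he]
      rfl
  rw [← h4]
  exact h3

end Gen

section Triv

variable {k : Type} [Field k] {δ : Dat k}
variable {A : Type 1} [Category.{0} A] [Abelian A] [Linear k A]
variable {F : TRep δ.tiling A} {b : Bool} {j : ℤ} {c : A} (t : CTriv F b j c)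

/-- The arrows to a vertex over the chart `v` start over the open subsets of `v`. -/
theorem tiling_eq_zero {v : Ch} (b : Bool) {s : Vx} (hs : ¬ (upCh δ v).mem s)
    (x : δ.D) (hx : x ∈ δ.tiling.L s (v, b)) : x = 0 := by
  obtain ⟨w, b'⟩ := s
  rw [Dat.tiling_L, Dat.tile_not hs] at hx
  exact (Submodule.mem_bot k).1 hx

/-- the trivialisation over an open set -/
noncomputable def CTriv.g : ∀ v : Ch, F.obj (v, b) ⟶ c
  | .zero => t.g0
  | .inf => t.g1
  | .mid => F.map (.mid, b) (.zero, b) ⟨1, one_mem_tile_mid .zero b⟩ ≫ t.g0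

theorem tile_mid_eq (b' b : Bool) (v : Ch) :
    δ.tiling.L (.mid, b') (.mid, b) = δ.tiling.L (.mid, b') (v, b) := by
  rw [Dat.tiling_L, Dat.tiling_L]
  cases b'
  · cases b
    · rw [Dat.tile_ff (Ch.le_mid _), Dat.tile_ff (Ch.le_mid _)]
    · rw [Dat.tile_ft (Ch.le_mid _), Dat.tile_ft (Ch.le_mid _)]
  · cases b
    · rw [Dat.tile_tf, Dat.tile_tf]
    · rw [Dat.tile_tt (Ch.le_mid _), Dat.tile_tt (Ch.le_mid _)]

theorem CTriv.bij : ∀ (v : Ch) (s : Vx), (upCh δ v).mem s → Function.Bijective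
    fun x : δ.tiling.L s (v, b) => F.map s (v, b) x ≫ t.g v
  | .zero, s, hs => t.bij0 s hs
  | .inf, s, hs => t.bij1 s hs
  | .mid, s, hs => by
    have hs : Ch.mid ≤ s.1 := hs
    obtain ⟨w, b'⟩ := s
    obtain rfl : w = .mid := by
      cases w
      · exact absurd hs Ch.not_mid_le_zero
      · exact absurd hs Ch.not_mid_le_inf
      · rfl
    have h1 := t.bij0 (.mid, b') (Ch.le_mid _)
    have h2 : Function.Bijective fun x : δ.tiling.L (.mid, b') (.mid, b) =>
        (⟨x.1, (tile_mid_eq (δ := δ) b' b .zero).le x.2⟩ : δ.tiling.L (.mid, b') (.zero, b)) :=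
      ⟨fun x y hxy => Subtype.ext (Subtype.mk.inj hxy),
        fun y => ⟨⟨y.1, (tile_mid_eq (δ := δ) b' b .zero).ge y.2⟩, rfl⟩⟩
    convert h1.comp h2 using 1
    funext x
    change F.map _ _ x ≫ F.map (.mid, b) (.zero, b) ⟨1, one_mem_tile_mid .zero b⟩ ≫ t.g0 =
      F.map _ _ _ ≫ t.g0
    rw [← Category.assoc, ← F.map_mul]
    congr 3
    exact mul_one _

/-- **The part over `v` of `Φ c` is the projective module of the vertex `(v, b)`.** -/
noncomputable def CTriv.isoU (v : Ch) :
    (proj δ.tiling (v, b)).mod ≅ (F.phiU (upCh δ v)).obj c :=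
  have := F.isIso_ofHomU (upCh δ v) (t.g v) (fun _ hs x hx => tiling_eq_zero b hs x hx) (t.bij v)
  asIso (F.ofHomU (upCh δ v) (t.g v) fun _ hs x hx => tiling_eq_zero b hs x hx)

include t in
theorem CTriv.projective (v : Ch) : Projective ((F.phiU (upCh δ v)).obj c) := by
  have : Projective (proj δ.tiling (v, b)).mod :=
    inferInstanceAs (Projective (δ.tiling.col (v, b)).mod)
  exact Projective.of_iso (t.isoU v) this

theorem CTriv.isRep (M : MVData F) (v : Ch) (e : F.obj (v, b) ⟶ (M.J v).obj c) [IsIso e]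
    (he : e ≫ (M.ι v).app c = t.g v) : IsRep F.functor (M.u v c) :=
  (M.fac v c).isRep (t.g v) (fun _ hs x hx => tiling_eq_zero b hs x hx) (t.bij v) e he

include t in
/-- **An object which is trivial over the two charts and acyclic is a piece.** -/
theorem CTriv.isPiece [HasExt.{w} A] (M : MVData F)
    (e : ∀ v, ∃ e : F.obj (v, b) ⟶ (M.J v).obj c, IsIso e ∧ e ≫ (M.ι v).app c = t.g v)
    (hext : ∀ (s : Vx) (n : ℕ) (x : Abelian.Ext.{w} (F.obj s) c (n + 1)), x = 0) :
    IsPiece.{w} M c where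
  rep v := by
    obtain ⟨e, _, he⟩ := e v
    exact t.isRep M v e he
  proj := t.projective
  ext := hext

end Triv

end Orl.Br
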