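import Pool.Agent.Work.MP_a6e60d_ag.Br.Col

/-!
MP_a6e60d_ag, bridge: the module of an object which is trivial on the two charts of the projective
line is a tiled module.
-/

open CategoryTheory Limits LaurentPolynomial

attribute [-instance] CategoryTheory.catToReflQuiver

set_option linter.unusedSectionVars false

namespace Orl.Br

open Orl.Q

universe u

/-! ### Modules given by a family of bijections -/

section Gen

variable {k D V : Type} [Field k] [Ring D] [Algebra k D] [Fintype V] [DecidableEq V]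
variable {T : Tiling k D V} {A : Type u} [Category.{0} A] [Preadditive A] [Linear k A]
  (F : TRep T A) {c : A}
variable {N : Type} [AddCommGroup N] [Module k N] [Module D N] [IsScalarTower k D N]
  (M : Lattice T N)

theorem TRep.map_eq_comp {s t u : V} (x : T.L s t) (y : T.L t u) (z : T.L s u)
    (hz : z.1 = x.1 * y.1) : F.map s u z = F.map s t x ≫ F.map t u y := by
  rw [← F.map_mul x y]
  exact congrArg (F.map s u) (Subtype.ext hz)

/-- the map from a tiled module to the module of an object given by compatible maps -/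
def TRep.famLin (θ : ∀ s, M.M s →ₗ[k] (F.obj s ⟶ c))
    (hθ : ∀ s t (x : T.L s t) (m : M.M t),
      θ s ⟨x.1 • m.1, M.smul_mem x.2 m.2⟩ = F.map s t x ≫ θ t m) :
    M.El →ₗ[T.Alg] F.El c where
  toFun x s := θ s (x s)
  map_add' x y := by
    ext s
    rw [TRep.add_apply, ← map_add]
    rfl
  map_smul' B x := by
    ext s
    rw [RingHom.id_apply, TRep.smul_apply]
    have h1 : ∀ t, F.ent B s t ≫ θ t (x t) =
        θ s ⟨B.1 s t • (x t).1, M.smul_mem (B.2 s t) (x t).2⟩ := fun t =>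
      (hθ s t ⟨B.1 s t, B.2 s t⟩ (x t)).symm
    rw [Finset.sum_congr rfl fun t _ => h1 t, ← map_sum]
    congr 1
    apply Subtype.ext
    rw [AddSubmonoidClass.coe_finsetSum]
    rfl

@[simp] theorem TRep.famLin_apply (θ : ∀ s, M.M s →ₗ[k] (F.obj s ⟶ c)) (hθ) (x : M.El) (s : V) :
    F.famLin M θ hθ x s = θ s (x s) := rfl

/-- the isomorphism from a tiled module to the module of an object given by compatible
bijections -/
noncomputable def TRep.famIso (θ : ∀ s, M.M s →ₗ[k] (F.obj s ⟶ c))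
    (hθ : ∀ s t (x : T.L s t) (m : M.M t),
      θ s ⟨x.1 • m.1, M.smul_mem x.2 m.2⟩ = F.map s t x ≫ θ t m)
    (hb : ∀ s, Function.Bijective (θ s)) : M.mod ≅ F.functor.obj c :=
  (LinearEquiv.ofBijective (F.famLin M θ hθ)
    ⟨fun x y h => funext fun s => (hb s).1 (congrFun h s),
      fun y => ⟨fun s => ((hb s).2 (y s)).choose,
        funext fun s => ((hb s).2 (y s)).choose_spec⟩⟩).toModuleIso

theorem TRep.famIso_hom_apply (θ : ∀ s, M.M s →ₗ[k] (F.obj s ⟶ c)) (hθ) (hb) (x : M.mod) (s : V) :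
    F.toEl ((F.famIso M θ hθ hb).hom x) s = θ s ((x : M.El) s) := rfl

end Gen

/-! ### The tiles and the lattices -/

variable {k : Type} [Field k] {δ : Dat k}

/-- the lattice of `O(j)` or `E(j)` -/
noncomputable def latB (δ : Dat k) (b : Bool) (j : ℤ) : Lattice δ.tiling δ.D :=
  match b with
  | false => δ.latO j
  | true => δ.latE j

theorem Ch.zero_le_cases {v : Ch} (h : Ch.zero ≤ v) : v = .zero ∨ v = .mid := by
  rcases h with h | h
  · exact Or.inl h.symm
  · exact Or.inr h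

theorem Ch.inf_le_cases {v : Ch} (h : Ch.inf ≤ v) : v = .inf ∨ v = .mid := by
  rcases h with h | h
  · exact Or.inl h.symm
  · exact Or.inr h

theorem Ch.zero_or_inf (v : Ch) : Ch.zero ≤ v ∨ Ch.inf ≤ v := by
  cases v
  · exact Or.inl (Ch.le_refl _)
  · exact Or.inr (Ch.le_refl _)
  · exact Or.inl (Ch.le_mid _)

/-- over the chart `zero` the components are the tiles -/
theorem mem_latB_zero {b : Bool} {j : ℤ} {s : Vx} (h : Ch.zero ≤ s.1) {x : δ.D} :
    x ∈ (latB δ b j).M s ↔ x ∈ δ.tiling.L s (.zero, b) := by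
  obtain ⟨v, b'⟩ := s
  rw [Dat.tiling_L]
  cases b
  · cases b'
    · rw [Dat.tile_ff h]
      rcases Ch.zero_le_cases h with h | h <;> cases h <;> exact Iff.rfl
    · rw [Dat.tile_tf]
      exact Iff.rfl
  · cases b'
    · rw [Dat.tile_ft h]
      rcases Ch.zero_le_cases h with h | h <;> cases h <;> exact Iff.rfl
    · rw [Dat.tile_tt h]
      rcases Ch.zero_le_cases h with h | h <;> cases h <;> exact Iff.rfl

theorem mul_T_mem_lat {v : Ch} (h : Ch.inf ≤ v) {j n m : ℤ} (e : n = m + j) {x : k[T;T⁻¹]} :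
    x ∈ lat k v n ↔ x * T (-j) ∈ lat k v m := by
  rcases Ch.inf_le_cases h with h | h
  · cases h
    rw [mul_comm]
    exact (gen_mul_mem (κ := k) (v := .inf) (n := -j) (m := n) (p := m) (by lia)).symm
  · cases h
    exact ⟨fun _ => mem_lat_mid _, fun _ => mem_lat_mid _⟩

theorem mul_sc (x : δ.D) (f : k[T;T⁻¹]) :
    x * Fac.sc f = (⟨x.re * f, x.imI * f, x.imJ * f, x.imK * f⟩ : δ.D) := by
  ext <;> simp [Fac.sc]

theorem sc_mul_sc (f g : k[T;T⁻¹]) : (Fac.sc f : δ.D) * Fac.sc g = Fac.sc (f * g) := by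
  rw [mul_sc]
  simp [Fac.sc]

theorem sc_one : (Fac.sc 1 : δ.D) = 1 := by
  ext <;> simp [Fac.sc]

theorem T_mul_T_neg (j : ℤ) : (Fac.sc (T j) : δ.D) * Fac.sc (T (-j)) = 1 := by
  rw [sc_mul_sc, ← T_add, add_neg_cancel, T_zero, sc_one]

theorem T_neg_mul_T (j : ℤ) : (Fac.sc (T (-j)) : δ.D) * Fac.sc (T j) = 1 := by
  rw [sc_mul_sc, ← T_add, neg_add_cancel, T_zero, sc_one]

/-- over the chart `inf` the components are the tiles times `T ^ j` -/
theorem mem_latB_inf {b : Bool} {j : ℤ} {s : Vx} (h : Ch.inf ≤ s.1) {x : δ.D} :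
    x ∈ (latB δ b j).M s ↔ x * Fac.sc (T (-j)) ∈ δ.tiling.L s (.inf, b) := by
  obtain ⟨v, b'⟩ := s
  have hT : (T (-j) : k[T;T⁻¹]) * T j = 1 := by rw [← T_add, neg_add_cancel, T_zero]
  have hz : ∀ y : k[T;T⁻¹], y * T (-j) = 0 ↔ y = 0 := fun y => by
    constructor
    · intro hy
      have := congrArg (· * T j) hy
      simpa [mul_assoc, hT] using this
    · rintro rfl
      exact zero_mul _
  have hs : x ∈ δ.slat v j ↔ x * Fac.sc (T (-j)) ∈ δ.slat v 0 := by
    rw [mul_sc, Dat.mem_slat, Dat.mem_slat]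
    exact and_congr (mul_T_mem_lat h (by lia))
      (and_congr (hz _).symm (and_congr (hz _).symm (hz _).symm))
  have hc : x ∈ δ.clat v j ↔ x * Fac.sc (T (-j)) ∈ δ.clat v 0 := by
    rw [mul_sc, Dat.mem_clat, Dat.mem_clat]
    exact and_congr (mul_T_mem_lat h (by lia)) (and_congr (mul_T_mem_lat h (by lia))
      (and_congr (mul_T_mem_lat h (by lia)) (mul_T_mem_lat h (by lia))))
  rw [Dat.tiling_L]
  cases b
  · cases b'
    · rw [Dat.tile_ff h]
      exact hs
    · rw [Dat.tile_tf]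
      change x ∈ (⊥ : Submodule k δ.D) ↔ _
      rw [Submodule.mem_bot, Submodule.mem_bot, mul_sc]
      constructor
      · rintro rfl
        ext <;> simp
      · intro h0
        have h1 := congrArg QuaternionAlgebra.re h0
        have h2 := congrArg QuaternionAlgebra.imI h0
        have h3 := congrArg QuaternionAlgebra.imJ h0
        have h4 := congrArg QuaternionAlgebra.imK h0
        exact QuaternionAlgebra.ext ((hz _).1 h1) ((hz _).1 h2) ((hz _).1 h3) ((hz _).1 h4)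
  · cases b'
    · rw [Dat.tile_ft h]
      exact hc
    · rw [Dat.tile_tt h]
      exact hc

/-! ### The module of a trivialised object -/

variable {A : Type u} [Category.{0} A] [Preadditive A] [Linear k A] {F : TRep δ.tiling A}
  {b : Bool} {j : ℤ} {c : A}

namespace CTriv

variable (h : CTriv F b j c)

/-- the map over the chart `zero` -/
noncomputable def θ0 (s : Vx) (hs : Ch.zero ≤ s.1) : (latB δ b j).M s →ₗ[k] (F.obj s ⟶ c) where
  toFun x := F.map s (.zero, b) ⟨x.1, (mem_latB_zero hs).1 x.2⟩ ≫ h.g0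
  map_add' x y := by
    rw [← Preadditive.add_comp, ← map_add]
    rfl
  map_smul' r x := by
    rw [RingHom.id_apply, ← Linear.smul_comp, ← map_smul]
    rfl

/-- the map over the chart `inf` -/
noncomputable def θ1 (s : Vx) (hs : Ch.inf ≤ s.1) : (latB δ b j).M s →ₗ[k] (F.obj s ⟶ c) where
  toFun x := F.map s (.inf, b) ⟨x.1 * Fac.sc (T (-j)), (mem_latB_inf hs).1 x.2⟩ ≫ h.g1
  map_add' x y := by
    rw [← Preadditive.add_comp, ← map_add]
    congr 2
    exact Subtype.ext (add_mul _ _ _)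
  map_smul' r x := by
    rw [RingHom.id_apply, ← Linear.smul_comp, ← map_smul]
    congr 2
    exact Subtype.ext (smul_mul_assoc _ _ _)

theorem θ0_apply (s : Vx) (hs : Ch.zero ≤ s.1) (x : (latB δ b j).M s) :
    h.θ0 s hs x = F.map s (.zero, b) ⟨x.1, (mem_latB_zero hs).1 x.2⟩ ≫ h.g0 := rfl

theorem θ1_apply (s : Vx) (hs : Ch.inf ≤ s.1) (x : (latB δ b j).M s) :
    h.θ1 s hs x = F.map s (.inf, b) ⟨x.1 * Fac.sc (T (-j)), (mem_latB_inf hs).1 x.2⟩ ≫ h.g1 :=
  rfl

theorem mem_mid {b b' : Bool} {v w : Ch} {x : δ.D} (hx : x ∈ δ.tiling.L (.mid, b') (v, b)) :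
    x ∈ δ.tiling.L (.mid, b') (w, b) := by
  rw [Dat.tiling_L] at hx ⊢
  cases b <;> cases b'
  · rwa [Dat.tile_ff (Ch.le_mid _)] at hx ⊢
  · rwa [Dat.tile_tf] at hx ⊢
  · rwa [Dat.tile_ft (Ch.le_mid _)] at hx ⊢
  · rwa [Dat.tile_tt (Ch.le_mid _)] at hx ⊢

/-- the two maps agree over the overlap -/
theorem θ1_eq_θ0 (b' : Bool) (x : (latB δ b j).M (.mid, b')) :
    h.θ1 (.mid, b') (Ch.le_mid _) x = h.θ0 (.mid, b') (Ch.le_mid _) x := by
  have h0 : (x.1 * Fac.sc (T (-j)) : δ.D) ∈ δ.tiling.L (.mid, b') (.inf, b) :=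
    (mem_latB_inf (δ := δ) (Ch.le_mid _)).1 x.2
  have h1 : (x.1 * Fac.sc (T (-j)) : δ.D) ∈ δ.tiling.L (.mid, b') (.mid, b) := mem_mid h0
  rw [h.θ1_apply, h.θ0_apply,
    F.map_eq_comp ⟨_, h1⟩ ⟨1, one_mem_tile_mid .inf b⟩ ⟨_, h0⟩ (mul_one _).symm,
    F.map_eq_comp ⟨_, h1⟩ ⟨Fac.sc (T j), sc_mem_tile_mid (T j) .zero b⟩ ⟨x.1, _⟩
      (by rw [mul_assoc, T_neg_mul_T, mul_one]),
    Category.assoc, Category.assoc, h.glue]

/-- the components of the isomorphism -/
noncomputable def θ (s : Vx) : (latB δ b j).M s →ₗ[k] (F.obj s ⟶ c) :=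
  if hs : Ch.zero ≤ s.1 then h.θ0 s hs else
    h.θ1 s ((Ch.zero_or_inf s.1).resolve_left hs)

theorem θ_zero {s : Vx} (hs : Ch.zero ≤ s.1) : h.θ s = h.θ0 s hs := dif_pos hs

theorem θ_inf {s : Vx} (hs : Ch.inf ≤ s.1) : h.θ s = h.θ1 s hs := by
  by_cases h0 : Ch.zero ≤ s.1
  · rw [h.θ_zero h0]
    obtain ⟨v, b'⟩ := s
    have hv : v = .mid := by
      rcases Ch.zero_le_cases h0 with h | h
      · exact absurd (h ▸ hs : Ch.inf ≤ Ch.zero) (by decide)
      · exact h
    subst hv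
    exact LinearMap.ext fun x => (h.θ1_eq_θ0 b' x).symm
  · exact dif_neg h0

theorem θ_smul (s t : Vx) (x : δ.tiling.L s t) (m : (latB δ b j).M t) :
    h.θ s ⟨x.1 • m.1, (latB δ b j).smul_mem x.2 m.2⟩ = F.map s t x ≫ h.θ t m := by
  by_cases hst : t.1 ≤ s.1
  · rcases Ch.zero_or_inf t.1 with ht | ht
    · rw [h.θ_zero ht, h.θ_zero (Ch.le_trans ht hst), h.θ0_apply, h.θ0_apply,
        F.map_eq_comp x ⟨m.1, (mem_latB_zero ht).1 m.2⟩ ⟨x.1 • m.1, _⟩ rfl, Category.assoc]
    · rw [h.θ_inf ht, h.θ_inf (Ch.le_trans ht hst), h.θ1_apply, h.θ1_apply,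
        F.map_eq_comp x ⟨m.1 * Fac.sc (T (-j)), (mem_latB_inf ht).1 m.2⟩
          ⟨x.1 • m.1 * Fac.sc (T (-j)), _⟩ (mul_assoc _ _ _), Category.assoc]
  · have hx : x = 0 := Subtype.ext (Dat.tile_eq_zero x.2 hst)
    subst hx
    rw [map_zero, zero_comp]
    have h0 : (⟨(0 : δ.tiling.L s t).1 • m.1, (latB δ b j).smul_mem (0 : δ.tiling.L s t).2 m.2⟩ :
        (latB δ b j).M s) = 0 := Subtype.ext (zero_smul _ _)
    rw [h0, map_zero]

theorem θ_bijective (s : Vx) : Function.Bijective (h.θ s) := by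
  rcases Ch.zero_or_inf s.1 with hs | hs
  · rw [h.θ_zero hs]
    refine ⟨fun x y hxy => ?_, fun f => ?_⟩
    · have h1 : (⟨x.1, (mem_latB_zero hs).1 x.2⟩ : δ.tiling.L s (.zero, b)) =
        ⟨y.1, (mem_latB_zero hs).1 y.2⟩ := (h.bij0 s hs).1 hxy
      exact Subtype.ext (congrArg (fun z : δ.tiling.L s (.zero, b) => z.1) h1)
    · obtain ⟨x, hx⟩ := (h.bij0 s hs).2 f
      exact ⟨⟨x.1, (mem_latB_zero hs).2 x.2⟩, hx⟩
  · rw [h.θ_inf hs]
    refine ⟨fun x y hxy => ?_, fun f => ?_⟩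
    · have h1 : (⟨x.1 * Fac.sc (T (-j)), (mem_latB_inf hs).1 x.2⟩ : δ.tiling.L s (.inf, b)) =
        ⟨y.1 * Fac.sc (T (-j)), (mem_latB_inf hs).1 y.2⟩ := (h.bij1 s hs).1 hxy
      have h2 := congrArg (fun z : δ.tiling.L s (.inf, b) => z.1 * Fac.sc (T j)) h1
      simp only [mul_assoc, T_neg_mul_T, mul_one] at h2
      exact Subtype.ext h2
    · obtain ⟨x, hx⟩ := (h.bij1 s hs).2 f
      have hm : x.1 * Fac.sc (T j) * Fac.sc (T (-j)) = x.1 := by
        rw [mul_assoc, T_mul_T_neg, mul_one]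
      refine ⟨⟨x.1 * Fac.sc (T j), (mem_latB_inf hs).2 (by rw [hm]; exact x.2)⟩, ?_⟩
      rw [h.θ1_apply, ← hx]
      have h3 : (⟨x.1 * Fac.sc (T j) * Fac.sc (T (-j)), by rw [hm]; exact x.2⟩ :
          δ.tiling.L s (.inf, b)) = x := Subtype.ext hm
      rw [h3]

/-- The module of a trivialised object. -/
noncomputable def iso : (latB δ b j).mod ≅ F.functor.obj c :=
  F.famIso (latB δ b j) h.θ h.θ_smul h.θ_bijective

end CTriv

/-- The module of an object of type `O(j)`. -/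
noncomputable def CTriv.isoO (h : CTriv F false j c) : F.functor.obj c ≅ δ.O j := h.iso.symm

/-- The module of an object of type `E(j)`. -/
noncomputable def CTriv.isoE (h : CTriv F true j c) : F.functor.obj c ≅ δ.E j := h.iso.symm

end Orl.Br
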