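import Pool.Agent.Work.MP_a6e60d_ag.Br.Abs
import Pool.Agent.Work.MP_a6e60d_ag.Br.Acyc

/-!
MP_a6e60d_ag, bridge: the objects for which the bridge works, and the final abstract form.
-/

open CategoryTheory Limits HomologicalComplex CochainComplex HomComplex Abelian

attribute [-instance] CategoryTheory.catToReflQuiver

set_option linter.unusedSectionVars false

namespace Orl.Br

open Orl.Q

universe w

variable {k : Type} [Field k] {δ : Dat k}
variable {A : Type 1} [Category.{0} A] [Abelian A] [Linear k A] [HasExt.{w} A]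
variable {F : TRep δ.tiling A} (M : MVData F)

/-- The object `c` is good: the resolution of `Φ c` by the parts over the charts is projective
and represents, and the positive `Ext` groups of the objects of the representation with `c`
vanish. -/
structure IsPiece (c : A) : Prop where
  rep : ∀ v, IsRep F.functor (M.u v c)
  proj : ∀ v, Projective ((F.phiU (upCh δ v)).obj c)
  ext : ∀ (s : Vx) (n : ℕ) (x : Ext.{w} (F.obj s) c (n + 1)), x = 0

variable {M}

theorem IsPiece.zero {c : A} (h : IsZero c) : IsPiece.{w} M c where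
  rep v := isRep_zero _ ((F.phiU (upCh δ v)).map_isZero h) ((M.J v).map_isZero h) _
  proj v := ((F.phiU (upCh δ v)).map_isZero h).projective
  ext s n x := by
    have : x = x.comp (Ext.mk₀ (𝟙 c)) (add_zero _) := by rw [Ext.comp_mk₀_id]
    rw [this, h.eq_of_src (𝟙 c) 0, Ext.mk₀_zero, Ext.comp_zero]

theorem MVData.u_naturality (v : Ch) {c c' : A} (f : c ⟶ c') :
    M.u v c ≫ F.functor.map ((M.J v).map f) = (F.phiU (upCh δ v)).map f ≫ M.u v c' := by
  refine ModuleCat.hom_ext (LinearMap.ext fun x => (M.fac v c').ext (fun s hs => ?_) fun s => ?_)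
  · change F.toEl (M.u v c x) s ≫ (M.J v).map f =
      F.toEl (M.u v c' ((F.phiU (upCh δ v)).map f x)) s
    rw [M.u_eq_zero _ _ _ hs, M.u_eq_zero _ _ _ hs, zero_comp]
  · change (F.toEl (M.u v c x) s ≫ (M.J v).map f) ≫ (M.ι v).app c' =
      F.toEl (M.u v c' ((F.phiU (upCh δ v)).map f x)) s ≫ (M.ι v).app c'
    rw [M.u_apply_ι, Category.assoc, (M.ι v).naturality, ← Category.assoc]
    exact congrArg (· ≫ f) (M.u_apply_ι v c x s)

/-- A direct summand of a finite direct sum of good objects is good. -/
theorem IsPiece.of_retract {ι : Type*} [Fintype ι] {G : A} {c : ι → A}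
    (h : ∀ a, IsPiece.{w} M (c a)) (i : ∀ a, c a ⟶ G) (p : ∀ a, G ⟶ c a)
    (hip : ∑ a, p a ≫ i a = 𝟙 G) : IsPiece.{w} M G where
  rep v N := by
    have hJ : ∑ a, (M.J v).map (p a) ≫ (M.J v).map (i a) = 𝟙 _ := by
      simp only [← Functor.map_comp, ← Functor.map_sum, hip, CategoryTheory.Functor.map_id]
    have hU : ∑ a, (F.phiU (upCh δ v)).map (p a) ≫ (F.phiU (upCh δ v)).map (i a) = 𝟙 _ := by
      simp only [← Functor.map_comp, ← Functor.map_sum, hip, CategoryTheory.Functor.map_id]
    constructor
    · intro f g hfg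
      have hfg : M.u v G ≫ F.functor.map f = M.u v G ≫ F.functor.map g := hfg
      have h1 : ∀ a, (M.J v).map (i a) ≫ f = (M.J v).map (i a) ≫ g := fun a => by
        apply ((h a).rep v N).injective
        change M.u v (c a) ≫ F.functor.map _ = M.u v (c a) ≫ F.functor.map _
        rw [Functor.map_comp, Functor.map_comp, ← Category.assoc, ← Category.assoc,
          M.u_naturality, Category.assoc, Category.assoc, hfg]
      rw [← Category.id_comp f, ← Category.id_comp g, ← hJ, Preadditive.sum_comp,
        Preadditive.sum_comp]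
      exact Finset.sum_congr rfl fun a _ => by rw [Category.assoc, Category.assoc, h1]
    · intro y
      choose f hf using fun a => ((h a).rep v N).surjective ((F.phiU (upCh δ v)).map (i a) ≫ y)
      refine ⟨∑ a, (M.J v).map (p a) ≫ f a, ?_⟩
      change M.u v G ≫ F.functor.map _ = y
      rw [Functor.map_sum, Preadditive.comp_sum]
      have h2 : ∀ a, M.u v G ≫ F.functor.map ((M.J v).map (p a) ≫ f a) =
          ((F.phiU (upCh δ v)).map (p a) ≫ (F.phiU (upCh δ v)).map (i a)) ≫ y := fun a => by
        rw [Functor.map_comp, ← Category.assoc, M.u_naturality, Category.assoc, Category.assoc]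
        exact congrArg _ (hf a)
      rw [Finset.sum_congr rfl fun a _ => h2 a, ← Preadditive.sum_comp, hU, Category.id_comp]
  proj v := by
    have hU : ∑ a, (F.phiU (upCh δ v)).map (p a) ≫ (F.phiU (upCh δ v)).map (i a) = 𝟙 _ := by
      simp only [← Functor.map_comp, ← Functor.map_sum, hip, CategoryTheory.Functor.map_id]
    refine ⟨fun {N N'} f e _ => ?_⟩
    have := fun a => (h a).proj v
    refine ⟨∑ a, (F.phiU (upCh δ v)).map (p a) ≫
      Projective.factorThru ((F.phiU (upCh δ v)).map (i a) ≫ f) e, ?_⟩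
    rw [Preadditive.sum_comp]
    have h2 : ∀ a, ((F.phiU (upCh δ v)).map (p a) ≫
        Projective.factorThru ((F.phiU (upCh δ v)).map (i a) ≫ f) e) ≫ e =
        ((F.phiU (upCh δ v)).map (p a) ≫ (F.phiU (upCh δ v)).map (i a)) ≫ f := fun a => by
      rw [Category.assoc, Projective.factorThru_comp, Category.assoc]
    rw [Finset.sum_congr rfl fun a _ => h2 a, ← Preadditive.sum_comp, hU, Category.id_comp]
  ext s n x := by
    have h1 : x = ∑ a, (x.comp (Ext.mk₀ (p a)) (add_zero _)).comp (Ext.mk₀ (i a))
        (add_zero _) := by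
      have h2 : x = x.comp (Ext.mk₀ (𝟙 G)) (add_zero _) := by rw [Ext.comp_mk₀_id]
      conv_lhs => rw [h2, ← hip]
      rw [Ext.mk₀_sum, Ext.comp_sum]
      refine Finset.sum_congr rfl fun a _ => ?_
      rw [← Ext.mk₀_comp_mk₀, Ext.comp_assoc_of_second_deg_zero]
    rw [h1]
    refine Finset.sum_eq_zero fun a _ => ?_
    rw [(h a).ext s n (x.comp (Ext.mk₀ (p a)) (add_zero _)), Ext.zero_comp]

/-- `Φ` of a K-injective resolution of a good object -/
theorem IsPiece.quasiIso [EnoughInjectives A] {G : A} (h : IsPiece.{w} M G)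
    {I : CochainComplex A ℤ} [I.IsKInjective]
    (ε : (CochainComplex.singleFunctor A 0).obj G ⟶ I) [QuasiIso ε] :
    QuasiIso ((F.functor.mapHomologicalComplex (ComplexShape.up ℤ)).map ε) :=
  F.quasiIso_of_kinj h.ext ε

/-- **The bridge**, for a good object. -/
theorem IsPiece.bridge [EnoughInjectives A] {G : A} (h : IsPiece.{w} M G)
    {I I₁ I₂ : CochainComplex A ℤ} [I.IsKInjective]
    (ε : (CochainComplex.singleFunctor A 0).obj G ⟶ I) [QuasiIso ε]
    (h₁ : DGCat.Thick (A := cxDG k A) I I₁) [I₂.IsKInjective]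
    {J : CochainComplex (ModuleCat.{0} δ.Alg) ℤ} [J.IsKInjective]
    (q : (F.functor.mapHomologicalComplex _).obj I₂ ⟶ J) [QuasiIso q] :
    QIso (mixl (mapDG (k := k) F.functor) (a := I₂) (b := J) (Cochain.ofHom q) I₁) := by
  let ε' : (single A (ComplexShape.up ℤ) 0).obj G ⟶ I := ε
  have : QuasiIso ε' := (inferInstance : QuasiIso ε)
  exact M.bridge G h.rep h.proj ε' (h.quasiIso ε) h₁ q

end Orl.Br
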