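import Pool.Agent.Work.MP_a6e60d_ag.Br.MVX
import Pool.Agent.Work.MP_a6e60d_ag.Br.Col

/-!
# The morphisms between the restrictions of the line bundles and the rank two bundles

`δ.lt b' b v n`: the sections of the twist by `O(n)` of `O`, of the quaternion order, or zero,
over the chart `v`.  `GData`: these lattices are the spaces of morphisms `js (W v) (c b' 0) ⟶ c b n`,
where `c false n = O(n)`, `c true n = E(n)`.
-/

open CategoryTheory Limits TopologicalSpace AlgebraicGeometry Opposite LaurentPolynomial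

attribute [-instance] CategoryTheory.catToReflQuiver

set_option linter.unusedSectionVars false

namespace Orl.Q

variable {k : Type} [Field k] (δ : Dat k)

/-- the morphisms over the chart `v` from `O` or `E` (`b' = false` or `true`) to `O(n)` or `E(n)` -/
noncomputable def Dat.lt : Bool → Bool → Ch → ℤ → Submodule k δ.D
  | false, false, v, n => δ.slat v n
  | false, true, v, n => δ.clat v n
  | true, true, v, n => δ.clat v n
  | true, false, _, _ => ⊥

variable {δ}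

theorem Dat.tile_eq_lt {s t : Vx} (h : t.1 ≤ s.1) : δ.tile s t = δ.lt s.2 t.2 s.1 0 := by
  obtain ⟨v, b⟩ := s
  obtain ⟨w, c⟩ := t
  simp only [Dat.tile, if_pos h]
  cases b <;> cases c <;> rfl

theorem Dat.tile_not_le {s t : Vx} (h : ¬ t.1 ≤ s.1) : δ.tile s t = ⊥ := by
  simp only [Dat.tile, if_neg h]

theorem Dat.one_mem_lt (b : Bool) (v : Ch) : (1 : δ.D) ∈ δ.lt b b v 0 := by
  cases b
  · exact Dat.one_mem_slat v
  · exact Dat.slat_le (Dat.one_mem_slat v)

theorem Dat.lt_mul {b₁ b₂ b₃ : Bool} {v : Ch} {n n' : ℤ} {x y : δ.D} (hx : x ∈ δ.lt b₁ b₂ v n)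
    (hy : y ∈ δ.lt b₂ b₃ v n') : x * y ∈ δ.lt b₁ b₃ v (n + n') := by
  cases b₁ <;> cases b₂ <;> cases b₃
  · exact Dat.slat_mul hx hy
  · exact Dat.clat_mul (Dat.slat_le hx) hy
  · rw [(Submodule.mem_bot k).1 hy, mul_zero]
    exact Submodule.zero_mem _
  · exact Dat.clat_mul hx hy
  · rw [(Submodule.mem_bot k).1 hx, zero_mul]
    exact Submodule.zero_mem _
  · rw [(Submodule.mem_bot k).1 hx, zero_mul]
    exact Submodule.zero_mem _
  · rw [(Submodule.mem_bot k).1 hy, mul_zero]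
    exact Submodule.zero_mem _
  · exact Dat.clat_mul hx hy

theorem Dat.lt_mul' {b₁ b₂ b₃ : Bool} {v : Ch} {n : ℤ} {x y : δ.D} (hx : x ∈ δ.lt b₁ b₂ v 0)
    (hy : y ∈ δ.lt b₂ b₃ v n) : x * y ∈ δ.lt b₁ b₃ v n := by
  have := Dat.lt_mul hx hy
  rwa [zero_add] at this

theorem Dat.lt_mono {b' b : Bool} {v w : Ch} (h : v ≤ w) {n : ℤ} {x : δ.D}
    (hx : x ∈ δ.lt b' b v n) : x ∈ δ.lt b' b w n := by
  cases b' <;> cases b
  · exact Dat.slat_mono h hx
  · exact Dat.clat_mono h hx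
  · exact hx
  · exact Dat.clat_mono h hx

end Orl.Q

namespace Orl.Br

open Fdim Orl.Q

variable {k : Type} [Field k] (δ : Dat k) {X : Scheme.{0}} [Linear k X.Modules]

/-- the morphisms over the charts in terms of the quaternion order -/
structure GData (W : Ch → X.Opens) (hW : ∀ {v w : Ch}, v ≤ w → W w ≤ W v)
    (c : Bool → ℤ → X.Modules) where
  /-- the morphism given by an element of the lattice -/
  gen : ∀ (b' b : Bool) (v : Ch) (n : ℤ), δ.lt b' b v n →ₗ[k] (js (W v) (c b' 0) ⟶ c b n)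
  bij : ∀ (b' b : Bool) (v : Ch) (n : ℤ), Function.Bijective (gen b' b v n)
  one : ∀ (b : Bool) (v : Ch), gen b b v 0 ⟨1, Dat.one_mem_lt b v⟩ = jsI (W v) (c b 0)
  comp : ∀ {b₁ b₂ b₃ : Bool} {v : Ch} {n : ℤ} (x : δ.lt b₁ b₂ v 0) (y : δ.lt b₂ b₃ v n),
    fac (gen b₁ b₂ v 0 x) ≫ gen b₂ b₃ v n y = gen b₁ b₃ v n ⟨x.1 * y.1, Dat.lt_mul' x.2 y.2⟩
  res : ∀ {b' b : Bool} {v w : Ch} (h : v ≤ w) {n : ℤ} (x : δ.lt b' b v n),
    jsIncl (hW h) (c b' 0) ≫ gen b' b v n x = gen b' b w n ⟨x.1, Dat.lt_mono h x.2⟩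

end Orl.Br
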