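import Pool.Agent.Work.MP_a6e60d_ag.Br.MainX
import Pool.Agent.Work.MP_a6e60d_ag.Br.Col2
import Pool.Agent.Work.MP_a6e60d_ag.Br.ColIso
import Pool.Agent.Work.MP_a6e60d_ag.Br.GData

/-!
MP_a6e60d_ag, bridge: the datum `XRep` from trivialisations over the charts.
-/

open CategoryTheory Limits TopologicalSpace AlgebraicGeometry

attribute [-instance] CategoryTheory.catToReflQuiver

namespace Orl.Br

open Fdim Orl.Q

universe u w

section

variable {X : Scheme.{u}} {W W' : X.Opens} {A B : X.Modules}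

instance isIso_rst (h : W' ≤ W) (φ : js W A ⟶ js W B) [IsIso φ] : IsIso (rst h φ) :=
  ⟨rst h (inv φ), by rw [← rst_comp, IsIso.hom_inv_id, rst_id],
    by rw [← rst_comp, IsIso.inv_hom_id, rst_id]⟩

theorem fac_jsIncl (h : W' ≤ W) (g : js W A ⟶ B) : fac (jsIncl h A ≫ g) = rst h (fac g) := by
  refine (rst_unique h ?_).symm
  rw [← cancel_mono (jsI W B), Category.assoc, fac_ι, Category.assoc, jsIncl_ι, fac_ι]

/-- the restriction of an isomorphism -/
theorem isIso_fac_jsIncl (h : W' ≤ W) (g : js W A ⟶ B) [IsIso (fac g)] :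
    IsIso (fac (jsIncl h A ≫ g)) := by
  rw [fac_jsIncl]
  infer_instance

theorem isIso_fac_of_inv {f : js W A ⟶ B} {g : js W B ⟶ A} (h1 : fac f ≫ g = jsI W A)
    (h2 : fac g ≫ f = jsI W B) : IsIso (fac f) := by
  refine ⟨fac g, ?_, ?_⟩
  · rw [← cancel_mono (jsI W A), Category.assoc, fac_ι, h1, Category.id_comp]
  · rw [← cancel_mono (jsI W B), Category.assoc, fac_ι, h2, Category.id_comp]

end

noncomputable section

attribute [local instance] CategoryTheory.Abelian.hasFiniteBiproducts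

variable {k : Type} [Field k] {δ : Dat k} {X : Scheme.{0}} [X.Over (Spec (.of k))]
  [HasExt.{w} X.Modules]

/-- The datum `XRep` from trivialisations over the charts. -/
def XRep.ofTriv (F : TRep δ.tiling X.Modules) (W : Ch → X.Opens)
    (hmid : W .mid = W .zero ⊓ W .inf) (htop : W .zero ⊔ W .inf = ⊤)
    (hF : ∀ s, ∃ B, F.obj s = js (W s.1) B) (c : Bool → ℤ → X.Modules)
    (t : ∀ b j, CTriv F b j (c b j))
    (e : ∀ b j v, ∃ e : F.obj (v, b) ⟶ js (W v) (c b j), IsIso e ∧
      e ≫ jsI (W v) (c b j) = (t b j).g v)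
    (hext : ∀ b j (s : Vx) (n : ℕ) (x : Abelian.Ext.{w} (F.obj s) (c b j) (n + 1)), x = 0) :
    XRep.{w} δ X where
  F := F
  W := W
  hmid := hmid
  htop := htop
  hF := hF
  c := c
  piece b j := (t b j).isPiece (mvX F W hmid htop hF) (e b j) (hext b j)
  iso
    | false, j => (t false j).isoO
    | true, j => (t true j).isoE

/-- The three inputs for the assembly. -/
theorem XRep.input (x : XRep.{w} δ X) : ∃ (F : TRep δ.tiling X.Modules) (M : MVData F)
    (ob : Fin 4 → X.Modules), IsPiece.{w} M (sumG ob) ∧ ob = ![x.c false 0, x.c false 1,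
      x.c true 0, x.c true 1] ∧ Nonempty (F.functor.obj (sumG ob) ≅ sumG δ.ob) :=
  ⟨x.F, x.mvd, x.ob, x.isPiece_G, rfl, ⟨x.phiG⟩⟩

end

end Orl.Br
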