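import Pool.Agent.Work.MP_a6e60d_ag.Br.TRep
import Pool.Agent.Work.MP_a6e60d_ag.Q.Order

/-!
# Representations of the quaternion order in a linear category

`QData δ A`: objects `obO v`, `obE v` for the charts `v` of the projective line, with an action of
the functions on `obO v` and of the quaternion order on `obE v`, restriction maps and a map
`obO v ⟶ obE v`.  It is a representation of the tiling `δ.tiling` in the linear category `A`.
-/

open CategoryTheory Limits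

attribute [-instance] CategoryTheory.catToReflQuiver

set_option linter.unusedSectionVars false

namespace Orl.Br

open Orl.Q

universe u v w

variable {k : Type} [Field k] (δ : Dat k) (A : Type u) [Category.{0} A] [Preadditive A]
  [Linear k A]

/-- the functions and the quaternion order acting on objects of a linear category -/
structure QData where
  /-- the structure sheaf on the charts -/
  obO : Ch → A
  /-- the bundle on the charts -/
  obE : Ch → A
  /-- restriction -/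
  incO : ∀ {v w : Ch}, v ≤ w → (obO w ⟶ obO v)
  /-- restriction -/
  incE : ∀ {v w : Ch}, v ≤ w → (obE w ⟶ obE v)
  incO_self : ∀ {v : Ch} (h : v ≤ v), incO h = 𝟙 _
  incE_self : ∀ {v : Ch} (h : v ≤ v), incE h = 𝟙 _
  incO_comp : ∀ {v w z : Ch} (h : v ≤ w) (h' : w ≤ z), incO h' ≫ incO h = incO (Ch.le_trans h h')
  incE_comp : ∀ {v w z : Ch} (h : v ≤ w) (h' : w ≤ z), incE h' ≫ incE h = incE (Ch.le_trans h h')
  /-- the functions act -/
  mu : ∀ v, δ.slat v 0 →ₗ[k] (obO v ⟶ obO v)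
  /-- the quaternion order acts -/
  rho : ∀ v, δ.clat v 0 →ₗ[k] (obE v ⟶ obE v)
  mu_one : ∀ v, mu v ⟨1, Dat.one_mem_slat v⟩ = 𝟙 _
  rho_one : ∀ v, rho v ⟨1, Dat.slat_le (Dat.one_mem_slat v)⟩ = 𝟙 _
  mu_mul : ∀ v (x y : δ.slat v 0), mu v ⟨x.1 * y.1, Dat.slat_mul x.2 y.2⟩ = mu v x ≫ mu v y
  rho_mul : ∀ v (x y : δ.clat v 0), rho v ⟨x.1 * y.1, Dat.clat_mul x.2 y.2⟩ = rho v x ≫ rho v y
  mu_inc : ∀ {v w : Ch} (h : v ≤ w) (x : δ.slat v 0),
    incO h ≫ mu v x = mu w ⟨x.1, Dat.slat_mono h x.2⟩ ≫ incO h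
  rho_inc : ∀ {v w : Ch} (h : v ≤ w) (x : δ.clat v 0),
    incE h ≫ rho v x = rho w ⟨x.1, Dat.clat_mono h x.2⟩ ≫ incE h
  /-- the map from the structure sheaf to the bundle -/
  e : ∀ v, obO v ⟶ obE v
  e_inc : ∀ {v w : Ch} (h : v ≤ w), incO h ≫ e v = e w ≫ incE h
  mu_e : ∀ v (x : δ.slat v 0), mu v x ≫ e v = e v ≫ rho v ⟨x.1, Dat.slat_le x.2⟩

namespace QData

variable {δ A}
variable (Q : QData δ A)

/-- the objects of the representation -/
def obj : Vx → A
  | (v, false) => Q.obO v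
  | (v, true) => Q.obE v

theorem tile_ff {v w : Ch} (h : w ≤ v) : δ.tile (v, false) (w, false) ≤ δ.slat v 0 := by
  simp only [Dat.tile, if_pos h]
  exact le_rfl

theorem tile_ft {v w : Ch} (h : w ≤ v) : δ.tile (v, false) (w, true) ≤ δ.clat v 0 := by
  simp only [Dat.tile, if_pos h]
  exact le_rfl

theorem tile_tt {v w : Ch} (h : w ≤ v) : δ.tile (v, true) (w, true) ≤ δ.clat v 0 := by
  simp only [Dat.tile, if_pos h]
  exact le_rfl

theorem tile_tf {v w : Ch} {x : δ.D} (hx : x ∈ δ.tile (v, true) (w, false)) : x = 0 := by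
  simp only [Dat.tile] at hx
  split_ifs at hx <;> exact hx

theorem tile_not {s t : Vx} (h : ¬ t.1 ≤ s.1) {x : δ.D} (hx : x ∈ δ.tile s t) : x = 0 := by
  simp only [Dat.tile, if_neg h] at hx
  exact hx

/-- the maps of the representation -/
noncomputable def map : ∀ s t : Vx, δ.tile s t →ₗ[k] (Q.obj s ⟶ Q.obj t)
  | (v, false), (w, false) => if h : w ≤ v then
      Linear.rightComp k (Q.obO v) (Q.incO h) ∘ₗ Q.mu v ∘ₗ Submodule.inclusion (tile_ff h) else 0
  | (v, false), (w, true) => if h : w ≤ v then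
      Linear.leftComp k (Q.obE w) (Q.e v) ∘ₗ Linear.rightComp k (Q.obE v) (Q.incE h) ∘ₗ
        Q.rho v ∘ₗ Submodule.inclusion (tile_ft h) else 0
  | (v, true), (w, true) => if h : w ≤ v then
      Linear.rightComp k (Q.obE v) (Q.incE h) ∘ₗ Q.rho v ∘ₗ Submodule.inclusion (tile_tt h) else 0
  | (_, true), (_, false) => 0

theorem map_ff {v w : Ch} (h : w ≤ v) (x : δ.tile (v, false) (w, false)) :
    Q.map (v, false) (w, false) x = Q.mu v ⟨x.1, tile_ff h x.2⟩ ≫ Q.incO h := by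
  simp only [map, dif_pos h]
  rfl

theorem map_ft {v w : Ch} (h : w ≤ v) (x : δ.tile (v, false) (w, true)) :
    Q.map (v, false) (w, true) x = Q.e v ≫ Q.rho v ⟨x.1, tile_ft h x.2⟩ ≫ Q.incE h := by
  simp only [map, dif_pos h]
  rfl

theorem map_tt {v w : Ch} (h : w ≤ v) (x : δ.tile (v, true) (w, true)) :
    Q.map (v, true) (w, true) x = Q.rho v ⟨x.1, tile_tt h x.2⟩ ≫ Q.incE h := by
  simp only [map, dif_pos h]
  rfl

theorem map_tf {v w : Ch} (x : δ.tile (v, true) (w, false)) :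
    Q.map (v, true) (w, false) x = 0 := rfl

theorem map_eq_zero {s t : Vx} (x : δ.tile s t) (h : x.1 = 0) : Q.map s t x = 0 := by
  have : x = 0 := Subtype.ext h
  rw [this, map_zero]

theorem tile_mul {s t u : Vx} {x y : δ.D} (hx : x ∈ δ.tile s t) (hy : y ∈ δ.tile t u) :
    x * y ∈ δ.tile s u := δ.tiling.mul_mem hx hy

theorem tile_one (s : Vx) : 1 ∈ δ.tile s s := δ.tiling.one_mem s

theorem comp_ff {v w z : Ch} (h1 : w ≤ v) (h2 : z ≤ w) (x : δ.slat v 0) (y : δ.slat w 0) :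
    Q.mu v ⟨x.1 * y.1, Dat.slat_mul x.2 (Dat.slat_mono h1 y.2)⟩ ≫ Q.incO (Ch.le_trans h2 h1) =
      (Q.mu v x ≫ Q.incO h1) ≫ Q.mu w y ≫ Q.incO h2 := by
  rw [Category.assoc, ← Category.assoc (Q.incO h1), Q.mu_inc h1, Category.assoc, Q.incO_comp,
    ← Category.assoc, ← Q.mu_mul]

theorem comp_tt {v w z : Ch} (h1 : w ≤ v) (h2 : z ≤ w) (x : δ.clat v 0) (y : δ.clat w 0) :
    Q.rho v ⟨x.1 * y.1, Dat.clat_mul x.2 (Dat.clat_mono h1 y.2)⟩ ≫ Q.incE (Ch.le_trans h2 h1) =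
      (Q.rho v x ≫ Q.incE h1) ≫ Q.rho w y ≫ Q.incE h2 := by
  rw [Category.assoc, ← Category.assoc (Q.incE h1), Q.rho_inc h1, Category.assoc, Q.incE_comp,
    ← Category.assoc, ← Q.rho_mul]

theorem comp_ft {v w z : Ch} (h1 : w ≤ v) (h2 : z ≤ w) (x : δ.slat v 0) (y : δ.clat w 0) :
    Q.e v ≫ Q.rho v ⟨x.1 * y.1, Dat.clat_mul (Dat.slat_le x.2) (Dat.clat_mono h1 y.2)⟩ ≫
      Q.incE (Ch.le_trans h2 h1) = (Q.mu v x ≫ Q.incO h1) ≫ Q.e w ≫ Q.rho w y ≫ Q.incE h2 := by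
  rw [Category.assoc, ← Category.assoc (Q.incO h1), Q.e_inc h1, Category.assoc,
    ← Category.assoc (Q.mu v _), Q.mu_e, Category.assoc,
    comp_tt Q h1 h2 ⟨x.1, Dat.slat_le x.2⟩ y, Category.assoc]

theorem map_comp {s t u : Vx} (x : δ.tile s t) (y : δ.tile t u) :
    Q.map s u ⟨x.1 * y.1, tile_mul x.2 y.2⟩ = Q.map s t x ≫ Q.map t u y := by
  by_cases h1 : t.1 ≤ s.1
  swap
  · have hx := tile_not h1 x.2
    rw [Q.map_eq_zero x hx, zero_comp]
    exact Q.map_eq_zero _ (show x.1 * y.1 = 0 by rw [hx, zero_mul])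
  by_cases h2 : u.1 ≤ t.1
  swap
  · have hy := tile_not h2 y.2
    rw [Q.map_eq_zero y hy, comp_zero]
    exact Q.map_eq_zero _ (show x.1 * y.1 = 0 by rw [hy, mul_zero])
  obtain ⟨v, b⟩ := s
  obtain ⟨w, c⟩ := t
  obtain ⟨z, d⟩ := u
  change w ≤ v at h1
  change z ≤ w at h2
  cases b <;> cases c <;> cases d
  · rw [Q.map_ff h1, Q.map_ff h2, Q.map_ff (Ch.le_trans h2 h1)]
    exact Q.comp_ff h1 h2 ⟨x.1, _⟩ ⟨y.1, _⟩
  · rw [Q.map_ff h1, Q.map_ft h2, Q.map_ft (Ch.le_trans h2 h1)]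
    exact Q.comp_ft h1 h2 ⟨x.1, _⟩ ⟨y.1, _⟩
  · have hy := tile_tf y.2
    rw [Q.map_eq_zero y hy, comp_zero]
    exact Q.map_eq_zero _ (show x.1 * y.1 = 0 by rw [hy, mul_zero])
  · rw [Q.map_ft h1, Q.map_tt h2, Q.map_ft (Ch.le_trans h2 h1)]
    refine (congrArg (Q.e v ≫ ·) (Q.comp_tt h1 h2 ⟨x.1, tile_ft h1 x.2⟩
      ⟨y.1, tile_tt h2 y.2⟩)).trans ?_
    exact (Category.assoc _ _ _).symm
  · have hx := tile_tf x.2
    rw [Q.map_eq_zero x hx, zero_comp]
    exact Q.map_eq_zero _ (show x.1 * y.1 = 0 by rw [hx, zero_mul])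
  · have hx := tile_tf x.2
    rw [Q.map_eq_zero x hx, zero_comp]
    exact Q.map_eq_zero _ (show x.1 * y.1 = 0 by rw [hx, zero_mul])
  · have hy := tile_tf y.2
    rw [Q.map_eq_zero y hy, comp_zero]
    exact Q.map_eq_zero _ (show x.1 * y.1 = 0 by rw [hy, mul_zero])
  · rw [Q.map_tt h1, Q.map_tt h2, Q.map_tt (Ch.le_trans h2 h1)]
    exact Q.comp_tt h1 h2 ⟨x.1, _⟩ ⟨y.1, _⟩

/-- the representation of the tiling -/
noncomputable def trep : TRep δ.tiling A where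
  obj := Q.obj
  map := Q.map
  map_one s := by
    obtain ⟨v, b⟩ := s
    cases b
    · have := Q.map_ff (Ch.le_refl v) ⟨1, tile_one (v, false)⟩
      refine this.trans ?_
      rw [Q.incO_self, Category.comp_id]
      exact Q.mu_one v
    · have := Q.map_tt (Ch.le_refl v) ⟨1, tile_one (v, true)⟩
      refine this.trans ?_
      rw [Q.incE_self, Category.comp_id]
      exact Q.rho_one v
  map_mul x y := Q.map_comp x y

end QData

end Orl.Br
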