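import Pool.Agent.Work.MP_a6e60d_ag.Br.GData
import Pool.Agent.Work.MP_a6e60d_ag.Br.OfTriv
import Pool.Agent.Work.MP_a6e60d_ag.Br.QData
import Pool.Agent.Work.MP_a6e60d_ag.Conic.QLat

/-!
# The representation of the tiled algebra given by `GData`
-/

open CategoryTheory Limits TopologicalSpace AlgebraicGeometry Opposite LaurentPolynomial

attribute [-instance] CategoryTheory.catToReflQuiver

set_option linter.unusedSectionVars false

namespace Orl.Br

open Fdim Orl.Q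

universe u w

section

variable {X : Scheme.{u}} {W : X.Opens} {A B C : X.Modules}

theorem fac_add (f g : js W A ⟶ B) : fac (f + g) = fac f + fac g := by
  rw [← cancel_mono (jsI W B), Preadditive.add_comp, fac_ι, fac_ι, fac_ι]

theorem fac_smul {k : Type} [Field k] [Linear k X.Modules] (c : k) (f : js W A ⟶ B) :
    fac (c • f) = c • fac f := by
  rw [← cancel_mono (jsI W B), Linear.smul_comp, fac_ι, fac_ι]

theorem fac_comp (f : js W A ⟶ js W B) (g : js W B ⟶ C) : fac (f ≫ g) = f ≫ fac g := by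
  rw [← cancel_mono (jsI W C), Category.assoc, fac_ι, fac_ι]

theorem fac_jsI : fac (jsI W A) = 𝟙 _ := by
  rw [← cancel_mono (jsI W A), fac_ι, Category.id_comp]

/-- the factorisation as a linear map -/
noncomputable def facLin (k : Type) [Field k] [Linear k X.Modules] (W : X.Opens)
    (A B : X.Modules) : (js W A ⟶ B) →ₗ[k] (js W A ⟶ js W B) where
  toFun f := fac f
  map_add' f g := fac_add f g
  map_smul' c f := fac_smul c f

end

variable {k : Type} [Field k] {δ : Dat k} {X : Scheme.{0}} [Linear k X.Modules]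
  {W : Ch → X.Opens} {hW : ∀ {v w : Ch}, v ≤ w → W w ≤ W v} {c : Bool → ℤ → X.Modules}
  (g : GData δ W hW c)

namespace GData

/-- the objects of the representation -/
noncomputable def robj (_ : GData δ W hW c) (s : Vx) : X.Modules := js (W s.1) (c s.2 0)

/-- the maps of the representation -/
noncomputable def rmap (s t : Vx) : δ.tile s t →ₗ[k] (g.robj s ⟶ g.robj t) :=
  if h : t.1 ≤ s.1 then
    Linear.rightComp k (js (W s.1) (c s.2 0)) (jsIncl (hW h) (c t.2 0)) ∘ₗ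
      facLin k (W s.1) (c s.2 0) (c t.2 0) ∘ₗ g.gen s.2 t.2 s.1 0 ∘ₗ
        Submodule.inclusion (Dat.tile_eq_lt h).le
  else 0

theorem rmap_apply {s t : Vx} (h : t.1 ≤ s.1) (x : δ.tile s t) :
    g.rmap s t x = fac (g.gen s.2 t.2 s.1 0 ⟨x.1, (Dat.tile_eq_lt h).le x.2⟩) ≫
      jsIncl (hW h) (c t.2 0) := by
  simp only [rmap, dif_pos h]
  rfl

theorem rmap_eq_zero {s t : Vx} (x : δ.tile s t) (h : x.1 = 0) : g.rmap s t x = 0 := by
  have : x = 0 := Subtype.ext h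
  rw [this, map_zero]

theorem jsIncl_fac {b₁ b₂ : Bool} {v w : Ch} (h : v ≤ w) (y : δ.lt b₁ b₂ v 0) :
    jsIncl (hW h) (c b₁ 0) ≫ fac (g.gen b₁ b₂ v 0 y) =
      fac (g.gen b₁ b₂ w 0 ⟨y.1, Dat.lt_mono h y.2⟩) ≫ jsIncl (hW h) (c b₂ 0) := by
  rw [jsIncl_rst, ← fac_jsIncl, g.res h]

theorem rmap_comp_aux {v w z : Ch} {b₁ b₂ b₃ : Bool} (h1 : w ≤ v) (h2 : z ≤ w)
    (x : δ.lt b₁ b₂ v 0) (y : δ.lt b₂ b₃ w 0) :
    fac (g.gen b₁ b₃ v 0 ⟨x.1 * y.1, Dat.lt_mul' x.2 (Dat.lt_mono h1 y.2)⟩) ≫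
        jsIncl (hW (Ch.le_trans h2 h1)) (c b₃ 0) =
      (fac (g.gen b₁ b₂ v 0 x) ≫ jsIncl (hW h1) (c b₂ 0)) ≫
        fac (g.gen b₂ b₃ w 0 y) ≫ jsIncl (hW h2) (c b₃ 0) := by
  rw [Category.assoc, ← Category.assoc (jsIncl _ _) (fac _), g.jsIncl_fac h1, Category.assoc,
    jsIncl_comp, ← Category.assoc, ← fac_comp, g.comp]

theorem rmap_comp {s t u : Vx} (x : δ.tile s t) (y : δ.tile t u) :
    g.rmap s u ⟨x.1 * y.1, QData.tile_mul x.2 y.2⟩ = g.rmap s t x ≫ g.rmap t u y := by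
  by_cases h1 : t.1 ≤ s.1
  swap
  · have hx := QData.tile_not h1 x.2
    rw [g.rmap_eq_zero x hx, zero_comp]
    exact g.rmap_eq_zero _ (show x.1 * y.1 = 0 by rw [hx, zero_mul])
  by_cases h2 : u.1 ≤ t.1
  swap
  · have hy := QData.tile_not h2 y.2
    rw [g.rmap_eq_zero y hy, comp_zero]
    exact g.rmap_eq_zero _ (show x.1 * y.1 = 0 by rw [hy, mul_zero])
  rw [g.rmap_apply h1, g.rmap_apply h2, g.rmap_apply (Ch.le_trans h2 h1)]
  exact g.rmap_comp_aux h1 h2 ⟨x.1, _⟩ ⟨y.1, _⟩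

/-- the representation of the tiling -/
noncomputable def rep : TRep δ.tiling X.Modules where
  obj := g.robj
  map := g.rmap
  map_one s := by
    refine (g.rmap_apply (Ch.le_refl s.1) ⟨1, QData.tile_one s⟩).trans ?_
    rw [g.one, fac_jsI, jsIncl_self]
    exact Category.id_comp _
  map_mul x y := g.rmap_comp x y

theorem rep_map {s t : Vx} (h : t.1 ≤ s.1) (x : δ.tile s t) :
    g.rep.map s t x = fac (g.gen s.2 t.2 s.1 0 ⟨x.1, (Dat.tile_eq_lt h).le x.2⟩) ≫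
      jsIncl (hW h) (c t.2 0) := g.rmap_apply h x

/-! ### Trivialisations -/

theorem T_mem {v w : Ch} (h : v ≤ w) (n : ℤ) : (T (v.tw n) : k[T;T⁻¹]) ∈ lat k w n := by
  have h1 : w.Ok n (v.tw n) := by
    rcases h with rfl | rfl
    · cases v <;> simp [Ch.Ok, Ch.tw]
    · trivial
  have h2 := single_mem_lat (κ := k) h1 1
  rwa [map_one, one_mul] at h2

theorem T_neg_mem {v w : Ch} (h : v ≤ w) (n : ℤ) :
    (T (-(v.tw n)) : k[T;T⁻¹]) ∈ lat k w (-n) := by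
  have h1 : w.Ok (-n) (-(v.tw n)) := by
    rcases h with rfl | rfl
    · cases v <;> simp [Ch.Ok, Ch.tw]
    · trivial
  have h2 := single_mem_lat (κ := k) h1 1
  rwa [map_one, one_mul] at h2

theorem sc_mem {f : k[T;T⁻¹]} {w : Ch} {n : ℤ} (h : f ∈ lat k w n) (b : Bool) :
    (Fac.sc f : δ.D) ∈ δ.lt b b w n := by
  have h1 : (Fac.sc f : δ.D) ∈ δ.slat w n := ⟨h, rfl, rfl, rfl⟩
  cases b
  · exact h1
  · exact Dat.slat_le h1

theorem sc_mul_sc (f h : k[T;T⁻¹]) : (Fac.sc f * Fac.sc h : δ.D) = Fac.sc (f * h) := by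
  ext <;> simp [Fac.sc]

theorem sc_one : (Fac.sc 1 : δ.D) = 1 := by
  ext <;> simp [Fac.sc]

theorem mul_sc_mem {b' b : Bool} {v w : Ch} (h : v ≤ w) (n : ℤ) {x : δ.D}
    (hx : x ∈ δ.lt b' b w 0) : x * Fac.sc (T (v.tw n)) ∈ δ.lt b' b w n :=
  Dat.lt_mul' hx (sc_mem (T_mem h n) b)

theorem bijective_mul_sc (b' b : Bool) {v w : Ch} (h : v ≤ w) (n : ℤ) :
    Function.Bijective fun x : δ.lt b' b w 0 =>
      (⟨x.1 * Fac.sc (T (v.tw n)), mul_sc_mem h n x.2⟩ : δ.lt b' b w n) := by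
  have h1 : ∀ x : δ.D, x * Fac.sc (T (v.tw n)) * Fac.sc (T (-(v.tw n))) = x := fun x => by
    rw [mul_assoc, sc_mul_sc, ← T_add, add_neg_cancel, T_zero, sc_one, mul_one]
  have h2 : ∀ x : δ.D, x * Fac.sc (T (-(v.tw n))) * Fac.sc (T (v.tw n)) = x := fun x => by
    rw [mul_assoc, sc_mul_sc, ← T_add, neg_add_cancel, T_zero, sc_one, mul_one]
  constructor
  · intro x y hxy
    have h3 : x.1 * Fac.sc (T (v.tw n)) = y.1 * Fac.sc (T (v.tw n)) := congrArg Subtype.val hxy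
    have h4 := congrArg (· * (Fac.sc (T (-(v.tw n))) : δ.D)) h3
    simp only [h1] at h4
    exact Subtype.ext h4
  · intro y
    have h3 := Dat.lt_mul y.2 (sc_mem (δ := δ) (T_neg_mem (k := k) h n) b)
    rw [add_neg_cancel] at h3
    exact ⟨⟨y.1 * Fac.sc (T (-(v.tw n))), h3⟩, Subtype.ext (h2 y.1)⟩

/-- the trivialisation over the chart `v` -/
noncomputable def tg (b : Bool) (n : ℤ) (v : Ch) : g.rep.obj (v, b) ⟶ c b n :=
  g.gen b b v n ⟨Fac.sc (T (v.tw n)), sc_mem (T_mem (Ch.le_refl v) n) b⟩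

theorem rep_map_tg (b : Bool) (n : ℤ) {v : Ch} {s : Vx} (h : v ≤ s.1)
    (x : δ.tile s (v, b)) : g.rep.map s (v, b) x ≫ g.tg b n v =
      g.gen s.2 b s.1 n ⟨x.1 * Fac.sc (T (v.tw n)),
        mul_sc_mem h n ((Dat.tile_eq_lt (s := s) (t := (v, b)) h).le x.2)⟩ := by
  refine (congrArg (· ≫ g.tg b n v) (g.rep_map (s := s) (t := (v, b)) h x)).trans ?_
  refine (Category.assoc (fac (g.gen s.2 b s.1 0 ⟨x.1, _⟩)) (jsIncl (hW h) (c b 0))
    (g.gen b b v n ⟨Fac.sc (T (v.tw n)), sc_mem (T_mem (Ch.le_refl v) n) b⟩)).trans ?_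
  refine (congrArg (fac _ ≫ ·) (g.res h ⟨Fac.sc (T (v.tw n)), _⟩)).trans ?_
  exact g.comp ⟨x.1, _⟩ ⟨Fac.sc (T (v.tw n)), _⟩

theorem bijective_tg (b : Bool) (n : ℤ) {v : Ch} {s : Vx} (h : v ≤ s.1) : Function.Bijective
    fun x : δ.tiling.L s (v, b) => g.rep.map s (v, b) x ≫ g.tg b n v := by
  have h1 := (g.bij s.2 b s.1 n).comp (bijective_mul_sc (δ := δ) s.2 b h n)
  let e : δ.tiling.L s (v, b) ≃ δ.lt s.2 b s.1 0 :=
    Equiv.subtypeEquivRight fun x => by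
      rw [← Dat.tile_eq_lt (δ := δ) (s := s) (t := (v, b)) h]
      exact Iff.rfl
  have h2 := h1.comp e.bijective
  refine (funext fun x => ?_ : (fun x : δ.tiling.L s (v, b) =>
    g.rep.map s (v, b) x ≫ g.tg b n v) = _) ▸ h2
  exact g.rep_map_tg b n h x

/-- the trivialisations of `c b n` -/
noncomputable def ctriv (b : Bool) (n : ℤ) : CTriv g.rep b n (c b n) where
  g0 := g.tg b n .zero
  g1 := g.tg b n .inf
  bij0 s h := g.bijective_tg b n h
  bij1 s h := g.bijective_tg b n h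
  glue := by
    refine (g.rep_map_tg b n (Ch.le_mid .inf) ⟨1, one_mem_tile_mid .inf b⟩).trans ?_
    refine Eq.trans ?_ (g.rep_map_tg b n (Ch.le_mid .zero)
      ⟨Fac.sc (T n), sc_mem_tile_mid (T n) .zero b⟩).symm
    refine congrArg (g.gen b b .mid n) (Subtype.ext ?_)
    change 1 * Fac.sc (T n) = Fac.sc (T n) * Fac.sc (T 0)
    rw [T_zero, sc_one, one_mul, mul_one]

theorem ctriv_g_mid (b : Bool) (n : ℤ) :
    (g.ctriv b n).g .mid = jsIncl (hW (Ch.le_mid .zero)) (c b 0) ≫ g.tg b n .zero := by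
  change g.rep.map (.mid, b) (.zero, b) ⟨1, one_mem_tile_mid .zero b⟩ ≫ g.tg b n .zero = _
  refine (g.rep_map_tg b n (Ch.le_mid .zero) ⟨1, one_mem_tile_mid .zero b⟩).trans ?_
  refine Eq.trans ?_ (g.res (Ch.le_mid .zero) ⟨Fac.sc (T (Ch.zero.tw n)), _⟩).symm
  refine congrArg (g.gen b b .mid n) (Subtype.ext ?_)
  exact one_mul _

end GData

end Orl.Br
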