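import Pool.Agent.Work.MP_a6e60d_ag.DG.Bridge
import Pool.Agent.Work.MP_a6e60d_ag.Perf.Res

/-!
# MP_a6e60d_ag: a finite direct sum as one generator

`sumG c` is the direct sum of a finite family `c` of objects.
* `sum_prG_inG`: the identity of `sumG c` is the sum of the `prG c a ≫ inG c a`;
* `prop_single_sumG`: a triangulated class closed under retracts contains `sumG c` (in degree `n`)
  if and only if it contains all `c a`;
* `gen_sumG_iff`: the thick closures of `sumG c` and of the family `c` agree;
* `thick_of_sumG`, `thick_sumG`: the same in the DG category of complexes, for K-injective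
  complexes which represent `sumG c` and the `c a`;
* `bddIn_single_sumG`: bounded cohomology in a class.
-/

open CategoryTheory Limits Pretriangulated

attribute [-instance] CategoryTheory.catToReflQuiver

namespace Orl.Br

universe w' w v v' u u'

noncomputable section

section sum

variable {A : Type u} [Category.{v} A] [Preadditive A] [HasFiniteBiproducts A]
  {ι : Type} [Finite ι] (c : ι → A)

/-- the direct sum of a finite family of objects -/
abbrev sumG : A := ⨁ c

/-- the inclusion of a summand -/
abbrev inG (a : ι) : c a ⟶ sumG c := biproduct.ι c a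

/-- the projection on a summand -/
abbrev prG (a : ι) : sumG c ⟶ c a := biproduct.π c a

theorem inG_prG_self (a : ι) : inG c a ≫ prG c a = 𝟙 _ := biproduct.ι_π_self c a

theorem inG_prG_ne {a b : ι} (h : a ≠ b) : inG c a ≫ prG c b = 0 := biproduct.ι_π_ne c h

theorem sum_prG_inG [Fintype ι] : ∑ a, prG c a ≫ inG c a = 𝟙 (sumG c) := by
  classical
  exact biproduct.total

/-- a summand is a retract -/
def retrG (a : ι) : Retract (c a) (sumG c) where
  i := inG c a
  r := prG c a
  retract := inG_prG_self c a

variable {T : Type u'} [Category.{v'} T] [Preadditive T]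

theorem prop_map_sumG (F : A ⥤ T) [F.Additive] (P : ObjectProperty T)
    [P.IsClosedUnderIsomorphisms] [P.IsClosedUnderFiniteProducts] [P.IsStableUnderRetracts] :
    P (F.obj (sumG c)) ↔ ∀ a, P (F.obj (c a)) := by
  constructor
  · intro h a
    exact P.prop_of_retract ((retrG c a).map F) h
  · intro h
    exact P.prop_of_iso (F.mapIso (biproduct.isoProduct c) ≪≫
      PreservesProduct.iso F c).symm (P.prop_product h)

end sum

section derived

variable {A : Type u} [Category.{v} A] [Abelian A] [HasDerivedCategory.{w} A]
  {ι : Type} [Finite ι] (c : ι → A)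

open DerivedCategory

attribute [local instance] CategoryTheory.Abelian.hasFiniteBiproducts

theorem prop_single_sumG (P : ObjectProperty (DerivedCategory A)) [P.IsTriangulated]
    [P.IsStableUnderRetracts] (n : ℤ) :
    P ((singleFunctor A n).obj (sumG c)) ↔ ∀ a, P ((singleFunctor A n).obj (c a)) :=
  prop_map_sumG c (singleFunctor A n) P

/-- the thick closure of a direct sum is the thick closure of the family of its summands -/
theorem gen_sumG_iff {n : ℤ} {Y : DerivedCategory A} :
    (∀ P : ObjectProperty (DerivedCategory A), P.IsTriangulated → P.IsStableUnderRetracts →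
      P ((singleFunctor A n).obj (sumG c)) → P Y) ↔
    ∀ P : ObjectProperty (DerivedCategory A), P.IsTriangulated → P.IsStableUnderRetracts →
      (∀ a, P ((singleFunctor A n).obj (c a))) → P Y := by
  constructor
  · intro h P h1 h2 h3
    exact h P h1 h2 ((prop_single_sumG c P n).2 h3)
  · intro h P h1 h2 h3
    exact h P h1 h2 ((prop_single_sumG c P n).1 h3)

/-- the form with a complex which represents the direct sum -/
theorem gen_of_iso {n : ℤ} {G Y : DerivedCategory A}
    (e : G ≅ (singleFunctor A n).obj (sumG c))
    (h : ∀ P : ObjectProperty (DerivedCategory A), P.IsTriangulated → P.IsStableUnderRetracts →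
      (∀ a, P ((singleFunctor A n).obj (c a))) → P Y) :
    ∀ P : ObjectProperty (DerivedCategory A), P.IsTriangulated → P.IsStableUnderRetracts →
      P G → P Y := by
  intro P h1 h2 h3
  exact (gen_sumG_iff c).2 h P h1 h2 (P.prop_of_iso e h3)

theorem bddIn_single_sumG {Q : ObjectProperty A} [Q.ContainsZero] [Q.IsClosedUnderIsomorphisms]
    [Q.IsClosedUnderFiniteProducts] (h : ∀ a, Q (c a)) (n : ℤ) :
    Perf.BddIn Q ((singleFunctor A n).obj (sumG c)) :=
  Perf.bddIn_single (Q.prop_of_iso (biproduct.isoProduct c).symm (Q.prop_product h)) n

end derived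

section dg

variable {k : Type w'} [CommRing k] {C : Type 1} [Category.{0} C] [Abelian C] [Linear k C]
  [HasDerivedCategory.{w} C] [HasColimitsOfShape (Discrete ℕ) C]
  {ι : Type} [Finite ι] (c : ι → C)

open DerivedCategory

attribute [local instance] CategoryTheory.Abelian.hasFiniteBiproducts

variable (k) in
/-- the K-injective complexes which represent the summands are in the thick closure of a
K-injective complex which represents the direct sum -/
theorem thick_of_sumG {n : ℤ} {I : CochainComplex C ℤ} (hI : I.IsKInjective)
    (e : Q.obj I ≅ (singleFunctor C n).obj (sumG c)) (a : ι) {K : CochainComplex C ℤ}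
    (hK : K.IsKInjective) (f : Q.obj K ≅ (singleFunctor C n).obj (c a)) :
    DGCat.Thick (A := cxDG k C) I K := by
  refine (thick_iff k hI hK).2 fun P h1 h2 h3 => ?_
  exact P.prop_of_iso f.symm ((prop_single_sumG c P n).1 (P.prop_of_iso e h3) a)

variable (k) in
/-- a K-injective complex which represents the direct sum is in the thick closure of `J` if the
K-injective complexes which represent the summands are -/
theorem thick_sumG {n : ℤ} {I J : CochainComplex C ℤ} (hI : I.IsKInjective) (hJ : J.IsKInjective)
    (e : Q.obj I ≅ (singleFunctor C n).obj (sumG c)) (K : ι → CochainComplex C ℤ)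
    (hK : ∀ a, (K a).IsKInjective) (f : ∀ a, Q.obj (K a) ≅ (singleFunctor C n).obj (c a))
    (h : ∀ a, DGCat.Thick (A := cxDG k C) J (K a)) : DGCat.Thick (A := cxDG k C) J I := by
  refine (thick_iff k hJ hI).2 fun P h1 h2 h3 => ?_
  refine P.prop_of_iso e.symm ((prop_single_sumG c P n).2 fun a => ?_)
  exact P.prop_of_iso (f a) ((thick_iff k hJ (hK a)).1 (h a) P h1 h2 h3)

end dg

end

end Orl.Br
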