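import Pool.Agent.Work.MP_f714fc_ag.Coh.SubU
import Pool.Agent.Work.MP_f714fc_ag.Geo.CohLin

/-!
# Extension by zero of the restriction to an open set, as a functor; local morphisms

`js W A` is the subsheaf of `A` of the sections which vanish near every point outside `W`.
A local morphism over `W` is a morphism `js W A ⟶ js W B`; it is the same as a morphism
`js W A ⟶ B`, and the same as a family of linear maps `Γ(A, V) → Γ(B, V)`, `V ≤ W`, compatible
with restrictions.
-/

open CategoryTheory Limits TopologicalSpace AlgebraicGeometry Opposite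

attribute [-instance] CategoryTheory.catToReflQuiver

universe u

namespace Orl.Br

open Fdim

variable {X : Scheme.{u}}

/-- the extension by zero of the restriction of `A` to `W` -/
noncomputable abbrev js (W : X.Opens) (A : X.Modules) : X.Modules := (supU A W).sh

/-- the inclusion -/
noncomputable abbrev jsI (W : X.Opens) (A : X.Modules) : js W A ⟶ A := (supU A W).ι

/-- the inclusion for `W ≤ W'` -/
noncomputable def jsIncl {W W' : X.Opens} (h : W ≤ W') (A : X.Modules) : js W A ⟶ js W' A :=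
  SubSh.incl (supU A W) (supU A W') (supU_mono A h)

variable {W W' W'' : X.Opens} {A B C : X.Modules}

@[reassoc (attr := simp)]
theorem jsIncl_ι (h : W ≤ W') (A : X.Modules) : jsIncl h A ≫ jsI W' A = jsI W A :=
  SubSh.incl_ι _ _ _

instance (h : W ≤ W') (A : X.Modules) : Mono (jsIncl h A) := by
  unfold jsIncl
  infer_instance

theorem jsIncl_self (h : W ≤ W) (A : X.Modules) : jsIncl h A = 𝟙 _ := by
  rw [← cancel_mono (jsI W A), jsIncl_ι, Category.id_comp]

@[reassoc]
theorem jsIncl_comp (h : W ≤ W') (h' : W' ≤ W'') (A : X.Modules) :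
    jsIncl h A ≫ jsIncl h' A = jsIncl (h.trans h') A := by
  rw [← cancel_mono (jsI W'' A), Category.assoc, jsIncl_ι, jsIncl_ι, jsIncl_ι]

/-- the section of `js W A` over an open subset of `W` -/
noncomputable def sec {V : X.Opens} (hV : V ≤ W) (s : Γ(A, V)) : Γ(js W A, V) :=
  (supU A W).mkS s (mem_supU_of_le hV s)

@[simp] theorem jsI_sec {V : X.Opens} (hV : V ≤ W) (s : Γ(A, V)) :
    ap (jsI W A) V (sec hV s) = s := rfl

theorem sec_jsI {V : X.Opens} (hV : V ≤ W) (s : Γ(js W A, V)) :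
    sec hV (ap (jsI W A) V s) = s := rfl

theorem sec_rs {V V' : X.Opens} (hV : V ≤ W) (h : V' ≤ V) (s : Γ(A, V)) :
    rs (js W A) h (sec hV s) = sec (h.trans hV) (rs A h s) := rfl

@[simp] theorem ap_jsIncl (h : W ≤ W') (A : X.Modules) {V : X.Opens} (hV : V ≤ W) (s : Γ(A, V)) :
    ap (jsIncl h A) V (sec hV s) = sec (hV.trans h) s := rfl

/-- the image of a morphism out of `js W A` -/
theorem mem_sup (φ : js W A ⟶ B) {V : X.Opens} (s : Γ(js W A, V)) :
    ap φ V s ∈ (supU B W).car V := by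
  intro x hx hxW
  obtain ⟨V', hV', hxV', h0⟩ := (supU A W).ι_mem s x hx hxW
  refine ⟨V', hV', hxV', ?_⟩
  have h1 : rs (js W A) hV' s = 0 := by
    apply SubSh.ι_injective
    rw [ap_rs, map_zero]
    exact h0
  rw [← ap_rs, h1, map_zero]

/-- the factorisation through `js W B` -/
noncomputable def fac (φ : js W A ⟶ B) : js W A ⟶ js W B :=
  (supU B W).lift φ fun _ s => mem_sup φ s

@[reassoc (attr := simp)]
theorem fac_ι (φ : js W A ⟶ B) : fac φ ≫ jsI W B = φ := SubSh.lift_ι _ _ _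

theorem fac_unique {φ : js W A ⟶ B} {ψ : js W A ⟶ js W B} (h : ψ ≫ jsI W B = φ) :
    ψ = fac φ := by
  rw [← cancel_mono (jsI W B), h, fac_ι]

/-- the map `js W A ⟶ js W B` of a morphism -/
noncomputable def jsMap (W : X.Opens) (f : A ⟶ B) : js W A ⟶ js W B := fac (jsI W A ≫ f)

@[reassoc (attr := simp)]
theorem jsMap_ι (W : X.Opens) (f : A ⟶ B) : jsMap W f ≫ jsI W B = jsI W A ≫ f :=
  fac_ι _

@[simp] theorem jsMap_id (W : X.Opens) (A : X.Modules) : jsMap W (𝟙 A) = 𝟙 _ := by
  rw [← cancel_mono (jsI W A), jsMap_ι, Category.comp_id, Category.id_comp]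

theorem jsMap_comp (W : X.Opens) (f : A ⟶ B) (g : B ⟶ C) :
    jsMap W (f ≫ g) = jsMap W f ≫ jsMap W g := by
  rw [← cancel_mono (jsI W C), jsMap_ι, Category.assoc, jsMap_ι, jsMap_ι_assoc]

theorem jsMap_add (W : X.Opens) (f g : A ⟶ B) :
    jsMap W (f + g) = jsMap W f + jsMap W g := by
  rw [← cancel_mono (jsI W B), Preadditive.add_comp, jsMap_ι, jsMap_ι, jsMap_ι,
    Preadditive.comp_add]

theorem jsMap_smul {k : Type u} [CommRing k] [X.Over (Spec (.of k))] (W : X.Opens) (c : k)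
    (f : A ⟶ B) : jsMap W (c • f) = c • jsMap W f := by
  rw [← cancel_mono (jsI W B), Linear.smul_comp, jsMap_ι, jsMap_ι, Linear.comp_smul]

@[simp] theorem ap_jsMap (W : X.Opens) (f : A ⟶ B) {V : X.Opens} (hV : V ≤ W) (s : Γ(A, V)) :
    ap (jsMap W f) V (sec hV s) = sec hV (ap f V s) := rfl

/-- `W ↦ js W A` as a functor of `A` -/
noncomputable def jSh (W : X.Opens) : X.Modules ⥤ X.Modules where
  obj A := js W A
  map f := jsMap W f
  map_id A := jsMap_id W A
  map_comp f g := jsMap_comp W f g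

@[reassoc]
theorem jsIncl_natural (h : W ≤ W') (f : A ⟶ B) :
    jsMap W f ≫ jsIncl h B = jsIncl h A ≫ jsMap W' f := by
  rw [← cancel_mono (jsI W' B), Category.assoc, jsIncl_ι, jsMap_ι, Category.assoc, jsMap_ι,
    jsIncl_ι_assoc]

instance : (jSh (X := X) W).Additive where
  map_add {_ _ f g} := jsMap_add W f g

instance (k : Type u) [CommRing k] [X.Over (Spec (.of k))] : (jSh (X := X) W).Linear k where
  map_smul f r := jsMap_smul W r f

/-- restriction of local morphisms -/
noncomputable def rst (h : W' ≤ W) (φ : js W A ⟶ js W B) : js W' A ⟶ js W' B :=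
  fac (jsIncl h A ≫ φ ≫ jsI W B)

@[reassoc]
theorem jsIncl_rst (h : W' ≤ W) (φ : js W A ⟶ js W B) :
    jsIncl h A ≫ φ = rst h φ ≫ jsIncl h B := by
  rw [← cancel_mono (jsI W B), Category.assoc, Category.assoc, jsIncl_ι, rst, fac_ι]

theorem rst_unique (h : W' ≤ W) {φ : js W A ⟶ js W B} {ψ : js W' A ⟶ js W' B}
    (hψ : jsIncl h A ≫ φ = ψ ≫ jsIncl h B) : rst h φ = ψ := by
  rw [← cancel_mono (jsIncl h B), ← jsIncl_rst, hψ]

@[simp] theorem rst_self (h : W ≤ W) (φ : js W A ⟶ js W B) : rst h φ = φ :=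
  rst_unique h (by rw [jsIncl_self, jsIncl_self, Category.id_comp, Category.comp_id])

@[simp] theorem rst_id (h : W' ≤ W) : rst h (𝟙 (js W A)) = 𝟙 _ :=
  rst_unique h (by rw [Category.id_comp, Category.comp_id])

theorem rst_comp (h : W' ≤ W) (φ : js W A ⟶ js W B) (ψ : js W B ⟶ js W C) :
    rst h (φ ≫ ψ) = rst h φ ≫ rst h ψ :=
  rst_unique h (by rw [jsIncl_rst_assoc, jsIncl_rst, Category.assoc])

theorem rst_add (h : W' ≤ W) (φ ψ : js W A ⟶ js W B) : rst h (φ + ψ) = rst h φ + rst h ψ :=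
  rst_unique h (by rw [Preadditive.comp_add, jsIncl_rst, jsIncl_rst, Preadditive.add_comp])

theorem rst_zero (h : W' ≤ W) : rst h (0 : js W A ⟶ js W B) = 0 :=
  rst_unique h (by rw [comp_zero, zero_comp])

theorem rst_smul {k : Type u} [CommRing k] [X.Over (Spec (.of k))] (h : W' ≤ W) (c : k)
    (φ : js W A ⟶ js W B) : rst h (c • φ) = c • rst h φ :=
  rst_unique h (by rw [Linear.comp_smul, jsIncl_rst, Linear.smul_comp])

theorem rst_rst (h : W' ≤ W) (h' : W'' ≤ W') (φ : js W A ⟶ js W B) :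
    rst h' (rst h φ) = rst (h'.trans h) φ :=
  (rst_unique (h'.trans h) (by
    rw [← jsIncl_comp h' h, ← jsIncl_comp h' h, Category.assoc, jsIncl_rst,
      jsIncl_rst_assoc])).symm

@[simp] theorem rst_map (h : W' ≤ W) (f : A ⟶ B) : rst h (jsMap W f) = jsMap W' f :=
  rst_unique h (jsIncl_natural h f).symm

/-! ### Local morphisms from families of maps -/

/-- a family of maps on the sections over the open subsets of `W` -/
structure Fam (W : X.Opens) (A B : X.Modules) where
  /-- the maps -/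
  f : ∀ (V : X.Opens), V ≤ W → Γ(A, V) →+ Γ(B, V)
  f_smul : ∀ (V : X.Opens) (hV : V ≤ W) (r : Γ(X, V)) (s : Γ(A, V)),
    f V hV (r • s) = r • f V hV s
  f_rs : ∀ {V V' : X.Opens} (hV : V ≤ W) (h : V' ≤ V) (s : Γ(A, V)),
    f V' (h.trans hV) (rs A h s) = rs B h (f V hV s)

/-- local morphisms are determined by the sections over the open subsets of `W` -/
theorem js_ext {φ ψ : js W A ⟶ B} (h : ∀ (V : X.Opens) (hV : V ≤ W) (s : Γ(A, V)),
    ap φ V (sec hV s) = ap ψ V (sec hV s)) : φ = ψ := by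
  apply hom_ext'
  intro V s
  have key : ∀ x ∈ V, ∃ (V' : X.Opens) (h : V' ≤ V), x ∈ V' ∧
      rs B h (ap φ V s) = rs B h (ap ψ V s) := by
    intro x hx
    by_cases hxW : x ∈ W
    · refine ⟨V ⊓ W, inf_le_left, ⟨hx, hxW⟩, ?_⟩
      rw [← ap_rs, ← ap_rs, ← sec_jsI inf_le_right (rs (js W A) inf_le_left s)]
      exact h _ _ _
    · obtain ⟨V', hV', hxV', h0⟩ := (supU A W).ι_mem s x hx hxW
      refine ⟨V', hV', hxV', ?_⟩
      have h1 : rs (js W A) hV' s = 0 := by
        apply SubSh.ι_injective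
        rw [ap_rs, map_zero]
        exact h0
      rw [← ap_rs, ← ap_rs, h1, map_zero, map_zero]
  choose! V' hV' hx heq using key
  refine sec_ext B (V := V) (U := fun x : V => V' x) (fun x => hV' x.1 x.2)
    (fun x hxV => Opens.mem_iSup.2 ⟨⟨x, hxV⟩, hx x hxV⟩) fun x => heq x.1 x.2

/-- sections vanishing near every point outside `W` are determined by their restriction to `W` -/
theorem sup_ext {V : X.Opens} {s t : Γ(B, V)} (hs : s ∈ (supU B W).car V)
    (ht : t ∈ (supU B W).car V)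
    (h : rs B (inf_le_left : V ⊓ W ≤ V) s = rs B inf_le_left t) : s = t := by
  have key : ∀ x ∈ V, ∃ (V' : X.Opens) (h : V' ≤ V), x ∈ V' ∧ rs B h s = rs B h t := by
    intro x hx
    by_cases hxW : x ∈ W
    · exact ⟨V ⊓ W, inf_le_left, ⟨hx, hxW⟩, h⟩
    · obtain ⟨V', hV', hxV', h0⟩ := (supU B W).car V |>.sub_mem hs ht x hx hxW
      exact ⟨V', hV', hxV', sub_eq_zero.1 (by rw [← map_sub]; exact h0)⟩
  choose! V' hV' hx heq using key
  exact sec_ext B (V := V) (U := fun x : V => V' x) (fun x => hV' x.1 x.2)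
    (fun x hxV => Opens.mem_iSup.2 ⟨⟨x, hxV⟩, hx x hxV⟩) fun x => heq x.1 x.2

/-- extension by zero of a section -/
theorem exists_sup {V : X.Opens} (t : Γ(B, V ⊓ W)) (h : ∀ x ∈ V, x ∉ W → ∃ (V' : X.Opens)
    (h : V' ≤ V), x ∈ V' ∧ rs B (inf_le_inf_right W h : V' ⊓ W ≤ V ⊓ W) t = 0) :
    ∃ s : Γ(B, V), s ∈ (supU B W).car V ∧ rs B inf_le_left s = t := by
  choose! V' hV' hx h0 using h
  let U : Option {x : V // x.1 ∉ W} → X.Opens := fun i => i.elim (V ⊓ W) fun x => V' x.1.1
  have hU : ∀ i, U i ≤ V := by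
    rintro (_ | x)
    · exact inf_le_left
    · exact hV' x.1.1 x.1.2 x.2
  have hcov : V ≤ ⨆ i, U i := by
    intro x hxV
    by_cases hxW : x ∈ W
    · exact Opens.mem_iSup.2 ⟨none, hxV, hxW⟩
    · exact Opens.mem_iSup.2 ⟨some ⟨⟨x, hxV⟩, hxW⟩, hx x hxV hxW⟩
  let sc : ∀ i, Γ(B, U i) := fun i => match i with
    | none => t
    | some _ => 0
  have k1 : ∀ (V1 : X.Opens) (h1 : V1 ≤ V ⊓ W) (y : X) (hy : y ∈ V) (hyW : y ∉ W)
      (_ : V1 ≤ V' y), rs B h1 t = 0 := by
    intro V1 h1 y hy hyW h2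
    have h3 := congrArg (rs B (le_inf h2 (h1.trans inf_le_right) : V1 ≤ V' y ⊓ W)) (h0 y hy hyW)
    rw [map_zero, rs_rs] at h3
    exact h3
  obtain ⟨s, hs⟩ := exists_glue B hU hcov sc (by
    rintro (_ | x) (_ | y)
    · rfl
    · change rs B _ t = rs B _ 0
      rw [map_zero]
      exact k1 _ _ y.1.1 y.1.2 y.2 inf_le_right
    · change rs B _ 0 = rs B _ t
      rw [map_zero]
      exact (k1 _ _ x.1.1 x.1.2 x.2 inf_le_left).symm
    · change rs B _ 0 = rs B _ 0
      rw [map_zero, map_zero])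
  refine ⟨s, fun x hxV hxW => ?_, hs none⟩
  exact ⟨V' x, hV' x hxV hxW, hx x hxV hxW, hs (some ⟨⟨x, hxV⟩, hxW⟩)⟩

namespace Fam

variable (F : Fam W A B)

theorem exists_val {V : X.Opens} (s : Γ(js W A, V)) : ∃ t : Γ(B, V), t ∈ (supU B W).car V ∧
    rs B inf_le_left t = F.f (V ⊓ W) inf_le_right (rs A inf_le_left (ap (jsI W A) V s)) := by
  refine exists_sup _ fun x hx hxW => ?_
  obtain ⟨V', hV', hxV', h0⟩ := (supU A W).ι_mem s x hx hxW
  refine ⟨V', hV', hxV', ?_⟩
  have h1 : rs A (inf_le_inf_right W hV' : V' ⊓ W ≤ V ⊓ W)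
      (rs A inf_le_left (ap (jsI W A) V s)) = 0 := by
    have h2 := congrArg (rs A (inf_le_left : V' ⊓ W ≤ V')) h0
    rw [map_zero, rs_rs] at h2
    rw [rs_rs]
    exact h2
  have h3 := F.f_rs (inf_le_right : V ⊓ W ≤ W) (inf_le_inf_right W hV' : V' ⊓ W ≤ V ⊓ W)
    (rs A inf_le_left (ap (jsI W A) V s))
  rw [← h3, h1, map_zero]

/-- the value on a section -/
noncomputable def val {V : X.Opens} (s : Γ(js W A, V)) : Γ(B, V) := (F.exists_val s).choose

theorem val_mem {V : X.Opens} (s : Γ(js W A, V)) : F.val s ∈ (supU B W).car V :=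
  (F.exists_val s).choose_spec.1

theorem rs_val {V : X.Opens} (s : Γ(js W A, V)) : rs B inf_le_left (F.val s) =
    F.f (V ⊓ W) inf_le_right (rs A inf_le_left (ap (jsI W A) V s)) :=
  (F.exists_val s).choose_spec.2

theorem val_eq {V : X.Opens} {s : Γ(js W A, V)} {t : Γ(B, V)} (ht : t ∈ (supU B W).car V)
    (h : rs B inf_le_left t =
      F.f (V ⊓ W) inf_le_right (rs A inf_le_left (ap (jsI W A) V s))) : F.val s = t :=
  sup_ext (F.val_mem s) ht (by rw [F.rs_val, h])

/-- the morphism `js W A ⟶ B` given by a family of maps -/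
noncomputable def hom : js W A ⟶ B :=
  homMk' (M := js W A) (N := B)
    (fun V => ({ toFun := fun s => F.val s
                 map_zero' := F.val_eq (Submodule.zero_mem _) (by simp)
                 map_add' := fun a b => F.val_eq (Submodule.add_mem _ (F.val_mem a) (F.val_mem b))
                  (by rw [map_add, F.rs_val, F.rs_val, map_add, map_add, map_add]) } :
      Γ(js W A, V) →+ Γ(B, V)))
    (fun V r s => F.val_eq (Submodule.smul_mem _ r (F.val_mem s)) (by
      change rs B _ (r • F.val s) = _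
      rw [rs_smul, F.rs_val, ap_smul, rs_smul, F.f_smul]))
    (fun {V V'} h s => F.val_eq ((supU B W).res h _ (F.val_mem s)) (by
      have h1 := F.f_rs (inf_le_right : V ⊓ W ≤ W) (inf_le_inf_right W h : V' ⊓ W ≤ V ⊓ W)
        (rs A inf_le_left (ap (jsI W A) V s))
      rw [← F.rs_val s, rs_rs, rs_rs] at h1
      rw [rs_rs, ap_rs, rs_rs]
      exact h1.symm))

theorem ap_hom {V : X.Opens} (hV : V ≤ W) (s : Γ(A, V)) :
    ap F.hom V (sec hV s) = F.f V hV s := by
  refine F.val_eq (mem_supU_of_le hV _) ?_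
  rw [jsI_sec]
  exact (F.f_rs hV (inf_le_left : V ⊓ W ≤ V) s).symm

/-- the local morphism given by a family of maps -/
noncomputable def toHom : js W A ⟶ js W B := fac F.hom

theorem ap_toHom {V : X.Opens} (hV : V ≤ W) (s : Γ(A, V)) :
    ap F.toHom V (sec hV s) = sec hV (F.f V hV s) := by
  apply SubSh.ι_injective
  rw [jsI_sec, ← F.ap_hom hV s, ← ap_comp, toHom, fac_ι]

/-- the family of a local morphism -/
noncomputable def ofHom (φ : js W A ⟶ B) : Fam W A B where
  f V hV :=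
    { toFun := fun s => ap φ V (sec hV s)
      map_zero' := by
        rw [← map_zero (ap φ V)]
        rfl
      map_add' := fun a b => by
        rw [← map_add]
        rfl }
  f_smul V hV r s := by
    change ap φ V (sec hV (r • s)) = r • ap φ V (sec hV s)
    rw [← ap_smul]
    rfl
  f_rs {_ V'} hV h s := by
    change ap φ V' (sec _ (rs A h s)) = rs B h (ap φ _ (sec hV s))
    rw [← ap_rs]
    rfl

theorem hom_ofHom (φ : js W A ⟶ B) : (ofHom φ).hom = φ :=
  js_ext fun V hV s => (ofHom φ).ap_hom hV s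

end Fam

/-- local morphisms are determined by the sections over the open subsets of `W` -/
theorem js_ext' {φ ψ : js W A ⟶ js W B} (h : ∀ (V : X.Opens) (hV : V ≤ W) (s : Γ(A, V)),
    ap φ V (sec hV s) = ap ψ V (sec hV s)) : φ = ψ := js_ext h

end Orl.Br
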