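import Pool.Agent.Work.MP_a6e60d_ag.Br.Loc
import Pool.Agent.Work.MP_f714fc_ag.Tw.TwSec
import Pool.Agent.Work.MP_f714fc_ag.Tw.Local

/-!
# Local morphisms: multiplication by functions, isomorphisms, trivialisations of twists
-/

open CategoryTheory Limits TopologicalSpace AlgebraicGeometry Opposite

attribute [-instance] CategoryTheory.catToReflQuiver

universe u

namespace Orl.Br

open Fdim

variable {X : Scheme.{u}} {W W' : X.Opens} {A B C : X.Modules}

/-! ### Multiplication by functions -/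

/-- multiplication by a function on `W` -/
noncomputable def mulFam (f : Γ(X, W)) (A : X.Modules) : Fam W A A where
  f V hV := DistribSMul.toAddMonoidHom Γ(A, V) (rO hV f : Γ(X, V))
  f_smul V hV r s := by
    simp only [DistribSMul.toAddMonoidHom_apply]
    rw [smul_comm]
  f_rs hV h s := by
    simp only [DistribSMul.toAddMonoidHom_apply, rs_smul, rO_rO]

/-- multiplication by a function on `W` -/
noncomputable def mulW (f : Γ(X, W)) (A : X.Modules) : js W A ⟶ js W A := (mulFam f A).toHom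

theorem ap_mulW_sec (f : Γ(X, W)) {V : X.Opens} (hV : V ≤ W) (s : Γ(A, V)) :
    ap (mulW f A) V (sec hV s) = sec hV (rO hV f • s) :=
  (mulFam f A).ap_toHom hV s

theorem smul_sec {V : X.Opens} (hV : V ≤ W) (r : Γ(X, V)) (s : Γ(A, V)) :
    r • sec hV s = (sec hV (r • s) : Γ(js W A, V)) := rfl

theorem add_sec {V : X.Opens} (hV : V ≤ W) (s t : Γ(A, V)) :
    sec hV s + sec hV t = (sec hV (s + t) : Γ(js W A, V)) := rfl

theorem ap_mulW (f : Γ(X, W)) {V : X.Opens} (hV : V ≤ W) (s : Γ(js W A, V)) :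
    ap (mulW f A) V s = rO hV f • s :=
  ap_mulW_sec f hV (ap (jsI W A) V s)

@[simp] theorem mulW_one (A : X.Modules) : mulW (1 : Γ(X, W)) A = 𝟙 _ :=
  js_ext' fun V hV s => by
    rw [ap_mulW_sec, map_one, one_smul, ap_id]

theorem mulW_mul (f g : Γ(X, W)) (A : X.Modules) : mulW (f * g) A = mulW f A ≫ mulW g A :=
  js_ext' fun V hV s => by
    rw [ap_comp, ap_mulW_sec, ap_mulW_sec, ap_mulW_sec, map_mul, mul_comm, mul_smul]

theorem mulW_add (f g : Γ(X, W)) (A : X.Modules) : mulW (f + g) A = mulW f A + mulW g A :=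
  js_ext' fun V hV s => by
    rw [ap_mulW_sec, map_add, add_smul]
    change _ = ap (mulW f A) V (sec hV s) + ap (mulW g A) V (sec hV s)
    rw [ap_mulW_sec, ap_mulW_sec]
    rfl

@[simp] theorem mulW_zero (A : X.Modules) : mulW (0 : Γ(X, W)) A = 0 := by
  have h := mulW_add (0 : Γ(X, W)) 0 A
  rw [add_zero] at h
  exact left_eq_add.1 h

/-- functions commute with local morphisms -/
theorem mulW_central (f : Γ(X, W)) (φ : js W A ⟶ js W B) :
    mulW f A ≫ φ = φ ≫ mulW f B :=
  js_ext' fun V hV s => by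
    rw [ap_comp, ap_comp, ap_mulW f hV, ap_mulW f hV, ap_smul]

theorem mulW_central' (f : Γ(X, W)) (φ : js W A ⟶ B) {V : X.Opens} (hV : V ≤ W)
    (s : Γ(js W A, V)) : ap (mulW f A ≫ φ) V s = rO hV f • ap φ V s := by
  rw [ap_comp, ap_mulW f hV, ap_smul]

theorem rst_mulW (h : W' ≤ W) (f : Γ(X, W)) (A : X.Modules) :
    rst h (mulW f A) = mulW (rO h f) A :=
  rst_unique h (js_ext fun V hV s => by
    rw [ap_comp, ap_comp, ap_jsIncl, ap_mulW_sec, ap_mulW_sec, ap_jsIncl, rO_rO])

theorem jsIncl_mulW (h : W' ≤ W) (f : Γ(X, W)) (A : X.Modules) :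
    jsIncl h A ≫ mulW f A = mulW (rO h f) A ≫ jsIncl h A := by
  rw [jsIncl_rst, rst_mulW]

theorem mulW_scal {k : Type u} [CommRing k] [X.Over (Spec (.of k))] (a : k) (A : X.Modules) :
    mulW (rO le_top (scal k X a) : Γ(X, W)) A = a • 𝟙 _ :=
  js_ext' fun V hV s => by
    rw [ap_mulW _ hV, ap_linear, ap_id, rO_rO]

theorem mulW_smul {k : Type u} [CommRing k] [X.Over (Spec (.of k))] (a : k) (f : Γ(X, W))
    (A : X.Modules) : mulW ((rO le_top (scal k X a) : Γ(X, W)) * f) A = a • mulW f A := by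
  rw [mulW_mul, mulW_scal, Linear.smul_comp, Category.id_comp]

/-- functions act on local morphisms -/
noncomputable def mulHomW (W : X.Opens) (A : X.Modules) : Γ(X, W) →+* End (js W A) where
  toFun f := mulW f A
  map_one' := mulW_one A
  map_zero' := mulW_zero A
  map_mul' f g := by
    rw [mul_comm]
    exact mulW_mul g f A
  map_add' f g := mulW_add f g A

@[simp] theorem mulHomW_apply (f : Γ(X, W)) : mulHomW W A f = mulW f A := rfl

/-- multiplication by a unit is an isomorphism -/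
theorem isIso_mulW {f : Γ(X, W)} (hf : IsUnit f) (A : X.Modules) : IsIso (mulW f A) := by
  obtain ⟨u, rfl⟩ := hf
  refine ⟨mulW (↑u⁻¹ : Γ(X, W)) A, ?_, ?_⟩
  · rw [← mulW_mul, Units.mul_inv, mulW_one]
  · rw [← mulW_mul, Units.inv_mul, mulW_one]

/-! ### Isomorphisms -/

/-- inverse families give an isomorphism -/
noncomputable def isoOfFam (F : Fam W A B) (G : Fam W B A)
    (h : ∀ (V : X.Opens) (hV : V ≤ W) (s : Γ(A, V)), G.f V hV (F.f V hV s) = s)
    (h' : ∀ (V : X.Opens) (hV : V ≤ W) (s : Γ(B, V)), F.f V hV (G.f V hV s) = s) :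
    js W A ≅ js W B where
  hom := F.toHom
  inv := G.toHom
  hom_inv_id := js_ext' fun V hV s => by
    rw [ap_comp, Fam.ap_toHom, Fam.ap_toHom, h, ap_id]
  inv_hom_id := js_ext' fun V hV s => by
    rw [ap_comp, Fam.ap_toHom, Fam.ap_toHom, h', ap_id]

namespace Fam

variable (F : Fam W A B)

/-- a family of bijective maps gives an isomorphism -/
theorem isIso_toHom (h : ∀ (V : X.Opens) (hV : V ≤ W), Function.Bijective (F.f V hV)) :
    IsIso F.toHom := by
  let e : ∀ (V : X.Opens) (_ : V ≤ W), Γ(A, V) ≃+ Γ(B, V) := fun V hV =>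
    AddEquiv.ofBijective (F.f V hV) (h V hV)
  have he : ∀ (V : X.Opens) (hV : V ≤ W) (s : Γ(A, V)), e V hV s = F.f V hV s :=
    fun _ _ _ => rfl
  let G : Fam W B A :=
    { f := fun V hV => (e V hV).symm.toAddMonoidHom
      f_smul := fun V hV r s => by
        apply (e V hV).injective
        change e V hV ((e V hV).symm (r • s)) = e V hV (r • (e V hV).symm s)
        rw [AddEquiv.apply_symm_apply, he, F.f_smul, ← he, AddEquiv.apply_symm_apply]
      f_rs := fun {V V'} hV hh s => by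
        apply (e V' (hh.trans hV)).injective
        change e V' (hh.trans hV) ((e V' (hh.trans hV)).symm (rs B hh s)) =
          e V' (hh.trans hV) (rs A hh ((e V hV).symm s))
        rw [AddEquiv.apply_symm_apply, he, F.f_rs hV hh, ← he, AddEquiv.apply_symm_apply] }
  exact (isoOfFam F G (fun V hV s => (e V hV).symm_apply_apply s)
    (fun V hV s => (e V hV).apply_symm_apply s)).isIso_hom

/-- bijectivity may be checked over the members of a cover -/
theorem bijective_of_cover {κ : Type u} {Z : κ → X.Opens} (hZ : W ≤ ⨆ i, Z i)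
    (h : ∀ (i : κ) (V : X.Opens) (_ : V ≤ Z i) (hV : V ≤ W), Function.Bijective (F.f V hV))
    (V : X.Opens) (hV : V ≤ W) : Function.Bijective (F.f V hV) := by
  have cov : V ≤ ⨆ i, V ⊓ Z i := by
    rw [← inf_iSup_eq]
    exact le_inf le_rfl (hV.trans hZ)
  constructor
  · intro s t hst
    apply sec_ext A (U := fun i => V ⊓ Z i) (fun _ => inf_le_left) cov
    intro i
    apply (h i _ inf_le_right (inf_le_left.trans hV)).1
    rw [F.f_rs hV, F.f_rs hV, hst]
  · intro t
    have h1 : ∀ i, ∃ s : Γ(A, V ⊓ Z i),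
        F.f (V ⊓ Z i) (inf_le_left.trans hV) s = rs B inf_le_left t :=
      fun i => (h i _ inf_le_right (inf_le_left.trans hV)).2 _
    choose s hs using h1
    obtain ⟨s', hs'⟩ := exists_glue A (V := V) (U := fun i => V ⊓ Z i)
      (fun _ => inf_le_left) cov s (by
        intro i j
        apply (h i _ (inf_le_left.trans inf_le_right)
          ((inf_le_left.trans inf_le_left).trans hV)).1
        rw [F.f_rs (inf_le_left.trans hV) inf_le_left,
          F.f_rs (inf_le_left.trans hV) inf_le_right, hs, hs, rs_rs, rs_rs])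
    refine ⟨s', ?_⟩
    apply sec_ext B (U := fun i => V ⊓ Z i) (fun _ => inf_le_left) cov
    intro i
    rw [← hs i, ← hs' i, F.f_rs hV]

/-- a family of maps which are bijective over the members of a cover gives an isomorphism -/
theorem isIso_toHom_of_cover {κ : Type u} {Z : κ → X.Opens} (hZ : W ≤ ⨆ i, Z i)
    (h : ∀ (i : κ) (V : X.Opens) (_ : V ≤ Z i) (hV : V ≤ W), Function.Bijective (F.f V hV)) :
    IsIso F.toHom :=
  F.isIso_toHom (F.bijective_of_cover hZ h)

/-- composition of families -/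
noncomputable def comp (G : Fam W B C) : Fam W A C where
  f V hV := (G.f V hV).comp (F.f V hV)
  f_smul V hV r s := by
    simp only [AddMonoidHom.comp_apply, F.f_smul, G.f_smul]
  f_rs hV h s := by
    simp only [AddMonoidHom.comp_apply, F.f_rs hV h, G.f_rs hV h]

theorem toHom_comp (G : Fam W B C) : (F.comp G).toHom = F.toHom ≫ G.toHom :=
  js_ext' fun V hV s => by
    rw [ap_comp, ap_toHom, ap_toHom, ap_toHom]
    rfl

end Fam

/-- a local morphism with bijective maps over the members of a cover is an isomorphism -/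
theorem isIso_fac_of_cover {κ : Type u} {Z : κ → X.Opens} (hZ : W ≤ ⨆ i, Z i)
    (φ : js W A ⟶ B)
    (h : ∀ (i : κ) (V : X.Opens) (_ : V ≤ Z i) (hV : V ≤ W),
      Function.Bijective fun s : Γ(A, V) => ap φ V (sec hV s)) : IsIso (fac φ) := by
  have h1 : fac φ = (Fam.ofHom φ).toHom := by
    rw [Fam.toHom, Fam.hom_ofHom]
  rw [h1]
  exact (Fam.ofHom φ).isIso_toHom_of_cover hZ h

/-- a local morphism with bijective maps over the open subsets of `W` is an isomorphism -/
theorem isIso_fac (φ : js W A ⟶ B)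
    (h : ∀ (V : X.Opens) (hV : V ≤ W),
      Function.Bijective fun s : Γ(A, V) => ap φ V (sec hV s)) : IsIso (fac φ) := by
  have h1 : fac φ = (Fam.ofHom φ).toHom := by
    rw [Fam.toHom, Fam.hom_ofHom]
  rw [h1]
  exact (Fam.ofHom φ).isIso_toHom h

/-! ### Trivialisations of twists -/

section Tw

variable {ι : Type u} {U : ι → X.Opens} {g h k : Coc U}

open Coc

/-- the product of a section with a section over `W` of the twist of the structure sheaf -/
noncomputable def secApp (σ : Γ((tw g).obj (OO X), W)) {V : X.Opens} (hV : V ≤ W)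
    (s : Γ(A, V)) : Γ((tw g).obj A, V) :=
  tmk (fun i => sv σ i (inf_le_left.trans hV) inf_le_right •
    rs A (inf_le_left : V ⊓ U i ≤ V) s) (by
      intro i j V' hV' hi hj
      rw [rs_smul, rs_smul, rO_sv, rO_sv, rs_rs, rs_rs, sv_eq σ i j (hV'.trans hV) hi hj,
        mul_smul])

theorem tev_secApp (σ : Γ((tw g).obj (OO X), W)) {V V' : X.Opens} (hV : V ≤ W)
    (s : Γ(A, V)) (i : ι) (hV' : V' ≤ V) (hi : V' ≤ U i) :
    tev (secApp σ hV s) i hV' hi = sv σ i (hV'.trans hV) hi • rs A hV' s := by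
  rw [secApp, tev_tmk, rs_smul, rO_sv, rs_rs]

/-- multiplication by a section over `W` of the twist of the structure sheaf -/
noncomputable def secFam (σ : Γ((tw g).obj (OO X), W)) (A : X.Modules) :
    Fam W A ((tw g).obj A) where
  f V hV :=
    { toFun := fun s => secApp σ hV s
      map_zero' := text (fun i => by rw [tev_secApp, map_zero, smul_zero, tev_zero])
      map_add' := fun s t => text (fun i => by
        rw [tev_secApp, map_add, smul_add, tev_add, tev_secApp, tev_secApp]) }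
  f_smul V hV r s := text (fun i => by
    change tev (secApp σ hV (r • s)) i _ _ = tev (r • secApp σ hV s) i _ _
    rw [tev_secApp, tev_smul, tev_secApp, rs_smul, smul_comm])
  f_rs {V V'} hV hh s := text (fun i => by
    change tev (secApp σ (hh.trans hV) (rs A hh s)) i _ _ = tev (rs _ hh (secApp σ hV s)) i _ _
    rw [tev_secApp, tev_rs, tev_secApp, rs_rs])

theorem tev_secFam (σ : Γ((tw g).obj (OO X), W)) {V V' : X.Opens} (hV : V ≤ W)
    (s : Γ(A, V)) (i : ι) (hV' : V' ≤ V) (hi : V' ≤ U i) :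
    tev ((secFam σ A).f V hV s) i hV' hi = sv σ i (hV'.trans hV) hi • rs A hV' s :=
  tev_secApp σ hV s i hV' hi

/-- multiplication by a section over `W` of the twist of the structure sheaf -/
noncomputable def secW (σ : Γ((tw g).obj (OO X), W)) (A : X.Modules) :
    js W A ⟶ (tw g).obj A := (secFam σ A).hom

theorem ap_secW (σ : Γ((tw g).obj (OO X), W)) {V : X.Opens} (hV : V ≤ W) (s : Γ(A, V)) :
    ap (secW σ A) V (sec hV s) = (secFam σ A).f V hV s :=
  (secFam σ A).ap_hom hV s

theorem tev_secW (σ : Γ((tw g).obj (OO X), W)) {V V' : X.Opens} (hV : V ≤ W)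
    (s : Γ(A, V)) (i : ι) (hV' : V' ≤ V) (hi : V' ≤ U i) :
    tev (ap (secW σ A) V (sec hV s)) i hV' hi = sv σ i (hV'.trans hV) hi • rs A hV' s := by
  rw [ap_secW, tev_secFam]

/-- morphisms `js W A ⟶ tw g B` are determined by the components over small open sets -/
theorem js_text {φ ψ : js W A ⟶ (tw g).obj B}
    (H : ∀ (i : ι) (V : X.Opens) (hV : V ≤ W) (hi : V ≤ U i) (s : Γ(A, V)),
      tev (ap φ V (sec hV s)) i le_rfl hi = tev (ap ψ V (sec hV s)) i le_rfl hi) : φ = ψ :=
  js_ext fun V hV s => text fun i => by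
    have h1 := H i (V ⊓ U i) (inf_le_left.trans hV) inf_le_right (rs A inf_le_left s)
    rw [← sec_rs hV, ap_rs, ap_rs, tev_rs, tev_rs] at h1
    exact h1

theorem secW_naturality (σ : Γ((tw g).obj (OO X), W)) (f : A ⟶ B) :
    jsMap W f ≫ secW σ B = secW σ A ≫ (tw g).map f :=
  js_text fun i V hV hi s => by
    rw [ap_comp, ap_comp, ap_jsMap, tev_secW, tev_map, tev_secW, ap_smul, rs_self, rs_self]

/-- a section of the twist is a frame over `W` -/
def IsFrame (σ : Γ((tw g).obj (OO X), W)) : Prop :=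
  ∀ (i : ι), IsUnit (sv σ i (inf_le_left : W ⊓ U i ≤ W) inf_le_right)

theorem IsFrame.isUnit {σ : Γ((tw g).obj (OO X), W)} (hσ : IsFrame σ) (i : ι) {V : X.Opens}
    (hV : V ≤ W) (hi : V ≤ U i) : IsUnit (sv σ i hV hi) := by
  have h1 := (hσ i).map (rO (le_inf hV hi))
  rw [rO_sv] at h1
  exact h1

/-- a frame trivialises the twist over `W` -/
theorem isIso_fac_secW {σ : Γ((tw g).obj (OO X), W)} (hσ : IsFrame σ) (hW : W ≤ ⨆ i, U i)
    (A : X.Modules) : IsIso (fac (secW σ A)) := by
  refine isIso_fac_of_cover hW _ fun i V hi hV => ?_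
  have e1 : (fun s : Γ(A, V) => ap (secW σ A) V (sec hV s)) =
      (tevL g A i hi).symm ∘ fun s => sv σ i hV hi • s := by
    funext s
    apply (tevL g A i hi).injective
    rw [Function.comp_apply, LinearEquiv.apply_symm_apply, tevL_apply, tev_secW, rs_self]
  rw [e1]
  refine (tevL g A i hi).symm.bijective.comp ?_
  obtain ⟨u, hu⟩ := hσ.isUnit i hV hi
  rw [← hu]
  exact ⟨fun s t hst => by
    have := congrArg (fun x => (↑u⁻¹ : Γ(X, V)) • x) hst
    simpa [smul_smul] using this, fun t => ⟨(↑u⁻¹ : Γ(X, V)) • t, by simp [smul_smul]⟩⟩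

/-- change of the section over a smaller open set -/
theorem jsIncl_secW {W₁ W₂ : X.Opens} (h₁ : W ≤ W₁) (h₂ : W ≤ W₂)
    (σ : Γ((tw g).obj (OO X), W₁)) (τ : Γ((tw g).obj (OO X), W₂)) (f : Γ(X, W))
    (H : rs _ h₂ τ = f • rs _ h₁ σ) (A : X.Modules) :
    jsIncl h₂ A ≫ secW τ A = mulW f A ≫ jsIncl h₁ A ≫ secW σ A :=
  js_text fun i V hV hi s => by
    rw [ap_comp, ap_comp, ap_comp, ap_mulW_sec, ap_jsIncl, ap_jsIncl, tev_secW, tev_secW,
      rs_self, rs_self, smul_smul]
    have h1 := congrArg (fun x => sv x i hV hi) H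
    beta_reduce at h1
    rw [sv_rs, sv_smul, sv_rs] at h1
    rw [h1, mul_comm]

/-- the frame given by units `u i` with `u i = g i j * u j` -/
noncomputable def mkFrame (u : ∀ i, Γ(X, W ⊓ U i))
    (H : ∀ i j, rO (inf_le_inf_left W inf_le_left : W ⊓ (U i ⊓ U j) ≤ W ⊓ U i) (u i) =
      g.v i j (inf_le_right.trans inf_le_left : W ⊓ (U i ⊓ U j) ≤ U i)
        (inf_le_right.trans inf_le_right : W ⊓ (U i ⊓ U j) ≤ U j) *
      rO (inf_le_inf_left W inf_le_right : W ⊓ (U i ⊓ U j) ≤ W ⊓ U j) (u j)) :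
    Γ((tw g).obj (OO X), W) :=
  tmk (g := g) (M := OO X) u (fun i j V hV hi hj => by
    have h1 := congrArg (fun x => rO (le_inf hV (le_inf hi hj)) x) (H i j)
    beta_reduce at h1
    rw [map_mul, rO_rO, rO_rO, rO_v] at h1
    exact h1)

theorem sv_mkFrame (u : ∀ i, Γ(X, W ⊓ U i))
    (H : ∀ i j, rO (inf_le_inf_left W inf_le_left : W ⊓ (U i ⊓ U j) ≤ W ⊓ U i) (u i) =
      g.v i j (inf_le_right.trans inf_le_left : W ⊓ (U i ⊓ U j) ≤ U i)
        (inf_le_right.trans inf_le_right : W ⊓ (U i ⊓ U j) ≤ U j) *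
      rO (inf_le_inf_left W inf_le_right : W ⊓ (U i ⊓ U j) ≤ W ⊓ U j) (u j)) (i : ι)
    {V : X.Opens} (hV : V ≤ W) (hi : V ≤ U i) :
    sv (mkFrame u H) i hV hi = rO (le_inf hV hi) (u i) := rfl

/-- over a member of the cover the twist has a frame -/
noncomputable def chartFrame (g : Coc U) (i : ι) (hi : W ≤ U i) :
    Γ((tw g).obj (OO X), W) := tinv g (OO X) i hi (1 : Γ(X, W))

theorem sv_chartFrame (i : ι) (hi : W ≤ U i) (j : ι) {V : X.Opens} (hV : V ≤ W)
    (hj : V ≤ U j) : sv (chartFrame g i hi) j hV hj = g.v j i hj (hV.trans hi) := by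
  refine (tev_tinv (M := OO X) i j hi (1 : Γ(X, W)) hV hj).trans ?_
  change g.v j i hj (hV.trans hi) * rO hV (1 : Γ(X, W)) = _
  rw [map_one, mul_one]

theorem isFrame_chartFrame (g : Coc U) (i : ι) (hi : W ≤ U i) :
    IsFrame (chartFrame g i hi) := fun j => by
  rw [sv_chartFrame]
  exact IsUnit.of_mul_eq_one _ (g.v_swap _ _ _ _)

end Tw

end Orl.Br
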