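import Pool.Agent.Work.MP_a6e60d_ag.Br.PhiU
import Pool.Agent.Work.MP_a6e60d_ag.Br.Loc

/-!
# The Mayer-Vietoris datum of a scheme covered by two open sets
-/

open CategoryTheory Limits TopologicalSpace AlgebraicGeometry Opposite

attribute [-instance] CategoryTheory.catToReflQuiver

namespace Orl.Br

open Fdim Orl.Q

universe u

section gen

variable {X : Scheme.{u}} {W W' : X.Opens} {B c : X.Modules}

/-- morphisms out of `js W' B` factor through `js W c` for `W' ≤ W` -/
theorem existsUnique_fac (h : W' ≤ W) (f : js W' B ⟶ c) :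
    ∃! f' : js W' B ⟶ js W c, f' ≫ jsI W c = f := by
  refine ⟨fac f ≫ jsIncl h c, ?_, fun g hg => ?_⟩
  · change (fac f ≫ jsIncl h c) ≫ jsI W c = f
    rw [Category.assoc, jsIncl_ι, fac_ι]
  · rw [← cancel_mono (jsI W c), hg, Category.assoc, jsIncl_ι, fac_ι]

/-- the natural inclusion -/
noncomputable def jsINat (W : X.Opens) : jSh W ⟶ 𝟭 X.Modules where
  app c := jsI W c
  naturality _ _ f := jsMap_ι W f

/-- the natural inclusion -/
noncomputable def jsInclNat (h : W' ≤ W) : jSh W' ⟶ jSh W where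
  app c := jsIncl h c
  naturality _ _ f := jsIncl_natural h f

@[simp] theorem jsINat_app (c : X.Modules) : (jsINat W).app c = jsI W c := rfl

@[simp] theorem jsInclNat_app (h : W' ≤ W) (c : X.Modules) :
    (jsInclNat h).app c = jsIncl h c := rfl

theorem js_mv_zero {U V M : X.Opens} (h1 : M ≤ U) (h2 : M ≤ V) (c : X.Modules) :
    biprod.lift (jsIncl h1 c) (-(jsIncl h2 c)) ≫ biprod.desc (jsI U c) (jsI V c) = 0 := by
  rw [biprod.lift_desc, Preadditive.neg_comp, jsIncl_ι, jsIncl_ι, add_neg_cancel]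

/-- the Mayer-Vietoris sequence -/
theorem js_mv {U V M : X.Opens} (hM : M = U ⊓ V) (hU : U ⊔ V = ⊤) (h1 : M ≤ U) (h2 : M ≤ V)
    (c : X.Modules) :
    (ShortComplex.mk (biprod.lift (jsIncl h1 c) (-(jsIncl h2 c)))
      (biprod.desc (jsI U c) (jsI V c)) (js_mv_zero h1 h2 c)).ShortExact := by
  have hS := SubSh.mv_shortExact (supU c U) (supU c V) (supU c ⊤) (supU c M)
    (supU_mono c le_top) (supU_mono c le_top) (supU_mono c h1) (supU_mono c h2) (by
      intro W s h1 h2 x hx hxU
      by_cases h : x ∈ U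
      · exact h2 x hx fun h' => hxU (by rw [hM]; exact ⟨h, h'⟩)
      · exact h1 x hx h) (by
      intro W s _ x hx
      have hxt : x ∈ U ⊔ V := by rw [hU]; exact trivial
      rcases hxt with h | h
      · exact ⟨W ⊓ U, inf_le_left, ⟨hx, h⟩, Or.inl (mem_supU_of_le inf_le_right _)⟩
      · exact ⟨W ⊓ V, inf_le_left, ⟨hx, h⟩, Or.inr (mem_supU_of_le inf_le_right _)⟩)
  refine ShortComplex.shortExact_of_iso (ShortComplex.isoMk
    (S₁ := SubSh.mv (supU c U) (supU c V) (supU c ⊤) (supU c M)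
      (supU_mono c le_top) (supU_mono c le_top) (supU_mono c h1) (supU_mono c h2))
    (S₂ := ShortComplex.mk (biprod.lift (jsIncl h1 c) (-(jsIncl h2 c)))
      (biprod.desc (jsI U c) (jsI V c)) (js_mv_zero h1 h2 c)) (Iso.refl (js M c)) (Iso.refl (js U c ⊞ js V c))
    (supUTopIso c) ?_ ?_) hS
  · change 𝟙 _ ≫ biprod.lift (jsIncl h1 c) (-(jsIncl h2 c)) = biprod.lift _ _ ≫ 𝟙 _
    rw [Category.id_comp, Category.comp_id]
    rfl
  · change 𝟙 _ ≫ biprod.desc (jsI U c) (jsI V c) = biprod.desc _ _ ≫ (supU c ⊤).ι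
    rw [Category.id_comp]
    apply biprod.hom_ext'
    · rw [biprod.inl_desc, biprod.inl_desc_assoc, SubSh.incl_ι]
    · rw [biprod.inr_desc, biprod.inr_desc_assoc, SubSh.incl_ι]

end gen

variable {k : Type} [Field k] {δ : Dat k} {X : Scheme.{0}} [Linear k X.Modules]

theorem W_le {W : Ch → X.Opens} (hmid : W .mid = W .zero ⊓ W .inf) {v w : Ch} (h : v ≤ w) :
    W w ≤ W v := by
  rcases h with rfl | rfl
  · exact le_rfl
  · cases v
    · rw [hmid]
      exact inf_le_left
    · rw [hmid]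
      exact inf_le_right
    · exact le_rfl

/-- the Mayer-Vietoris datum of a representation on a scheme covered by two open sets -/
noncomputable def mvX (F : TRep δ.tiling X.Modules) (W : Ch → X.Opens)
    (hmid : W .mid = W .zero ⊓ W .inf) (htop : W .zero ⊔ W .inf = ⊤)
    (hF : ∀ s, ∃ B, F.obj s = js (W s.1) B) : MVData F where
  J v := jSh (W v)
  add _ := inferInstance
  ι v := jsINat (W v)
  r v := jsInclNat (W_le hmid (Ch.le_mid v))
  r_ι v c := jsIncl_ι (W_le hmid (Ch.le_mid v)) c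
  mv c := js_mv hmid htop (W_le hmid (Ch.le_mid .zero)) (W_le hmid (Ch.le_mid .inf)) c
  fac v c s hs f := by
    have hle : W s.1 ≤ W v := W_le hmid hs
    obtain ⟨B, hB⟩ := hF s
    revert f
    rw [hB]
    intro f
    exact existsUnique_fac hle f

end Orl.Br
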