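import Pool.Agent.Work.MP_a6e60d_ag.Br.Fin
import Pool.Agent.Work.MP_a6e60d_ag.Br.GlueG
import Pool.Agent.Work.MP_a6e60d_ag.Br.MVX
import Pool.Agent.Work.MP_a6e60d_ag.Perf.Groth
import Pool.Agent.Work.MP_a6e60d_ag.Main.Abs

/-!
MP_a6e60d_ag, bridge: the functor from sheaves of modules on the surface to modules over the tiled
algebra, on the generator `O ⊕ O(1) ⊕ E ⊕ E(1)`.
-/

open CategoryTheory Limits AlgebraicGeometry Abelian CochainComplex HomComplex

attribute [-instance] CategoryTheory.catToReflQuiver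

namespace Orl.Br

open Orl.Q

universe w

noncomputable section

attribute [local instance] CategoryTheory.Abelian.hasFiniteBiproducts

/-- the objects of the tiled algebra side: `O(j)` and `E(j)` -/
def latObj {k : Type} [Field k] (δ : Dat k) : Bool → ℤ → δ.Cat
  | false, j => δ.O j
  | true, j => δ.E j

/-- the four objects `O(0)`, `O(1)`, `E(0)`, `E(1)` -/
def _root_.Orl.Q.Dat.ob {k : Type} [Field k] (δ : Dat k) : Fin 4 → δ.Cat :=
  ![δ.O 0, δ.O 1, δ.E 0, δ.E 1]

/-- the four objects `O(0)`, `O(1)`, `E(0)`, `E(1)` -/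
def ob4 {C : Type*} (c : Bool → ℤ → C) : Fin 4 → C :=
  ![c false 0, c false 1, c true 0, c true 1]

theorem ob4_prop {C : Type*} (c : Bool → ℤ → C) {P : C → Prop} (h : ∀ b j, P (c b j))
    (a : Fin 4) : P (ob4 c a) := by
  fin_cases a
  · exact h _ _
  · exact h _ _
  · exact h _ _
  · exact h _ _

/-- The datum on the scheme: a representation of the quaternion order by extensions by zero over
the two charts and their intersection, and objects `c false j = O(j)`, `c true j = E(j)` for which
the bridge works. -/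
structure XRep {k : Type} [Field k] (δ : Dat k) (X : Scheme.{0})
    [X.Over (Spec (.of k))] [HasExt.{w} X.Modules] where
  /-- the representation -/
  F : TRep δ.tiling X.Modules
  /-- the charts -/
  W : Ch → X.Opens
  hmid : W .mid = W .zero ⊓ W .inf
  htop : W .zero ⊔ W .inf = ⊤
  hF : ∀ s, ∃ B, F.obj s = js (W s.1) B
  /-- the objects -/
  c : Bool → ℤ → X.Modules
  piece : ∀ b j, IsPiece.{w} (mvX F W hmid htop hF) (c b j)
  /-- the images of the objects -/
  iso : ∀ b j, F.functor.obj (c b j) ≅ latObj δ b j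

namespace XRep

variable {k : Type} [Field k] {δ : Dat k} {X : Scheme.{0}} [X.Over (Spec (.of k))]
  [HasExt.{w} X.Modules] (x : XRep.{w} δ X)

/-- the functor -/
abbrev Φ : X.Modules ⥤ δ.Cat := x.F.functor

/-- the Mayer-Vietoris datum -/
abbrev mvd : MVData x.F := mvX x.F x.W x.hmid x.htop x.hF

/-- the four objects -/
abbrev ob : Fin 4 → X.Modules := ob4 x.c

/-- the generator `O ⊕ O(1) ⊕ E ⊕ E(1)` -/
abbrev G : X.Modules := sumG x.ob

theorem isPiece_ob (a : Fin 4) : IsPiece.{w} x.mvd (x.ob a) := ob4_prop x.c x.piece a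

theorem isPiece_G : IsPiece.{w} x.mvd x.G :=
  IsPiece.of_retract (c := x.ob) x.isPiece_ob (inG x.ob) (prG x.ob) (sum_prG_inG x.ob)

/-- the images of the four objects -/
def isoOb : ∀ a : Fin 4, x.Φ.obj (x.ob a) ≅ δ.ob a
  | 0 => x.iso false 0
  | 1 => x.iso false 1
  | 2 => x.iso true 0
  | 3 => x.iso true 1

/-- the image of the generator -/
def phiG : x.Φ.obj x.G ≅ sumG δ.ob :=
  x.Φ.mapBiproduct x.ob ≪≫ biproduct.mapIso x.isoOb

theorem quasiIso {I : CochainComplex X.Modules ℤ} [I.IsKInjective]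
    (ε : (CochainComplex.singleFunctor X.Modules 0).obj x.G ⟶ I) [QuasiIso ε] :
    QuasiIso ((x.Φ.mapHomologicalComplex (ComplexShape.up ℤ)).map ε) :=
  x.isPiece_G.quasiIso ε

/-- **The bridge.** -/
theorem bridge {I I₁ I₂ : CochainComplex X.Modules ℤ} [I.IsKInjective]
    (ε : (CochainComplex.singleFunctor X.Modules 0).obj x.G ⟶ I) [QuasiIso ε]
    (h₁ : DGCat.Thick (A := cxDG k X.Modules) I I₁) [I₂.IsKInjective]
    {J : CochainComplex δ.Cat ℤ} [J.IsKInjective]
    (q : (x.Φ.mapHomologicalComplex _).obj I₂ ⟶ J) [QuasiIso q] :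
    QIso (mixl (mapDG (k := k) x.Φ) (a := I₂) (b := J) (Cochain.ofHom q) I₁) :=
  x.isPiece_G.bridge ε h₁ q

/-- the bridge in the form of the final assembly -/
theorem toBridge : Main.Bridge (k := k) x.Φ x.G where
  acyc I _ ε _ := by
    let ε' : (CochainComplex.singleFunctor X.Modules 0).obj x.G ⟶ I := ε
    have : QuasiIso ε' := (inferInstance : QuasiIso ε)
    exact x.quasiIso ε'
  qIso I _ ε _ J _ q _ := by
    let ε' : (CochainComplex.singleFunctor X.Modules 0).obj x.G ⟶ I := ε
    have : QuasiIso ε' := (inferInstance : QuasiIso ε)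
    exact x.bridge ε' .gen q

end XRep

end

end Orl.Br
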