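import Pool.Agent.Work.MP_a6e60d_ag.Br.TRep
import Pool.Agent.Work.MP_a6e60d_ag.Q.Order
import Mathlib.Algebra.Category.ModuleCat.Algebra
import Mathlib.CategoryTheory.Linear.LinearFunctor
import Mathlib.Algebra.Homology.ShortComplex.ModuleCat

/-!
MP_a6e60d_ag, bridge: the subfunctors of `Φ` given by sets of vertices which are closed under the
arrows, and the Mayer-Vietoris sequence of the two charts of the projective line.
-/

open CategoryTheory Limits

attribute [-instance] CategoryTheory.catToReflQuiver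

set_option linter.unusedSectionVars false

namespace Orl.Br

open Orl.Q

universe u

section Gen

variable {k D V : Type} [Field k] [Ring D] [Algebra k D] [Fintype V] [DecidableEq V]

/-- a set of vertices closed under the arrows -/
structure UpSet (T : Tiling k D V) where
  /-- the vertices -/
  mem : V → Prop
  up : ∀ {s t : V}, mem t → ¬ mem s → ∀ x ∈ T.L s t, x = 0

variable {T : Tiling k D V} {A : Type u} [Category.{0} A] [Preadditive A] [Linear k A]
  (F : TRep T A)

instance : F.functor.Linear k where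
  map_smul {M N} f c := ModuleCat.hom_ext (LinearMap.ext fun x => funext fun s => by
    change F.toEl x s ≫ (c • f) = ((algebraMap k T.Alg c) • (F.elMap f x)) s
    rw [Linear.comp_smul, algebraMap_smul]
    rfl)

/-- the families which vanish outside of `U` -/
def TRep.subU (U : UpSet T) (M : A) : Submodule T.Alg (F.El M) where
  carrier := {x | ∀ s, ¬ U.mem s → x s = 0}
  zero_mem' _ _ := rfl
  add_mem' {x y} hx hy s hs := by
    rw [TRep.add_apply, hx s hs, hy s hs, add_zero]
  smul_mem' B x hx s hs := by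
    rw [TRep.smul_apply]
    refine Finset.sum_eq_zero fun t _ => ?_
    by_cases ht : U.mem t
    · have h : (⟨B.1 s t, B.2 s t⟩ : T.L s t) = 0 := Subtype.ext (U.up ht hs _ (B.2 s t))
      rw [TRep.ent, h, map_zero, zero_comp]
    · rw [hx t ht, comp_zero]

variable {F} in
theorem TRep.mem_subU {U : UpSet T} {M : A} {x : F.El M} :
    x ∈ F.subU U M ↔ ∀ s, ¬ U.mem s → x s = 0 := Iff.rfl

/-- The subfunctor of `Φ` of the families which vanish outside of `U`. -/
def TRep.phiU (U : UpSet T) : A ⥤ ModuleCat.{0} T.Alg where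
  obj M := ModuleCat.of T.Alg (F.subU U M)
  map f := ModuleCat.ofHom ((F.elMap f).restrict 
    fun x hx s hs => by rw [TRep.elMap_apply, hx s hs, zero_comp])
  map_id M := ModuleCat.hom_ext (LinearMap.ext fun x => Subtype.ext
    (funext fun s => Category.comp_id (x.1 s)))
  map_comp f g := ModuleCat.hom_ext (LinearMap.ext fun x => Subtype.ext (funext fun s =>
    (Category.assoc (x.1 s) f g).symm))

/-- the elements of `Φ_U M` -/
abbrev TRep.toSub {U : UpSet T} {M : A} (x : (F.phiU U).obj M) : F.subU U M := x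

theorem TRep.phiU_map_apply {U : UpSet T} {M N : A} (f : M ⟶ N) (x : (F.phiU U).obj M) (s : V) :
    (F.toSub ((F.phiU U).map f x)).1 s = (F.toSub x).1 s ≫ f := rfl

instance (U : UpSet T) : (F.phiU U).Additive where
  map_add {_ _ f g} := ModuleCat.hom_ext (LinearMap.ext fun x => Subtype.ext (funext fun s =>
    Preadditive.comp_add _ _ _ (x.1 s) f g))

/-- the inclusion of `Φ_U` in `Φ` -/
def TRep.inclU (U : UpSet T) : F.phiU U ⟶ F.functor where
  app M := ModuleCat.ofHom (F.subU U M).subtype
  naturality _ _ _ := rfl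

theorem TRep.inclU_apply (U : UpSet T) {M : A} (x : (F.phiU U).obj M) :
    (F.inclU U).app M x = (F.toSub x).1 := rfl

/-- the inclusion of `Φ_U` in `Φ_U'` -/
def TRep.inclUU {U U' : UpSet T} (h : ∀ s, U.mem s → U'.mem s) : F.phiU U ⟶ F.phiU U' where
  app M := ModuleCat.ofHom (Submodule.inclusion
    (fun _ hx s hs => hx s fun h' => hs (h s h') : F.subU U M ≤ F.subU U' M))
  naturality _ _ _ := rfl

theorem TRep.inclUU_apply {U U' : UpSet T} (h : ∀ s, U.mem s → U'.mem s) {M : A}
    (x : (F.phiU U).obj M) : (F.toSub ((F.inclUU h).app M x)).1 = (F.toSub x).1 := rfl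

theorem TRep.inclUU_inclU {U U' : UpSet T} (h : ∀ s, U.mem s → U'.mem s) :
    F.inclUU h ≫ F.inclU U' = F.inclU U := rfl

theorem TRep.sub_ext {U : UpSet T} {M : A} {x y : (F.phiU U).obj M}
    (h : ∀ s, U.mem s → (F.toSub x).1 s = (F.toSub y).1 s) : x = y := by
  apply Subtype.ext
  funext s
  by_cases hs : U.mem s
  · exact h s hs
  · exact ((F.toSub x).2 s hs).trans ((F.toSub y).2 s hs).symm

/-- Factorisation: every morphism `F.obj s ⟶ c`, `s` in `U`, factors uniquely through
`ι : J c ⟶ c`. -/
def TRep.Fac (U : UpSet T) {W c : A} (ι : W ⟶ c) : Prop :=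
  ∀ s, U.mem s → ∀ f : F.obj s ⟶ c, ∃! f' : F.obj s ⟶ W, f' ≫ ι = f

variable {F} in
open Classical in
/-- the family of the factorisations -/
noncomputable def TRep.Fac.lift {U : UpSet T} {W c : A} {ι : W ⟶ c} (h : F.Fac U ι)
    (x : F.subU U c) : F.El W :=
  fun s => if hs : U.mem s then (h s hs (x.1 s)).choose else 0

variable {F} in
theorem TRep.Fac.lift_ι {U : UpSet T} {W c : A} {ι : W ⟶ c} (h : F.Fac U ι)
    (x : F.subU U c) (s : V) : h.lift x s ≫ ι = x.1 s := by
  unfold TRep.Fac.lift
  split_ifs with hs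
  · exact (h s hs (x.1 s)).choose_spec.1
  · rw [zero_comp, x.2 s hs]

variable {F} in
theorem TRep.Fac.lift_eq_zero {U : UpSet T} {W c : A} {ι : W ⟶ c} (h : F.Fac U ι)
    (x : F.subU U c) {s : V} (hs : ¬ U.mem s) : h.lift x s = 0 := dif_neg hs

variable {F} in
theorem TRep.Fac.uniq {U : UpSet T} {W c : A} {ι : W ⟶ c} (h : F.Fac U ι) {s : V}
    (hs : U.mem s) {f g : F.obj s ⟶ W} (hfg : f ≫ ι = g ≫ ι) : f = g :=
  (h s hs (g ≫ ι)).unique hfg rfl

variable {F} in
theorem TRep.Fac.ext {U : UpSet T} {W c : A} {ι : W ⟶ c} (h : F.Fac U ι) {x y : F.El W}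
    (h₁ : ∀ s, ¬ U.mem s → x s = y s) (h₂ : ∀ s, x s ≫ ι = y s ≫ ι) : x = y := by
  funext s
  by_cases hs : U.mem s
  · exact h.uniq hs (h₂ s)
  · exact h₁ s hs

variable {F} in
/-- the map `Φ_U c ⟶ Φ W` -/
noncomputable def TRep.Fac.hom {U : UpSet T} {W c : A} {ι : W ⟶ c} (h : F.Fac U ι) :
    (F.phiU U).obj c ⟶ F.functor.obj W :=
  ModuleCat.ofHom
    { toFun := h.lift
      map_add' x y := by
        refine h.ext (fun s hs => ?_) fun s => ?_
        · rw [h.lift_eq_zero _ hs, TRep.add_apply, h.lift_eq_zero _ hs, h.lift_eq_zero _ hs,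
            add_zero]
        · rw [h.lift_ι, TRep.add_apply, Preadditive.add_comp, h.lift_ι, h.lift_ι]
          rfl
      map_smul' B x := by
        have hz : ∀ s, ¬ U.mem s → (B • h.lift x) s = 0 := fun s hs => by
          rw [TRep.smul_apply]
          refine Finset.sum_eq_zero fun t _ => ?_
          by_cases ht : U.mem t
          · have h' : (⟨B.1 s t, B.2 s t⟩ : T.L s t) = 0 := Subtype.ext (U.up ht hs _ (B.2 s t))
            rw [TRep.ent, h', map_zero, zero_comp]
          · rw [h.lift_eq_zero x ht, comp_zero]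
        refine h.ext (fun s hs => ?_) fun s => ?_
        · rw [h.lift_eq_zero _ hs, RingHom.id_apply, hz s hs]
        · rw [h.lift_ι, RingHom.id_apply, TRep.smul_apply, Preadditive.sum_comp]
          change ∑ t, F.ent B s t ≫ x.1 t = _
          refine Finset.sum_congr rfl fun t _ => ?_
          rw [Category.assoc, h.lift_ι] }

variable {F} in
theorem TRep.Fac.hom_ι {U : UpSet T} {W c : A} {ι : W ⟶ c} (h : F.Fac U ι) :
    h.hom ≫ F.functor.map ι = (F.inclU U).app c :=
  ModuleCat.hom_ext (LinearMap.ext fun x => funext fun s => h.lift_ι (F.toSub x) s)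

variable {F} in
theorem TRep.Fac.hom_apply {U : UpSet T} {W c : A} {ι : W ⟶ c} (h : F.Fac U ι)
    (x : (F.phiU U).obj c) : F.toEl (h.hom x) = h.lift (F.toSub x) := rfl

end Gen

section MV

variable {k : Type} [Field k] (δ : Dat k)

/-- the vertices over the open subsets of the chart `v` -/
def upCh (v : Ch) : UpSet δ.tiling where
  mem s := v ≤ s.1
  up {s t} ht hs x hx := by
    change x ∈ δ.tile s t at hx
    rw [Dat.tile, if_neg fun h => hs (Ch.le_trans ht h)] at hx
    exact hx

variable {A : Type u} [Category.{0} A] [Abelian A] [Linear k A]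
variable {δ} (F : TRep δ.tiling A)

/-- The datum of the Mayer-Vietoris sequences: functors `J v` (extension by zero from the
chart `v`). -/
structure MVData where
  /-- the functors -/
  J : Ch → A ⥤ A
  [add : ∀ v, (J v).Additive]
  /-- the inclusions -/
  ι : ∀ v, J v ⟶ 𝟭 A
  /-- the restrictions -/
  r : ∀ v, J .mid ⟶ J v
  r_ι : ∀ v c, (r v).app c ≫ (ι v).app c = (ι .mid).app c
  mv : ∀ c, (ShortComplex.mk (biprod.lift ((r .zero).app c) (-(r .inf).app c))
    (biprod.desc ((ι .zero).app c) ((ι .inf).app c))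
    (by rw [biprod.lift_desc, Preadditive.neg_comp, r_ι, r_ι, add_neg_cancel])).ShortExact
  fac : ∀ v c, F.Fac (upCh δ v) ((ι v).app c)

attribute [instance] MVData.add

end MV

end Orl.Br
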