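import Mathlib.Algebra.Homology.ShortComplex.ModuleCat
import Mathlib.Algebra.Homology.QuasiIso
import Mathlib.Algebra.Homology.HomotopyCategory.HomComplex

/-!
MP_a6e60d_ag: quasi-isomorphisms of complexes of modules in terms of elements.
-/

open CategoryTheory Limits HomologicalComplex

universe v u

namespace Orl

variable {A : Type u} [Ring A] {K L : CochainComplex (ModuleCat.{v} A) ℤ}

/-- a cycle as an element of the module of cycles -/
lemma exists_cycle (n : ℤ) (x : K.X n) (hx : K.d n (n + 1) x = 0) :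
    ∃ c : K.cycles n, K.iCycles n c = x := by
  have h : (ShortComplex.mk (K.iCycles n) (K.d n (n + 1)) (by simp)).Exact :=
    ShortComplex.exact_of_f_is_kernel _ (K.cyclesIsKernel n (n + 1) (by simp))
  exact (ShortComplex.moduleCat_exact_iff _).1 h x hx

lemma cycle_d (n m : ℤ) (c : K.cycles n) : K.d n m (K.iCycles n c) = 0 := by
  have := congrArg (fun f => f.hom c) (K.iCycles_d n m)
  exact this

lemma iCycles_inj (n : ℤ) {c c' : K.cycles n} (h : K.iCycles n c = K.iCycles n c') : c = c' :=
  (ModuleCat.mono_iff_injective (K.iCycles n)).1 inferInstance h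

lemma homologyπ_eq_zero_iff (n : ℤ) (c : K.cycles n) :
    K.homologyπ n c = 0 ↔ ∃ x : K.X (n - 1), K.d (n - 1) n x = K.iCycles n c := by
  have h : (ShortComplex.mk (K.toCycles (n - 1) n) (K.homologyπ n) (by simp)).Exact :=
    ShortComplex.exact_of_g_is_cokernel _ (K.homologyIsCokernel (n - 1) n (by simp))
  have e : ∀ x : K.X (n - 1), K.iCycles n (K.toCycles (n - 1) n x) = K.d (n - 1) n x := fun x =>
    congrArg (fun f => f.hom x) (K.toCycles_i (n - 1) n)
  constructor
  · intro hc
    obtain ⟨x, hx⟩ := (ShortComplex.moduleCat_exact_iff _).1 h c hc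
    refine ⟨x, ?_⟩
    rw [← e]
    exact congrArg _ hx
  · rintro ⟨x, hx⟩
    rw [← e] at hx
    rw [← iCycles_inj n hx]
    exact congrArg (fun f => f.hom x) (K.toCycles_comp_homologyπ (n - 1) n)

lemma homologyMap_π (φ : K ⟶ L) (n : ℤ) (c : K.cycles n) :
    homologyMap φ n (K.homologyπ n c) = L.homologyπ n (cyclesMap φ n c) :=
  congrArg (fun f => f.hom c) (homologyπ_naturality φ n)

lemma cyclesMap_i' (φ : K ⟶ L) (n : ℤ) (c : K.cycles n) :
    L.iCycles n (cyclesMap φ n c) = φ.f n (K.iCycles n c) :=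
  congrArg (fun f => f.hom c) (cyclesMap_i φ n)

/-- A morphism of complexes of modules is a quasi-isomorphism if it induces bijections on the
cohomology groups. -/
theorem quasiIso_of_elements (φ : K ⟶ L)
    (hi : ∀ (n : ℤ) (x : K.X n), K.d n (n + 1) x = 0 →
      (∃ y : L.X (n - 1), L.d (n - 1) n y = φ.f n x) → ∃ x' : K.X (n - 1), K.d (n - 1) n x' = x)
    (hs : ∀ (n : ℤ) (y : L.X n), L.d n (n + 1) y = 0 → ∃ x : K.X n, K.d n (n + 1) x = 0 ∧
      ∃ z : L.X (n - 1), L.d (n - 1) n z = y - φ.f n x) : QuasiIso φ := by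
  constructor
  intro n
  rw [quasiIsoAt_iff_isIso_homologyMap, ConcreteCategory.isIso_iff_bijective]
  have hπ : Function.Surjective (K.homologyπ n) :=
    (ModuleCat.epi_iff_surjective (K.homologyπ n)).1 inferInstance
  have hπ' : Function.Surjective (L.homologyπ n) :=
    (ModuleCat.epi_iff_surjective (L.homologyπ n)).1 inferInstance
  constructor
  · refine (injective_iff_map_eq_zero (homologyMap φ n).hom).2 fun z hz => ?_
    obtain ⟨c, rfl⟩ := hπ z
    have hz : homologyMap φ n (K.homologyπ n c) = 0 := hz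
    rw [homologyMap_π, homologyπ_eq_zero_iff, cyclesMap_i'] at hz
    rw [homologyπ_eq_zero_iff]
    exact hi n _ (cycle_d n _ c) hz
  · intro z
    obtain ⟨c, rfl⟩ := hπ' z
    obtain ⟨x, hx, z, hz⟩ := hs n _ (cycle_d n (n + 1) c)
    obtain ⟨b, rfl⟩ := exists_cycle n x hx
    refine ⟨K.homologyπ n b, ?_⟩
    change homologyMap φ n (K.homologyπ n b) = _
    rw [homologyMap_π, eq_comm, ← sub_eq_zero]
    have e : L.homologyπ n c - L.homologyπ n (cyclesMap φ n b) =
      L.homologyπ n (c - cyclesMap φ n b) := (map_sub (L.homologyπ n).hom _ _).symm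
    rw [e, homologyπ_eq_zero_iff]
    refine ⟨z, ?_⟩
    rw [hz]
    change _ = (L.iCycles n).hom (c - cyclesMap φ n b)
    rw [map_sub]
    change _ = _ - L.iCycles n (cyclesMap φ n b)
    rw [cyclesMap_i']

end Orl
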