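import Pool.Agent.Work.MP_a6e60d_ag.Q.Tiled

/-!
# Representations of a tiled algebra in a linear category

`T` is a tiling of the `k`-algebra `D` with vertices `V` and `A` a `k`-linear category.  A
representation of `T` in `A` consists of objects `obj s` and linear maps `L s t → (obj s ⟶ obj t)`
which send products to compositions.  It gives a functor `A ⥤ ModuleCat T.Alg`, `M ↦ ⨁ Hom (obj s, M)`;
the object `obj s` represents the functor `Hom (P s, Φ M)`, where `P s` is the projective module
of the vertex `s`.
-/

open CategoryTheory Limits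

attribute [-instance] CategoryTheory.catToReflQuiver

set_option linter.unusedSectionVars false

namespace Orl.Br

open Orl.Q

universe u v w

variable {k D V : Type} [Field k] [Ring D] [Algebra k D] [Fintype V] [DecidableEq V]
variable (T : Tiling k D V) (A : Type u) [Category.{0} A] [Preadditive A] [Linear k A]

/-- a representation of a tiled algebra in a `k`-linear category -/
structure TRep where
  /-- the objects -/
  obj : V → A
  /-- the maps -/
  map : ∀ s t, T.L s t →ₗ[k] (obj s ⟶ obj t)
  map_one : ∀ s, map s s ⟨1, T.one_mem s⟩ = 𝟙 _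
  map_mul : ∀ {s t u : V} (x : T.L s t) (y : T.L t u),
    map s u ⟨x.1 * y.1, T.mul_mem x.2 y.2⟩ = map s t x ≫ map t u y

namespace TRep

variable {T A}
variable (F : TRep T A)

/-- the elements of the module of an object -/
def El (M : A) : Type := ∀ s, F.obj s ⟶ M

instance (M : A) : AddCommGroup (F.El M) := inferInstanceAs (AddCommGroup (∀ s, F.obj s ⟶ M))

instance (M : A) : Module k (F.El M) := inferInstanceAs (Module k (∀ s, F.obj s ⟶ M))

variable {M N : A}

@[ext] theorem El.ext' {x y : F.El M} (h : ∀ s, x s = y s) : x = y := funext h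

@[simp] theorem add_apply (x y : F.El M) (s : V) : (x + y) s = x s + y s := rfl

@[simp] theorem zero_apply (s : V) : (0 : F.El M) s = 0 := rfl

@[simp] theorem ksmul_apply (c : k) (x : F.El M) (s : V) : (c • x) s = c • x s := rfl

/-- the map of an entry of a matrix -/
def ent (B : T.Alg) (s t : V) : F.obj s ⟶ F.obj t := F.map s t ⟨B.1 s t, B.2 s t⟩

theorem ent_add (B C : T.Alg) (s t : V) : F.ent (B + C) s t = F.ent B s t + F.ent C s t :=
  (F.map s t).map_add ⟨B.1 s t, B.2 s t⟩ ⟨C.1 s t, C.2 s t⟩

theorem ent_zero (s t : V) : F.ent (0 : T.Alg) s t = 0 := (F.map s t).map_zero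

theorem ent_smul (c : k) (B : T.Alg) (s t : V) : F.ent (c • B) s t = c • F.ent B s t :=
  (F.map s t).map_smul c ⟨B.1 s t, B.2 s t⟩

theorem ent_one_self (s : V) : F.ent (1 : T.Alg) s s = 𝟙 _ := by
  rw [← F.map_one s, ent]
  congr 1
  apply Subtype.ext
  simp

theorem ent_one_ne {s t : V} (h : s ≠ t) : F.ent (1 : T.Alg) s t = 0 := by
  rw [← (F.map s t).map_zero, ent]
  congr 1
  apply Subtype.ext
  simp [Matrix.one_apply_ne h]

theorem ent_mul (B C : T.Alg) (s u : V) :
    F.ent (B * C) s u = ∑ t, F.ent B s t ≫ F.ent C t u := by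
  have h1 : ∀ t, F.ent B s t ≫ F.ent C t u =
      F.map s u ⟨B.1 s t * C.1 t u, T.mul_mem (B.2 s t) (C.2 t u)⟩ := fun t =>
    (F.map_mul ⟨B.1 s t, B.2 s t⟩ ⟨C.1 t u, C.2 t u⟩).symm
  rw [Finset.sum_congr rfl fun t _ => h1 t, ← map_sum, ent]
  congr 1
  apply Subtype.ext
  rw [AddSubmonoidClass.coe_finsetSum]
  exact Matrix.mul_apply

instance (M : A) : SMul T.Alg (F.El M) := ⟨fun B x s => ∑ t, F.ent B s t ≫ x t⟩

@[simp] theorem smul_apply (B : T.Alg) (x : F.El M) (s : V) :
    (B • x) s = ∑ t, F.ent B s t ≫ x t := rfl

instance (M : A) : Module T.Alg (F.El M) where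
  one_smul x := by
    ext s
    rw [smul_apply, Finset.sum_eq_single s]
    · rw [ent_one_self, Category.id_comp]
    · intro t _ ht
      rw [F.ent_one_ne ht.symm, zero_comp]
    · simp
  mul_smul B C x := by
    ext s
    simp only [smul_apply, ent_mul, Preadditive.sum_comp, Preadditive.comp_sum, Category.assoc]
    exact Finset.sum_comm
  smul_zero B := by
    ext s
    simp
  smul_add B x y := by
    ext s
    simp [Preadditive.comp_add, Finset.sum_add_distrib]
  add_smul B C x := by
    ext s
    simp [ent_add, Preadditive.add_comp, Finset.sum_add_distrib]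
  zero_smul x := by
    ext s
    simp [ent_zero]

instance (M : A) : IsScalarTower k T.Alg (F.El M) where
  smul_assoc c B x := by
    ext s
    simp [ent_smul, Finset.smul_sum]

/-- the linear map of a morphism -/
def elMap (f : M ⟶ N) : F.El M →ₗ[T.Alg] F.El N where
  toFun x s := x s ≫ f
  map_add' x y := by
    ext s
    exact Preadditive.add_comp _ _ _ _ _ _
  map_smul' B x := by
    ext s
    simp only [smul_apply, Preadditive.sum_comp, Category.assoc, RingHom.id_apply]

@[simp] theorem elMap_apply (f : M ⟶ N) (x : F.El M) (s : V) : F.elMap f x s = x s ≫ f := rfl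

/-- The functor `M ↦ ⨁ Hom (obj s, M)`. -/
def functor : A ⥤ ModuleCat.{0} T.Alg where
  obj M := ModuleCat.of T.Alg (F.El M)
  map f := ModuleCat.ofHom (F.elMap f)
  map_id M := ModuleCat.hom_ext (LinearMap.ext fun x => funext fun s => Category.comp_id (x s))
  map_comp f g := ModuleCat.hom_ext (LinearMap.ext fun x => funext fun s =>
    (Category.assoc (x s) f g).symm)

/-- the elements of `Φ M` -/
abbrev toEl (x : F.functor.obj M) : F.El M := x

theorem functor_map_apply (f : M ⟶ N) (x : F.functor.obj M) (s : V) :
    F.toEl (F.functor.map f x) s = F.toEl x s ≫ f := rfl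

instance : F.functor.Additive where
  map_add {M N f g} := ModuleCat.hom_ext (LinearMap.ext fun x => funext fun s =>
    Preadditive.comp_add _ _ _ (x s) f g)

end TRep

/-- the projective module of a vertex, as a tiled module -/
def proj (T : Tiling k D V) (s : V) : Lattice T D where
  M t := T.L t s
  smul_mem hx hn := T.mul_mem hx hn

/-- the generator of the projective module -/
def gen (T : Tiling k D V) (s : V) : (proj T s).El := fun t =>
  ⟨if t = s then 1 else 0, by
    split_ifs with h
    · subst h
      exact T.one_mem t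
    · exact Submodule.zero_mem _⟩

theorem gen_self (T : Tiling k D V) (s : V) : gen T s s = ⟨1, T.one_mem s⟩ :=
  Subtype.ext (if_pos rfl)

theorem gen_ne (T : Tiling k D V) {s t : V} (h : t ≠ s) : gen T s t = 0 :=
  Subtype.ext (if_neg h)

/-- the matrix with one given column -/
def col (T : Tiling k D V) (s : V) (x : (proj T s).El) : T.Alg :=
  ⟨fun t u => if u = s then (x t).1 else 0, fun t u => by
    change (if u = s then (x t).1 else 0) ∈ T.L t u
    split_ifs with h
    · subst h
      exact (x t).2
    · exact Submodule.zero_mem _⟩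

theorem col_self (T : Tiling k D V) (s t : V) (x : (proj T s).El) :
    (col T s x).1 t s = (x t).1 := if_pos rfl

theorem col_smul (T : Tiling k D V) (s : V) (x : (proj T s).El) : col T s x • gen T s = x := by
  apply Lattice.El.ext'
  intro t
  rw [Lattice.smul_apply, Finset.sum_eq_single s]
  · rw [col_self, gen_self, smul_eq_mul, mul_one]
  · intro u _ hu
    rw [gen_ne T hu]
    exact smul_zero _
  · simp

theorem e_smul_gen (T : Tiling k D V) (s : V) : T.e s • gen T s = gen T s := by
  apply Lattice.El.ext'
  intro t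
  rw [Lattice.smul_apply, Finset.sum_eq_single s]
  · by_cases h : t = s
    · subst h
      rw [gen_self, smul_eq_mul, mul_one]
      simp [Tiling.e, Tiling.single]
    · rw [gen_ne T h]
      simp [Tiling.e, Tiling.single, Ne.symm h]
  · intro u _ hu
    rw [gen_ne T hu]
    exact smul_zero _
  · simp

namespace TRep

variable {T A} (F : TRep T A) {M N : A}

theorem ent_e_self (s : V) : F.ent (T.e s) s s = 𝟙 _ := by
  rw [← F.map_one s, ent]
  congr 1
  apply Subtype.ext
  simp [Tiling.e, Tiling.single]

theorem ent_e_ne (s : V) {t u : V} (h : t ≠ s) : F.ent (T.e s) t u = 0 := by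
  rw [← (F.map t u).map_zero, ent]
  congr 1
  apply Subtype.ext
  simp [Tiling.e, Tiling.single, Ne.symm h]

/-- the map from the projective module of a vertex given by a morphism -/
def ofHom (s : V) (f : F.obj s ⟶ M) : (proj T s).El →ₗ[T.Alg] F.El M where
  toFun x t := F.map t s (x t) ≫ f
  map_add' x y := by
    ext t
    rw [add_apply, ← Preadditive.add_comp, ← map_add]
    rfl
  map_smul' B x := by
    ext t
    rw [RingHom.id_apply, smul_apply]
    simp only [← Category.assoc]
    rw [← Preadditive.sum_comp]
    congr 1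
    have h1 : ∀ u, F.ent B t u ≫ F.map u s (x u) =
        F.map t s ⟨B.1 t u * (x u).1, T.mul_mem (B.2 t u) (x u).2⟩ := fun u =>
      (F.map_mul ⟨B.1 t u, B.2 t u⟩ (x u)).symm
    rw [Finset.sum_congr rfl fun u _ => h1 u, ← map_sum]
    congr 1
    apply Subtype.ext
    rw [AddSubmonoidClass.coe_finsetSum]
    rfl

@[simp] theorem ofHom_apply (s : V) (f : F.obj s ⟶ M) (x : (proj T s).El) (t : V) :
    F.ofHom s f x t = F.map t s (x t) ≫ f := rfl

/-- The object `obj s` represents `Hom (P s, Φ M)`. -/
def homEquiv (s : V) (M : A) : (F.obj s ⟶ M) ≃+ ((proj T s).mod ⟶ F.functor.obj M) where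
  toFun f := ModuleCat.ofHom (F.ofHom s f)
  invFun φ := F.toEl (φ.hom (gen T s)) s
  left_inv f := by
    change F.map s s (gen T s s) ≫ f = f
    have h1 : F.map s s (gen T s s) = 𝟙 _ := by
      rw [gen_self]
      exact F.map_one s
    rw [h1, Category.id_comp]
  right_inv φ := by
    refine ModuleCat.hom_ext (LinearMap.ext fun x => funext fun t => ?_)
    change F.map t s (x t) ≫ F.toEl (φ.hom (gen T s)) s = F.toEl (φ.hom x) t
    have h1 : φ.hom x = col T s x • φ.hom (gen T s) := by
      rw [← map_smul]
      exact congrArg _ (col_smul T s x).symm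
    rw [h1]
    change _ = ∑ u, F.ent (col T s x) t u ≫ F.toEl (φ.hom (gen T s)) u
    rw [Finset.sum_eq_single s]
    · congr 1
      exact congrArg (F.map t s) (Subtype.ext (col_self T s t x).symm)
    · intro u _ hu
      have h2 : F.ent (col T s x) t u = 0 := by
        rw [← (F.map t u).map_zero, ent]
        congr 1
        exact Subtype.ext (if_neg hu)
      rw [h2, zero_comp]
    · simp
  map_add' f g := ModuleCat.hom_ext (LinearMap.ext fun x => funext fun t =>
    Preadditive.comp_add _ _ _ (F.map t s (x t)) f g)

/-- the universal map -/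
def univ (s : V) : (proj T s).mod ⟶ F.functor.obj (F.obj s) := F.homEquiv s _ (𝟙 _)

theorem homEquiv_eq (s : V) (f : F.obj s ⟶ M) :
    F.homEquiv s M f = F.univ s ≫ F.functor.map f := by
  refine ModuleCat.hom_ext (LinearMap.ext fun x => funext fun t => ?_)
  change F.map t s (x t) ≫ f = (F.map t s (x t) ≫ 𝟙 _) ≫ f
  rw [Category.comp_id]

/-- The object `obj s` is a left adjoint of `Φ` at the projective module `P s`. -/
theorem univ_bijective (s : V) (M : A) : Function.Bijective
    fun f : F.obj s ⟶ M => F.univ s ≫ F.functor.map f := by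
  have h := (F.homEquiv s M).bijective
  exact (funext fun f => F.homEquiv_eq s f : (fun f => F.homEquiv s M f) = _) ▸ h

end TRep

end Orl.Br
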