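import Pool.Agent.Work.MP_a6e60d_ag.Br.Fin
import Pool.Agent.Work.MP_a6e60d_ag.Main.Abs

/-!
MP_a6e60d_ag, bridge: a good object of the category of modules on a scheme gives the bridge of the
final assembly.
-/

open CategoryTheory Limits CochainComplex HomComplex Abelian AlgebraicGeometry

attribute [-instance] CategoryTheory.catToReflQuiver

namespace Orl.Br

open Orl.Q

universe w

variable {k : Type} [Field k] {δ : Dat k} {X : Scheme.{0}} [X.Over (Spec (.of k))]
  [HasExt.{w} X.Modules] {F : TRep δ.tiling X.Modules} {M : MVData F}

/-- the bridge of a good object -/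
theorem IsPiece.toBridge {G : X.Modules} (h : IsPiece.{w} M G) :
    Orl.Main.Bridge (k := k) F.functor G where
  acyc I _ ε _ := by
    let ε' : (CochainComplex.singleFunctor X.Modules 0).obj G ⟶ I := ε
    have : QuasiIso ε' := (inferInstance : QuasiIso ε)
    exact h.quasiIso ε'
  qIso I _ ε _ J _ q _ := by
    let ε' : (CochainComplex.singleFunctor X.Modules 0).obj G ⟶ I := ε
    have : QuasiIso ε' := (inferInstance : QuasiIso ε)
    exact h.bridge ε' .gen q

end Orl.Br
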